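import Pool.Agent.H88.MT.POL
import Pool.Agent.H88.MT.PT1
import Pool.Agent.H88.MT.PT2
import Pool.Agent.H88.MT.PT3
import Pool.Agent.H88.MT.PT4
import Pool.Agent.H88.MT.PT8
import Pool.Agent.H88.MT.TOP
import Pool.Agent.H88.MT.INV
import Pool.Agent.H4.MT.PT5
import Pool.Agent.H4.MT.PT6
import Pool.Agent.H4.MT.LAM
import Pool.Agent.H4.MT.AS2
import Pool.Agent.H4.MT.SC
import Pool.Agent.H37.MT.RankOne
import Pool.Agent.H37.MT.ZE
import Pool.Agent.H37.MT.TR
import Pool.Agent.H37.MT.CH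
import Pool.Agent.H97.MT.FIN
import Pool.Agent.H97.MT.TRC

/-!
# MP_c80a4f_an: assembly, part 1: the facts about the transforms
-/

set_option linter.unusedSectionVars false

open InnerProductSpace Filter Topology
open scoped ComplexConjugate

namespace Pool.Agent.H48.MT

theorem T_POL_holds : T_POL := Pool.Agent.H88.MT.mt_POL
theorem T_PT1_holds : T_PT1 := Pool.Agent.H88.MT.mt_PT1 T_POL_holds
theorem T_PT2_holds : T_PT2 := Pool.Agent.H88.MT.mt_PT2
theorem T_PT3_holds : T_PT3 := Pool.Agent.H88.MT.mt_PT3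
theorem T_PT4_holds : T_PT4 := Pool.Agent.H88.MT.mt_PT4 T_POL_holds
theorem T_PT5_holds : T_PT5 := pt5_proof T_PT1_holds T_PT4_holds
theorem T_PT6_holds : T_PT6 := pt6_proof T_PT1_holds T_PT2_holds T_PT4_holds
theorem T_PT7_holds : T_PT7 := Pool.Agent.H37.MT.pt7 T_PT2_holds T_PT4_holds
theorem T_PT8_holds : T_PT8 := Pool.Agent.H88.MT.mt_PT8 T_POL_holds T_PT1_holds T_PT3_holds
theorem T_LAM_holds : T_LAM :=
  lam_proof T_PT1_holds T_PT2_holds T_PT4_holds T_PT5_holds T_PT6_holds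
theorem T_BAS_holds : T_BAS := bas_proof T_LAM_holds
theorem T_RK_holds : T_RK := Pool.Agent.H37.MT.rk T_PT7_holds T_LAM_holds
theorem T_ZE_holds : T_ZE := Pool.Agent.H37.MT.ze T_PT1_holds T_PT2_holds
theorem T_SC_holds : T_SC := sc_proof T_PT1_holds T_PT2_holds T_PT3_holds
theorem T_AS2_holds : T_AS2 := as2_proof T_PT3_holds T_PT8_holds T_LAM_holds T_BAS_holds
theorem T_TR_holds : T_TR := Pool.Agent.H37.MT.tr
theorem T_TRC_holds : T_TRC :=
  Pool.Agent.H97.MT.trc T_PT1_holds T_PT2_holds T_LAM_holds T_TR_holds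
theorem T_TOP_holds : T_TOP := Pool.Agent.H88.MT.mt_TOP T_PT1_holds T_LAM_holds
theorem T_CH_holds : T_CH :=
  Pool.Agent.H37.MT.ch T_PT2_holds T_PT4_holds T_PT6_holds T_PT7_holds
theorem T_INV_holds : T_INV :=
  Pool.Agent.H88.MT.mt_INV T_PT1_holds T_PT3_holds T_PT4_holds T_PT5_holds T_PT8_holds
    T_LAM_holds T_BAS_holds
theorem T_FIN_holds : T_FIN := Pool.Agent.H97.MT.fin

variable {H : Type} [NormedAddCommGroup H] [InnerProductSpace ℂ H] [CompleteSpace H]

lemma isLam_mm {l : ℝ} (h0 : 0 ≤ l) (h1 : l ≤ 1 / 2) :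
    IsLam (mm l : (H →L[ℂ] H) → H →L[ℂ] H) := Or.inr ⟨l, h0, h1, rfl⟩

lemma mm_zero : (mm 0 : (H →L[ℂ] H) → H →L[ℂ] H) = mean := (T_LAM_holds H).2.1

lemma isLam_mean : IsLam (mean : (H →L[ℂ] H) → H →L[ℂ] H) := by
  rw [← mm_zero]
  exact isLam_mm le_rfl (by norm_num)

lemma mm_half (T : H →L[ℂ] H) : mm (1 / 2) T = al (1 / 2) T := by
  unfold mm
  rw [show (1 : ℝ) - 1 / 2 = 1 / 2 by norm_num, ← two_smul ℂ (al (1 / 2) T), smul_smul]
  norm_num

/-- the operator is not the mean transform -/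
lemma lam_cases {L : (H →L[ℂ] H) → H →L[ℂ] H} (h : IsLam L) :
    L = mean ∨ L = dh ∨ ∃ l : ℝ, 0 < l ∧ l ≤ 1 / 2 ∧ L = mm l := by
  rcases h with h | ⟨l, h0, h1, h⟩
  · exact Or.inr (Or.inl h)
  · rcases eq_or_lt_of_le h0 with h2 | h2
    · left
      rw [h, ← h2, mm_zero]
    · exact Or.inr (Or.inr ⟨l, h2, h1, h⟩)

lemma as1_of_as2 {L : (H →L[ℂ] H) → H →L[ℂ] H} (hL : IsLam L) (T : H →L[ℂ] H) :
    Tendsto (fun n : ℕ => L ((n : ℂ) • 1 + T) - (n : ℂ) • 1 - T) atTop (𝓝 0) := by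
  obtain ⟨k, -, hk⟩ := T_AS2_holds H L hL
  have h1 := hk 1 T one_ne_zero
  simp only [one_smul] at h1
  have h2 : Tendsto (fun n : ℕ => ((n : ℂ))⁻¹) atTop (𝓝 0) :=
    tendsto_inv_atTop_nhds_zero_nat (𝕜 := ℂ)
  have h3 := h2.smul h1
  rw [zero_smul] at h3
  refine h3.congr' ?_
  filter_upwards [eventually_gt_atTop 0] with n hn
  have hn' : (n : ℂ) ≠ 0 := by
    exact_mod_cast hn.ne'
  rw [smul_smul, inv_mul_cancel₀ hn', one_smul]

lemma sca_of {L : (H →L[ℂ] H) → H →L[ℂ] H} (hL : IsLam L) (h1 : ∀ T, L T = 1 → T = 1)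
    (c : ℂ) (T : H →L[ℂ] H) (hc : c ≠ 0) (h : L T = c • 1) : T = c • 1 := by
  have h2 : L (c⁻¹ • T) = 1 := by
    rw [(T_BAS_holds H L hL).1, h, smul_smul, inv_mul_cancel₀ hc, one_smul]
  have h3 := h1 _ h2
  rw [← h3, smul_smul, mul_inv_cancel₀ hc, one_smul]

lemma normal_smul_ro (c : ℂ) (y : H) : IsStarNormal (c • ro y y) := by
  refine ⟨?_⟩
  rw [star_smul, star_ro]
  exact (Commute.refl (ro y y)).smul_left _ |>.smul_right _

/-- the first transform: mean -/
lemma lm_mean : Lm (mean : (H →L[ℂ] H) → H →L[ℂ] H) true := by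
  have hL : IsLam (mean : (H →L[ℂ] H) → H →L[ℂ] H) := isLam_mean
  obtain ⟨b1, b2, b3, b4, b5⟩ := T_BAS_holds H mean hL
  refine
    { hom := b1
      cov := b2
      nor := b3
      red := b4
      nrm := b5
      rk0 := fun h => absurd h (by decide)
      rk1 := fun _ x y hy => (T_RK_holds H).2 x y hy
      ze0 := fun h => absurd h (by decide)
      ze1 := fun _ T => (T_ZE_holds H).2.1 T
      sq1 := fun _ T => (T_ZE_holds H).2.2 T
      sca := sca_of hL fun T hT => T_SC_holds H T 0 le_rfl (by norm_num) (by rw [mm_zero]; exact hT)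
      as1 := as1_of_as2 hL
      as2 := T_AS2_holds H mean hL
      trc := T_TRC_holds H mean hL
      top := T_TOP_holds H mean hL
      ch0 := fun h => absurd h (by decide)
      ch1 := fun _ x y z hx hy hz h1 h2 h3 a b ha hb => ⟨_, ?_,
        (T_CH_holds H x y z hx hy hz h1 h2 h3 a b ha hb).2.2.2⟩
      inv := T_INV_holds H mean hL
      fin := fun hf => T_FIN_holds H mean hf b4 (T_TOP_holds H mean hL) }
  have ha' : (‖a‖ : ℂ) ≠ 0 := by
    rw [Ne, Complex.ofReal_eq_zero, norm_eq_zero]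
    exact ha
  have hb' : (‖b‖ : ℂ) ≠ 0 := by
    rw [Ne, Complex.ofReal_eq_zero, norm_eq_zero]
    exact hb
  exact mul_ne_zero ha' (div_ne_zero hb hb')

lemma ze0_half (T : H →L[ℂ] H) : al (1 / 2) T = 0 ↔ T * T = 0 := by
  rw [← mm_half]
  exact (T_ZE_holds H).1 (1 / 2) T (by norm_num) le_rfl

lemma one_of_half (T : H →L[ℂ] H) (h : al (1 / 2) T = 1) : T = 1 :=
  T_SC_holds H T (1 / 2) (by norm_num) le_rfl (by rw [mm_half]; exact h)

/-- the second transform: mean of the Aluthge transform -/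
lemma lm_dh : Lm (dh : (H →L[ℂ] H) → H →L[ℂ] H) false := by
  have hL : IsLam (dh : (H →L[ℂ] H) → H →L[ℂ] H) := Or.inl rfl
  have hM : IsLam (mean : (H →L[ℂ] H) → H →L[ℂ] H) := isLam_mean
  obtain ⟨b1, b2, b3, b4, b5⟩ := T_BAS_holds H dh hL
  obtain ⟨c1, c2, c3, c4, c5⟩ := T_BAS_holds H mean hM
  refine
    { hom := b1
      cov := b2
      nor := b3
      red := b4
      nrm := b5
      rk0 := fun _ x y hy => ?_
      rk1 := fun h => absurd h (by decide)
      ze0 := fun _ T => ?_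
      ze1 := fun h => absurd h (by decide)
      sq1 := fun h => absurd h (by decide)
      sca := sca_of hL fun T hT => ?_
      as1 := as1_of_as2 hL
      as2 := T_AS2_holds H dh hL
      trc := T_TRC_holds H dh hL
      top := T_TOP_holds H dh hL
      ch0 := fun _ x y z hx hy hz h1 h2 h3 a b ha hb => ?_
      ch1 := fun h => absurd h (by decide)
      inv := T_INV_holds H dh hL
      fin := fun hf => T_FIN_holds H dh hf b4 (T_TOP_holds H dh hL) }
  · unfold dh
    rw [(T_RK_holds H).1 (1 / 2) x y (by norm_num) (by norm_num) hy]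
    exact c3 _ (normal_smul_ro _ _)
  · unfold dh
    rw [(T_ZE_holds H).2.1, ze0_half]
  · unfold dh at hT
    apply one_of_half
    exact T_SC_holds H _ 0 le_rfl (by norm_num) (by rw [mm_zero]; exact hT)
  · have ha' : 0 < ‖a‖ := norm_pos_iff.2 ha
    have hb' : 0 < ‖b‖ := norm_pos_iff.2 hb
    have hz0 : z ≠ 0 := by
      intro h
      rw [h, norm_zero] at hz
      exact zero_ne_one hz
    have hzy : inner ℂ z y = (0 : ℂ) := by rw [← inner_conj_symm, h2, map_zero]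
    refine ⟨((‖a‖ ^ (1 / 2 : ℝ) * ‖b‖ ^ (1 - 1 / 2 : ℝ) : ℝ) * (b / (‖b‖ : ℂ))) * (2 : ℂ)⁻¹, ?_, ?_⟩
    · refine mul_ne_zero (mul_ne_zero ?_ (div_ne_zero hb ?_)) (by norm_num)
      · rw [Ne, Complex.ofReal_eq_zero]
        exact (mul_pos (Real.rpow_pos_of_pos ha' _) (Real.rpow_pos_of_pos hb' _)).ne'
      · rw [Ne, Complex.ofReal_eq_zero]
        exact hb'.ne'
    · unfold dh
      rw [(T_CH_holds H x y z hx hy hz h1 h2 h3 a b ha hb).2.2.1 (1 / 2) (by norm_num)
        (by norm_num), c1, (T_RK_holds H).2 y z hz0, hzy, zero_div, zero_smul, add_zero, smul_smul]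

/-- the third transform: `mm l` with `l > 0` -/
lemma lm_mm {l : ℝ} (h0 : 0 < l) (h1 : l ≤ 1 / 2) :
    Lm (mm l : (H →L[ℂ] H) → H →L[ℂ] H) false := by
  have hL : IsLam (mm l : (H →L[ℂ] H) → H →L[ℂ] H) := isLam_mm h0.le h1
  obtain ⟨b1, b2, b3, b4, b5⟩ := T_BAS_holds H (mm l) hL
  refine
    { hom := b1
      cov := b2
      nor := b3
      red := b4
      nrm := b5
      rk0 := fun _ x y hy => ?_
      rk1 := fun h => absurd h (by decide)
      ze0 := fun _ T => (T_ZE_holds H).1 l T h0 h1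
      ze1 := fun h => absurd h (by decide)
      sq1 := fun h => absurd h (by decide)
      sca := sca_of hL fun T hT => T_SC_holds H T l h0.le h1 hT
      as1 := as1_of_as2 hL
      as2 := T_AS2_holds H (mm l) hL
      trc := T_TRC_holds H (mm l) hL
      top := T_TOP_holds H (mm l) hL
      ch0 := fun _ x y z hx hy hz h1' h2 h3 a b ha hb => ?_
      ch1 := fun h => absurd h (by decide)
      inv := T_INV_holds H (mm l) hL
      fin := fun hf => T_FIN_holds H (mm l) hf b4 (T_TOP_holds H (mm l) hL) }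
  · unfold mm
    rw [(T_RK_holds H).1 l x y h0 (by linarith) hy,
      (T_RK_holds H).1 (1 - l) x y (by linarith) (by linarith) hy, ← two_smul ℂ, smul_smul]
    norm_num
  · have ha' : 0 < ‖a‖ := norm_pos_iff.2 ha
    have hb' : 0 < ‖b‖ := norm_pos_iff.2 hb
    have hc := (T_CH_holds H x y z hx hy hz h1' h2 h3 a b ha hb).2.2.1
    refine ⟨(2 : ℂ)⁻¹ * (((‖a‖ ^ l * ‖b‖ ^ (1 - l) : ℝ) + (‖a‖ ^ (1 - l) * ‖b‖ ^ (1 - (1 - l)) : ℝ))
      * (b / (‖b‖ : ℂ))), ?_, ?_⟩
    · refine mul_ne_zero (by norm_num) (mul_ne_zero ?_ (div_ne_zero hb ?_))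
      · rw [← Complex.ofReal_add, Ne, Complex.ofReal_eq_zero]
        have := mul_pos (Real.rpow_pos_of_pos ha' l) (Real.rpow_pos_of_pos hb' (1 - l))
        have := mul_pos (Real.rpow_pos_of_pos ha' (1 - l)) (Real.rpow_pos_of_pos hb' (1 - (1 - l)))
        linarith
      · rw [Ne, Complex.ofReal_eq_zero]
        exact hb'.ne'
    · unfold mm
      rw [hc l h0 (by linarith), hc (1 - l) (by linarith) (by linarith), ← add_smul, smul_smul]
      congr 1
      ring

/-- all facts about the transforms -/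
theorem lm_proof : T_LM := by
  intro H _ _ _ L hL
  rcases lam_cases hL with h | h | ⟨l, h0, h1, h⟩
  · rw [h]
    exact ⟨true, lm_mean⟩
  · rw [h]
    exact ⟨false, lm_dh⟩
  · rw [h]
    exact ⟨false, lm_mm h0 h1⟩

end Pool.Agent.H48.MT
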