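import Pool.Agent.H48.MT.Unit

/-!
# MP_c80a4f_an: modules DEN NST RAY OB OC1 OC2 OD1 OD2
-/

set_option linter.unusedSectionVars false

open InnerProductSpace Filter Topology
open scoped ComplexConjugate

namespace Pool.Agent.H48.MT

theorem den_proof : T_DEN := by
  intro H _ _ _ S T hT h
  -- homogeneous form
  have h' : ∀ x, inner ℂ x (T x) ≠ 0 → S x = T x := by
    intro x hx
    have hx0 : x ≠ 0 := by
      intro h0
      rw [h0, inner_zero_left] at hx
      exact hx rfl
    obtain ⟨y, hy, hxy⟩ := exists_unit hx0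
    have hn : (‖x‖ : ℂ) ≠ 0 := by
      rw [Ne, Complex.ofReal_eq_zero, norm_eq_zero]
      exact hx0
    rw [hxy, map_smul, map_smul, h y hy]
    intro h0
    apply hx
    rw [hxy, map_smul, inner_smul_left, inner_smul_right, h0]
    simp
  obtain ⟨z0, hz0⟩ : ∃ z0, inner ℂ z0 (T z0) ≠ 0 := by
    by_contra hc
    push Not at hc
    apply hT
    have h1 : (T : H →ₗ[ℂ] H) = 0 := by
      rw [← inner_map_self_eq_zero]
      intro x
      rw [← inner_conj_symm]
      simp [hc x]
    ext x
    have := congrArg (fun f : H →ₗ[ℂ] H => f x) h1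
    simpa using this
  ext z
  -- the polynomial t ↦ ⟨T (z + t z0), z + t z0⟩
  set A := inner ℂ z (T z) with hA
  set B := inner ℂ z (T z0) + inner ℂ z0 (T z) with hB
  set C := inner ℂ z0 (T z0) with hC
  have hpoly : ∀ t : ℝ, inner ℂ (z + (t : ℂ) • z0) (T (z + (t : ℂ) • z0))
      = A + t * B + t ^ 2 * C := by
    intro t
    rw [map_add, map_smul, inner_add_left, inner_add_right, inner_add_right, inner_smul_left,
      inner_smul_left, inner_smul_right, inner_smul_right, Complex.conj_ofReal, hA, hB, hC]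
    ring
  obtain ⟨t, ht⟩ : ∃ t : ℝ, A + t * B + t ^ 2 * C ≠ 0 := by
    by_contra hc
    push Not at hc
    have e0 := hc 0
    have e1 := hc 1
    have e2 := hc (-1)
    simp only [Complex.ofReal_zero, zero_mul, add_zero, ne_eq, OfNat.ofNat_ne_zero,
      not_false_eq_true, zero_pow] at e0
    simp only [Complex.ofReal_one, one_mul, one_pow] at e1
    simp only [Complex.ofReal_neg, Complex.ofReal_one] at e2
    apply hz0
    have : C = ((A + B + C) + (A + -1 * B + (-1) ^ 2 * C)) / 2 - A := by ring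
    rw [this, e1, e2, e0]
    ring
  have h1 := h' (z + (t : ℂ) • z0) (by rw [hpoly]; exact ht)
  have h2 := h' z0 hz0
  rw [map_add, map_add, map_smul, map_smul, h2] at h1
  exact add_right_cancel h1

theorem nst_proof : T_NST := by
  intro H _ _ _ L m hL h2
  obtain ⟨x, w, hx, hw, hxw⟩ := h2
  obtain ⟨y, hy, hxy⟩ := exists_tp ⟨x, w, hx, hw, hxw⟩ x hx (1 / 2) (by norm_num) (by norm_num)
  have hne : inner ℂ x y ≠ 0 := by
    intro h0
    rw [h0, norm_zero] at hxy
    norm_num at hxy
  have hne' : inner ℂ y x ≠ 0 := by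
    rw [← inner_conj_symm, Ne, map_eq_zero]
    exact hne
  have hne1 : ‖inner ℂ x y‖ ≠ 1 := by
    intro h1
    rw [h1] at hxy
    norm_num at hxy
  refine ⟨x, y, hx, hy, ?_⟩
  rw [star_ro]
  intro heq
  have key : inner ℂ x y • ro x x = inner ℂ x y • ro y y := by
    cases m with
    | false =>
      rw [hL.rk0u y x hx, hL.rk0u x y hy, star_smul, star_ro] at heq
      rw [heq, RCLike.star_def, inner_conj_symm]
    | true =>
      rw [hL.rk1u y x hx, hL.rk1u x y hy, star_smul, star_add, star_smul, star_ro, star_ro] at heq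
      have h3 : star ((2 : ℂ)⁻¹) = (2 : ℂ)⁻¹ := by simp
      rw [h3] at heq
      have h4 := smul_right_injective (H →L[ℂ] H) (by norm_num : ((2 : ℂ)⁻¹) ≠ 0) heq
      have h5 := add_left_cancel h4
      rw [h5, RCLike.star_def, inner_conj_symm]
  have := (smul_ro_eq hx hy hne key).1
  rw [ro_eq_iff hx hy] at this
  exact hne1 this

theorem ray_proof : T_RAY := by
  intro H _ _ _ Φ Ψ hl hr h0 h1 h2
  have hinj : Function.Injective Φ := fun a b hab => by rw [← hl a, hab, hl]
  have hinj' : Function.Injective Ψ := fun a b hab => by rw [← hr a, hab, hr]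
  choose! pr hpr1 hpr2 using h1
  have hex : ∀ x : H, ∃ g : ℂ → ℂ, ‖x‖ = 1 → ∀ c, Φ (c • ro x x) = g c • ro (pr x) (pr x) := by
    intro x
    by_cases hx : ‖x‖ = 1
    · choose g hg using hpr2 x hx
      exact ⟨g, fun _ => hg⟩
    · exact ⟨fun _ => 0, fun h => absurd h hx⟩
  choose f hf using hex
  have hzer : ∀ x, ‖x‖ = 1 → f x 0 = 0 := by
    intro x hx
    have := hf x hx 0
    rw [zero_smul, h0] at this
    exact ((smul_eq_zero.1 this.symm).resolve_right (ro_unit_ne_zero (hpr1 x hx)))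
  have hfinj : ∀ x, ‖x‖ = 1 → Function.Injective (f x) := by
    intro x hx c d hcd
    have e1 := hf x hx c
    have e2 := hf x hx d
    rw [hcd, ← e2] at e1
    exact smul_ro_inj hx (hinj e1)
  have hfsur : ∀ x, ‖x‖ = 1 → Function.Surjective (f x) := by
    intro x hx d
    obtain ⟨z, hz, hz2⟩ := h2 (pr x) (hpr1 x hx)
    obtain ⟨c1, hc1⟩ := hz2 (f x 1)
    rw [← hf x hx, hl] at hc1
    have hzx := (smul_ro_eq hx hz one_ne_zero hc1).1
    obtain ⟨c, hc⟩ := hz2 d
    refine ⟨c, ?_⟩
    rw [← hzx] at hc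
    have e := hf x hx c
    rw [← hc, hr] at e
    exact smul_ro_inj (hpr1 x hx) e.symm
  refine ⟨pr, f, ⟨hpr1, hf, ?_, ?_, fun x hx => ⟨hfinj x hx, hfsur x hx⟩, hzer⟩⟩
  · intro y hy
    obtain ⟨z, hz, hz2⟩ := h2 y hy
    obtain ⟨c, hc⟩ := hz2 1
    refine ⟨z, hz, ?_⟩
    have e := hf z hz c
    rw [← hc, hr] at e
    exact (smul_ro_eq hy (hpr1 z hz) one_ne_zero e).1.symm
  · intro x y hx hy hxy
    obtain ⟨c, hc⟩ := hfsur x hx 1
    obtain ⟨d, hd⟩ := hfsur y hy 1
    have e1 := hf x hx c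
    have e2 := hf y hy d
    rw [hc, one_smul] at e1
    rw [hd, one_smul, ← hxy, ← e1] at e2
    have hc0 : c ≠ 0 := by
      intro h
      rw [h, hzer x hx] at hc
      exact zero_ne_one hc
    exact (smul_ro_eq hx hy hc0 (hinj e2.symm)).1

theorem ob_proof : T_OB := by
  intro H _ _ _ n k L Φ m pr f hO hR x hx
  have hx' := hR.nrm x hx
  -- p^i q p^j for multiples
  have hpp : ∀ (y : H), ‖y‖ = 1 → ∀ a b : ℂ,
      (a • ro y y) ^ n * (b • ro y y) * (a • ro y y) ^ k = (a ^ (n + k) * b) • ro y y := by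
    intro y hy a b
    have h1 : ∀ j : ℕ, ∀ c : ℂ, (a • ro y y) ^ j * (c • ro y y) = (a ^ j * c) • ro y y := by
      intro j c
      induction j with
      | zero => simp
      | succ j ih =>
        rw [pow_succ', mul_assoc, ih, smul_mul_smul_comm, proj_mul_self hy]
        congr 1
        ring
    have h2 : ∀ j : ℕ, ∀ c : ℂ, (c • ro y y) * (a • ro y y) ^ j = (c * a ^ j) • ro y y := by
      intro j c
      induction j with
      | zero => simp
      | succ j ih =>
        rw [pow_succ, ← mul_assoc, ih, smul_mul_smul_comm, proj_mul_self hy]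
        congr 1
        ring
    rw [h1, h2]
    congr 1
    rw [pow_add]
    ring
  have key : ∀ a b : ℂ, f x (a ^ (n + k) * b) = f x a ^ (n + k) * f x b := by
    intro a b
    have h1 := hO.eq4 (a • ro x x) (b • ro x x)
    rw [hR.val x hx, hR.val x hx, hpp _ hx', hpp _ hx, hO.lm.smul_ro, hO.lm.smul_ro,
      hR.val x hx] at h1
    exact (smul_ro_inj hx' h1).symm
  have hf1 : f x 1 ≠ 0 := by
    intro h
    have := (hR.bjf x hx).1 (h.trans (hR.zer x hx).symm)
    exact one_ne_zero this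
  have h1 : f x 1 ^ (n + k) = 1 := by
    have := key 1 1
    rw [one_pow, one_mul] at this
    exact (mul_eq_right₀ hf1).1 this.symm
  refine ⟨h1, ?_⟩
  have h3 : ∀ a : ℂ, f x (a ^ (n + k)) = f x a ^ (n + k) * f x 1 := by
    intro a
    have := key a 1
    rwa [mul_one] at this
  intro a b
  obtain ⟨a', ha'⟩ := IsAlgClosed.exists_pow_nat_eq a (n := n + k) (by have := hO.pos; omega)
  rw [← ha', key, h3]
  ring

end Pool.Agent.H48.MT
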