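import Pool.Agent.H48.MT.Unit

/-!
# MP_c80a4f_an: modules OC1 OC2 OD1 OD2 SPN OE
-/

set_option linter.unusedSectionVars false

open InnerProductSpace Filter Topology
open scoped ComplexConjugate

namespace Pool.Agent.H48.MT

variable {H : Type} [NormedAddCommGroup H] [InnerProductSpace ℂ H] [CompleteSpace H]

lemma sandwich {n k : ℕ} {L : (H →L[ℂ] H) → H →L[ℂ] H} {m : Bool} (hL : Lm L m)
    (hp : 1 ≤ n + k) (hc : (1 ≤ n ∧ 1 ≤ k) ∨ (n = 0 ∧ m = false)) {x y : H} (hx : ‖x‖ = 1)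
    (a t : ℂ) :
    L ((a • ro x x) ^ n * (t • ro y y) * (a • ro x x) ^ k)
      = (a ^ (n + k) * t * ((‖inner ℂ x y‖ ^ 2 : ℝ) : ℂ)) • ro x x := by
  rcases hc with ⟨hn, hk⟩ | ⟨hn, hm⟩
  · rw [smul_proj_pow hx _ hn, smul_proj_pow hx _ hk]
    have : (a ^ n • ro x x) * (t • ro y y) * (a ^ k • ro x x)
        = (a ^ (n + k) * t) • (ro x x * ro y y * ro x x) := by
      simp only [smul_mul_smul_comm, pow_add]
      congr 1
      ring
    rw [this, proj_corner, ro_apply, inner_smul_right, smul_smul, hL.smul_ro,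
      mul_comm (inner ℂ y x), mul_conj_norm]
  · subst hn hm
    have hk : 1 ≤ k := by omega
    rw [smul_proj_pow hx _ hk, pow_zero, one_mul, zero_add]
    have : (t • ro y y) * (a ^ k • ro x x) = (a ^ k * t * inner ℂ y x) • ro y x := by
      rw [smul_mul_smul_comm, proj_mul, smul_smul]
      congr 1
      ring
    rw [this, hL.hom, hL.rk0u _ _ hx, smul_smul, mul_assoc, mul_comm (inner ℂ y x),
      mul_conj_norm]

/-- the basic relation -/
lemma rel1 {n k : ℕ} {L Φ : (H →L[ℂ] H) → H →L[ℂ] H} {m : Bool} {pr : H → H} {f : H → ℂ → ℂ}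
    (hO : O4 n k L Φ m) (hR : Ry Φ pr f) (hc : (1 ≤ n ∧ 1 ≤ k) ∨ (n = 0 ∧ m = false)) {x y : H}
    (hx : ‖x‖ = 1) (hy : ‖y‖ = 1) (hN : f x 1 ^ (n + k) = 1) (t : ℂ) :
    f x (t * ((‖inner ℂ x y‖ ^ 2 : ℝ) : ℂ))
      = f y t * ((‖inner ℂ (pr x) (pr y)‖ ^ 2 : ℝ) : ℂ) := by
  have h1 := hO.eq4 ((1 : ℂ) • ro x x) (t • ro y y)
  rw [hR.val x hx, hR.val y hy, sandwich hO.lm hO.pos hc (hR.nrm x hx),
    sandwich hO.lm hO.pos hc hx, hR.val x hx, hN, one_pow, one_mul, one_mul] at h1
  exact (smul_ro_inj (hR.nrm x hx) h1).symm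

lemma pos_of_norm_one {z : ℂ} {r : ℝ} (hr : 0 < r) {s : ℝ} (hs : 0 < s) (h : z * r = s)
    (hz : ‖z‖ = 1) : z = 1 := by
  have h1 : z = ((s / r : ℝ) : ℂ) := by
    have : (r : ℂ) ≠ 0 := by
      rw [Ne, Complex.ofReal_eq_zero]
      exact hr.ne'
    rw [Complex.ofReal_div, ← h, mul_div_cancel_right₀ _ this]
  rw [h1, Complex.norm_real, Real.norm_eq_abs, abs_of_pos (div_pos hs hr)] at hz
  rw [h1, hz, Complex.ofReal_one]

theorem oc1_proof : T_OC1 := by
  intro H _ _ _ n k L Φ m pr f hO hR hB hc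
  have hN : n + k ≠ 0 := by have := hO.pos; omega
  have hg0 : ∀ x, ‖x‖ = 1 → f x 1 ≠ 0 := by
    intro x hx h
    have h1 := (hB x hx).1
    rw [h, zero_pow hN] at h1
    exact zero_ne_one h1
  have hgn : ∀ x, ‖x‖ = 1 → ‖f x 1‖ = 1 := by
    intro x hx
    have h1 := congrArg norm (hB x hx).1
    rw [norm_pow, norm_one] at h1
    exact (pow_eq_one_iff_of_nonneg (norm_nonneg _) hN).1 h1
  -- gam
  have hmul : ∀ x, ‖x‖ = 1 → ∀ a b, f x (a * b) / f x 1 = (f x a / f x 1) * (f x b / f x 1) := by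
    intro x hx a b
    have := (hB x hx).2 a b
    have h0 := hg0 x hx
    field_simp
    linear_combination this
  have hpw : ∀ x, ‖x‖ = 1 → ∀ a : ℂ, ∀ j : ℕ, f x (a ^ j) / f x 1 = (f x a / f x 1) ^ j := by
    intro x hx a j
    induction j with
    | zero => rw [pow_zero, pow_zero, div_self (hg0 x hx)]
    | succ j ih => rw [pow_succ, hmul x hx, ih, pow_succ]
  have hnz : ∀ x, ‖x‖ = 1 → ∀ a, a ≠ 0 → f x a ≠ 0 := by
    intro x hx a ha h
    exact ha ((hR.bjf x hx).1 (h.trans (hR.zer x hx).symm))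
  -- positivity
  have hposi : ∀ x, ‖x‖ = 1 → ∀ s : ℝ, 0 < s → s ≤ 1 → ∃ r : ℝ, 0 < r ∧ f x s / f x 1 = r := by
    intro x hx s hs0 hs1
    set r := s ^ ((1 : ℝ) / (n + k : ℕ)) with hr
    have hr0 : 0 < r := Real.rpow_pos_of_pos hs0 _
    have hr1 : r ≤ 1 := Real.rpow_le_one hs0.le hs1 (by positivity)
    have hrs : r ^ (n + k) = s := by
      rw [hr, ← Real.rpow_natCast, ← Real.rpow_mul hs0.le, one_div, inv_mul_cancel₀, Real.rpow_one]
      exact_mod_cast hN
    obtain ⟨z, hz, hxz⟩ := exists_tp hO.two x hx r hr0.le hr1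
    have h1 := rel1 hO hR hc hx hz (hB x hx).1 1
    rw [one_mul, hxz] at h1
    set s' := ‖inner ℂ (pr x) (pr z)‖ ^ 2 with hs'
    have hs'0 : 0 < s' := by
      rcases (sq_nonneg ‖inner ℂ (pr x) (pr z)‖).lt_or_eq with h | h
      · exact h
      · exfalso
        rw [← hs'] at h
        rw [← h, Complex.ofReal_zero, mul_zero] at h1
        exact hnz x hx _ (by rw [Ne, Complex.ofReal_eq_zero]; exact hr0.ne') h1
    refine ⟨s' ^ (n + k), by positivity, ?_⟩
    rw [← hrs, Complex.ofReal_pow, hpw x hx, h1, div_pow, mul_pow, (hB x hx).1, (hB z hz).1]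
    simp
  apply const_of_nonorth (fun x => f x 1)
  intro x y hx hy hxy
  have h1 := rel1 hO hR hc hx hy (hB x hx).1 1
  rw [one_mul] at h1
  set s := ‖inner ℂ x y‖ ^ 2 with hs
  set s' := ‖inner ℂ (pr x) (pr y)‖ ^ 2 with hs'
  have hs0 : 0 < s := by
    rw [hs]
    have := norm_pos_iff.2 hxy
    positivity
  have hs1 : s ≤ 1 := by
    rw [hs]
    have := norm_inner_le_norm (𝕜 := ℂ) x y
    rw [hx, hy, mul_one] at this
    exact pow_le_one₀ (norm_nonneg _) this
  obtain ⟨r, hr0, hr⟩ := hposi x hx s hs0 hs1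
  have hs'0 : 0 < s' := by
    rcases (sq_nonneg ‖inner ℂ (pr x) (pr y)‖).lt_or_eq with h | h
    · exact h
    · exfalso
      rw [← hs'] at h
      rw [← h, Complex.ofReal_zero, mul_zero] at h1
      exact hnz x hx _ (by rw [Ne, Complex.ofReal_eq_zero]; exact hs0.ne') h1
  have h2 : (f y 1 / f x 1) * s' = r := by
    rw [← hr, h1]
    ring
  have h3 := pos_of_norm_one hs'0 hr0 h2 (by rw [norm_div, hgn x hx, hgn y hy, div_one])
  exact ((div_eq_one_iff_eq (hg0 x hx)).1 h3).symm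

theorem oc2_proof : T_OC2 := by
  intro H _ _ _ n k L Φ m pr f hO hR hB hc
  set F := Φ 1 with hF
  have hL := hO.lm
  have hval1 : ∀ x, ‖x‖ = 1 → Φ (ro x x) = f x 1 • ro (pr x) (pr x) := by
    intro x hx
    have := hR.val x hx 1
    rwa [one_smul] at this
  have hgn : ∀ x, ‖x‖ = 1 → f x 1 ≠ 0 := by
    intro x hx h
    have h1 := (hB x hx).1
    rw [h, zero_pow (by have := hO.pos; omega)] at h1
    exact zero_ne_one h1
  -- an operator with eigenvector pr x
  have main : ∃ S : H →L[ℂ] H, ∃ σ : ℂ → ℂ, (∀ c, σ (σ c) = c) ∧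
      ∀ x, ‖x‖ = 1 → S (pr x) = σ (f x 1) • pr x := by
    rcases hc with hk | ⟨hn, hm⟩
    · subst hk
      have hn : 1 ≤ n := by have := hO.pos; omega
      refine ⟨star F, conj, fun c => Complex.conj_conj c, fun x hx => ?_⟩
      have hx' := hR.nrm x hx
      have h1 := hO.eq4 (ro x x) 1
      have hN := (hB x hx).1
      rw [add_zero] at hN
      rw [hval1 x hx, pow_zero, mul_one, pow_zero, mul_one, mul_one, proj_pow hx hn,
        hL.sel (ro_self_sa x), hval1 x hx, smul_proj_pow hx' _ hn, hN, one_smul,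
        ← hF, ro_mul] at h1
      set b := star F (pr x) with hb
      have hb0 : b ≠ 0 := by
        intro h0
        rw [h0, ro_zero_right, hL.zero] at h1
        exact (smul_ne_zero (hgn x hx) (ro_unit_ne_zero hx')) h1.symm
      obtain ⟨y, hy, hby⟩ := exists_unit hb0
      have hbn : (‖b‖ : ℂ) ≠ 0 := by
        rw [Ne, Complex.ofReal_eq_zero, norm_eq_zero]
        exact hb0
      -- y is parallel to pr x
      have hpar : ∃ c : ℂ, y = c • pr x := by
        have h2 : ∃ u : H, L (ro (pr x) b) = ro u y := by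
          cases m with
          | false =>
            refine ⟨(inner ℂ b (pr x) / (‖b‖ : ℂ) ^ 2 * ‖b‖ * ‖b‖) • y, ?_⟩
            rw [hL.rk0 rfl _ _ hb0]
            nth_rw 3 4 [hby]
            rw [ro_smul_left, ro_smul_right, ro_smul_left, smul_smul, smul_smul,
              Complex.conj_ofReal]
          | true =>
            refine ⟨(2 : ℂ)⁻¹ • ((‖b‖ : ℂ) • (pr x + (inner ℂ b (pr x) / (‖b‖ : ℂ) ^ 2) • b)), ?_⟩
            have e : ∀ z : H, ro z b = (‖b‖ : ℂ) • ro z y := fun z =>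
              (congrArg (ro z) hby).trans (by rw [ro_smul_right, Complex.conj_ofReal])
            rw [hL.rk1 rfl _ _ hb0, ro_smul_left, ro_smul_left, ro_add_left, ro_smul_left, e, e]
            congr 1
            rw [smul_add, smul_comm (‖b‖ : ℂ) (inner ℂ b (pr x) / (‖b‖ : ℂ) ^ 2)]
        obtain ⟨u, hu⟩ := h2
        rw [hu] at h1
        have h3 := congrArg (fun T : H →L[ℂ] H => star T u) h1
        simp only [star_ro, star_smul, _root_.smul_apply, ro_apply] at h3
        have hu0 : u ≠ 0 := by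
          intro h0
          rw [h0, ro_zero_left] at h1
          exact (smul_ne_zero (hgn x hx) (ro_unit_ne_zero hx')) h1.symm
        have huu : inner ℂ u u ≠ 0 := inner_self_ne_zero.2 hu0
        refine ⟨(inner ℂ u u)⁻¹ * (star (f x 1) * inner ℂ (pr x) u), ?_⟩
        rw [← smul_smul, ← smul_smul, ← h3, smul_smul, inv_mul_cancel₀ huu, one_smul]
      obtain ⟨c, hcy⟩ := hpar
      set β := (‖b‖ : ℂ) * c with hβ
      have hbβ : b = β • pr x := by rw [hby, hcy, smul_smul, hβ]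
      rw [hbβ, ro_smul_right, hL.smul_ro] at h1
      have h4 := smul_ro_inj hx' h1
      rw [hbβ, ← h4, Complex.conj_conj]
    · subst hn hm
      have hk : 1 ≤ k := by have := hO.pos; omega
      refine ⟨F, id, fun c => rfl, fun x hx => ?_⟩
      have hx' := hR.nrm x hx
      have h1 := hO.eq4 (ro x x) 1
      have hN := (hB x hx).1
      rw [zero_add] at hN
      rw [hval1 x hx, pow_zero, one_mul, pow_zero, one_mul, one_mul, proj_pow hx hk,
        hL.sel (ro_self_sa x), hval1 x hx, smul_proj_pow hx' _ hk, hN, one_smul,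
        ← hF, mul_ro, hL.rk1u _ _ hx'] at h1
      have h2 := congrArg (fun T : H →L[ℂ] H => T (pr x)) h1
      simp only [_root_.smul_apply, _root_.add_apply, ro_apply, inner_self_one hx', one_smul] at h2
      have h3 : F (pr x) = (2 * f x 1 - inner ℂ (pr x) (F (pr x))) • pr x := by
        have : F (pr x) + inner ℂ (pr x) (F (pr x)) • pr x = (2 * f x 1) • pr x := by
          rw [← smul_smul, ← h2, smul_smul]
          norm_num
        rw [sub_smul, ← this]
        abel
      have h4 := congrArg (fun z => inner ℂ (pr x) z) h3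
      simp only [inner_smul_right, inner_self_one hx', mul_one] at h4
      have h5 : inner ℂ (pr x) (F (pr x)) = f x 1 := by linear_combination h4 / 2
      rw [h5] at h3
      rw [h3]
      congr 1
      simp only [id]
      ring
  obtain ⟨S, σ, hσ, hS⟩ := main
  -- every unit vector is an eigenvector
  have hall : ∀ y, ‖y‖ = 1 → ∃ c : ℂ, S y = c • y := by
    intro y hy
    obtain ⟨x, hx, hxy⟩ := hR.sur y hy
    rw [ro_eq_iff (hR.nrm x hx) hy] at hxy
    have h1 := eq_smul_of_norm_inner (hR.nrm x hx) hy hxy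
    refine ⟨σ (f x 1), ?_⟩
    rw [h1, map_smul, hS x hx, smul_smul, smul_smul, mul_comm]
  intro x y hx hy
  have h1 := scalar_of_eigen S hall (pr x) (pr y) (hR.nrm x hx) (hR.nrm y hy) _ _ (hS x hx)
    (hS y hy)
  rw [← hσ (f x 1), h1, hσ]

end Pool.Agent.H48.MT
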