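import Pool.Agent.H48.MT.Basic

/-!
# MP_c80a4f_an: module targets, part 1 (polar decomposition, facts about the transforms)
-/

open InnerProductSpace Filter Topology
open scoped ComplexConjugate

namespace Pool.Agent.H48.MT

/-! ## A: polar decomposition and powers -/

/-- existence and uniqueness of the polar decomposition -/
def T_POL : Prop := ∀ (H : Type) [NormedAddCommGroup H] [InnerProductSpace ℂ H] [CompleteSpace H]
  (T : H →L[ℂ] H), IsPol T (pol T) ∧ ∀ V, IsPol T V → V = pol T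

/-- algebra of the polar decomposition -/
def T_PT1 : Prop := ∀ (H : Type) [NormedAddCommGroup H] [InnerProductSpace ℂ H] [CompleteSpace H]
  (T : H →L[ℂ] H),
  T = pol T * CFC.abs T ∧ CFC.abs T = star (pol T) * T ∧ pol T * star (pol T) * pol T = pol T ∧
  IsStarProjection (star (pol T) * pol T) ∧ IsStarProjection (pol T * star (pol T)) ∧
  star (pol T) * pol T * CFC.abs T = CFC.abs T ∧ CFC.abs T * (star (pol T) * pol T) = CFC.abs T ∧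
  (∀ x, pol T x = 0 ↔ T x = 0) ∧ (∀ x, CFC.abs T x = 0 ↔ T x = 0) ∧
  (∀ x, (star (pol T) * pol T) x = 0 ↔ T x = 0) ∧
  (∀ x, ‖CFC.abs T x‖ = ‖T x‖) ∧ ‖pol T‖ ≤ 1 ∧ ‖CFC.abs T‖ = ‖T‖ ∧
  (∀ X : H →L[ℂ] H, CFC.abs T * X = 0 → pol T * X = 0) ∧
  (∀ X : H →L[ℂ] H, X * CFC.abs T = 0 → X * star (pol T) = 0)

/-- real powers of positive operators -/
def T_PT2 : Prop := ∀ (H : Type) [NormedAddCommGroup H] [InnerProductSpace ℂ H] [CompleteSpace H]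
  (P : H →L[ℂ] H), 0 ≤ P →
  P ^ (0 : ℝ) = 1 ∧ P ^ (1 : ℝ) = P ∧ (∀ a : ℝ, 0 ≤ P ^ a) ∧
  (∀ a b : ℝ, 0 < a → 0 < b → P ^ a * P ^ b = P ^ (a + b)) ∧
  (∀ a b : ℝ, 0 < a → 0 < b → (P ^ a) ^ b = P ^ (a * b)) ∧
  (∀ a : ℝ, 0 < a → ∀ x, (P ^ a) x = 0 ↔ P x = 0) ∧
  (∀ a : ℝ, 0 < a → ∀ X : H →L[ℂ] H, (P ^ a * X = 0 ↔ P * X = 0) ∧ (X * P ^ a = 0 ↔ X * P = 0)) ∧
  (∀ a : ℝ, 0 ≤ a → ‖P ^ a‖ ≤ ‖P‖ ^ a) ∧
  (∀ (a : ℝ) (X : H →L[ℂ] H), Commute P X → Commute (P ^ a) X) ∧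
  (∀ (a : ℝ) (X : H →L[ℂ] H), 0 < a → Commute (P ^ a) X → Commute P X) ∧
  (∀ (r a : ℝ), 0 ≤ r → 0 ≤ a → (((r : ℂ) • P) ^ a : H →L[ℂ] H) = ((r ^ a : ℝ) : ℂ) • P ^ a)

/-- real powers of invertible positive operators -/
def T_PT3 : Prop := ∀ (H : Type) [NormedAddCommGroup H] [InnerProductSpace ℂ H] [CompleteSpace H]
  (P : H →L[ℂ] H), 0 ≤ P → IsUnit P →
  (∀ a b : ℝ, P ^ a * P ^ b = P ^ (a + b)) ∧ (∀ a b : ℝ, (P ^ a) ^ b = P ^ (a * b)) ∧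
  (∀ a : ℝ, IsUnit (P ^ a)) ∧ P * P ^ (-1 : ℝ) = 1 ∧
  (∀ Q : H →L[ℂ] H, 0 ≤ Q → P * Q = 1 → Q = P ^ (-1 : ℝ)) ∧
  (P * P = 1 → P = 1)

/-- uniqueness of the polar decomposition in the form in which it is used -/
def T_PT4 : Prop := ∀ (H : Type) [NormedAddCommGroup H] [InnerProductSpace ℂ H] [CompleteSpace H]
  (T V P : H →L[ℂ] H), 0 ≤ P → T = V * P → V * star V * V = V → star V * V * P = P →
    (∀ x, P x = 0 → V x = 0) → P = CFC.abs T ∧ V = pol T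

/-- covariance of powers, absolute values and polar parts -/
def T_PT5 : Prop := ∀ (H : Type) [NormedAddCommGroup H] [InnerProductSpace ℂ H] [CompleteSpace H]
  (W : UA H), (∀ (P : H →L[ℂ] H) (a : ℝ), 0 ≤ P → 0 ≤ a → 0 ≤ cj W P ∧
    cj W P ^ a = cj W (P ^ a)) ∧
    ∀ T : H →L[ℂ] H, CFC.abs (cj W T) = cj W (CFC.abs T) ∧ pol (cj W T) = cj W (pol T)

/-- reducing projections -/
def T_PT6 : Prop := ∀ (H : Type) [NormedAddCommGroup H] [InnerProductSpace ℂ H] [CompleteSpace H]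
  (E : H →L[ℂ] H), IsStarProjection E →
  (∀ (P : H →L[ℂ] H) (a : ℝ), 0 ≤ P → Commute P E → 0 < a →
    (P * E) ^ a = P ^ a * E ∧ Commute (P ^ a) E) ∧
  ∀ T : H →L[ℂ] H, Commute T E → Commute (CFC.abs T) E ∧ Commute (pol T) E ∧
    CFC.abs (T * E) = CFC.abs T * E ∧ pol (T * E) = pol T * E

/-- powers of rank one projections and polar decomposition of rank one operators -/
def T_PT7 : Prop := ∀ (H : Type) [NormedAddCommGroup H] [InnerProductSpace ℂ H] [CompleteSpace H],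
  (∀ (u : H) (r a : ℝ), ‖u‖ = 1 → 0 ≤ r → 0 < a →
    (((r : ℂ) • ro u u) ^ a : H →L[ℂ] H) = ((r ^ a : ℝ) : ℂ) • ro u u) ∧
  (∀ (u v : H) (c : ℂ), ‖u‖ = 1 → ‖v‖ = 1 → c ≠ 0 → CFC.abs (c • ro u v) = (‖c‖ : ℂ) • ro v v ∧
    pol (c • ro u v) = (c / (‖c‖ : ℂ)) • ro u v)

/-- invertible operators: the Aluthge transform is a similarity -/
def T_PT8 : Prop := ∀ (H : Type) [NormedAddCommGroup H] [InnerProductSpace ℂ H] [CompleteSpace H]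
  (T : H →L[ℂ] H), IsUnit T → IsUnit (CFC.abs T) ∧ pol T * star (pol T) = 1 ∧
    star (pol T) * pol T = 1 ∧ ∀ a : ℝ, al a T = CFC.abs T ^ a * T * CFC.abs T ^ (-a)

/-! ## B: facts about the transforms -/

/-- simple formulas -/
def T_LAM : Prop := ∀ (H : Type) [NormedAddCommGroup H] [InnerProductSpace ℂ H] [CompleteSpace H],
  (∀ T : H →L[ℂ] H, al 0 T = T ∧ al 1 T = CFC.abs T * pol T) ∧ (mm 0 : (H →L[ℂ] H) → _) = mean ∧
  (∀ a : ℝ, 0 ≤ a → a ≤ 1 → (∀ (c : ℂ) (T : H →L[ℂ] H), al a (c • T) = c • al a T) ∧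
    (∀ T : H →L[ℂ] H, IsStarNormal T → al a T = T) ∧ (∀ T : H →L[ℂ] H, ‖al a T‖ ≤ ‖T‖) ∧
    (∀ (W : UA H) (T : H →L[ℂ] H), al a (cj W T) = cj W (al a T)) ∧
    ∀ E T : H →L[ℂ] H, IsStarProjection E → Commute T E →
      al a (T * E) = al a T * E ∧ Commute (al a T) E)

/-- homogeneity, covariance, normal operators, reducing subspaces, contraction -/
def T_BAS : Prop := ∀ (H : Type) [NormedAddCommGroup H] [InnerProductSpace ℂ H] [CompleteSpace H]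
  (L : (H →L[ℂ] H) → H →L[ℂ] H), IsLam L →
  (∀ (c : ℂ) T, L (c • T) = c • L T) ∧ (∀ (W : UA H) T, L (cj W T) = cj W (L T)) ∧
  (∀ T, IsStarNormal T → L T = T) ∧ (∀ E T : H →L[ℂ] H, IsStarProjection E → E * T = T * E →
    L (T * E) = L T * E ∧ E * L T = L T * E) ∧ (∀ T, ‖L T‖ ≤ ‖T‖)

/-- rank one operators -/
def T_RK : Prop := ∀ (H : Type) [NormedAddCommGroup H] [InnerProductSpace ℂ H] [CompleteSpace H],
  (∀ (a : ℝ) (x y : H), 0 < a → a < 1 → y ≠ 0 →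
    al a (ro x y) = (inner ℂ y x / (‖y‖ : ℂ) ^ 2) • ro y y) ∧
  (∀ x y : H, y ≠ 0 → mean (ro x y) = (2 : ℂ)⁻¹ •
    (ro x y + (inner ℂ y x / (‖y‖ : ℂ) ^ 2) • ro y y))

/-- zeros of the transforms -/
def T_ZE : Prop := ∀ (H : Type) [NormedAddCommGroup H] [InnerProductSpace ℂ H] [CompleteSpace H],
  (∀ (l : ℝ) (T : H →L[ℂ] H), 0 < l → l ≤ 1 / 2 → (mm l T = 0 ↔ T * T = 0)) ∧
  (∀ T : H →L[ℂ] H, mean T = 0 ↔ T = 0) ∧ (∀ T : H →L[ℂ] H, (2 : ℂ) • mean T = T ↔ T * T = 0)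

/-- preimages of scalars -/
def T_SC : Prop := ∀ (H : Type) [NormedAddCommGroup H] [InnerProductSpace ℂ H] [CompleteSpace H]
  (T : H →L[ℂ] H), (∀ l : ℝ, 0 ≤ l → l ≤ 1 / 2 → mm l T = 1 → T = 1)

/-- first order asymptotics -/
def T_AS1 : Prop := ∀ (H : Type) [NormedAddCommGroup H] [InnerProductSpace ℂ H] [CompleteSpace H]
  (L : (H →L[ℂ] H) → H →L[ℂ] H), IsLam L → ∀ T,
    Tendsto (fun n : ℕ => L ((n : ℂ) • 1 + T) - (n : ℂ) • 1 - T) atTop (𝓝 0)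

/-- second order asymptotics -/
def T_AS2 : Prop := ∀ (H : Type) [NormedAddCommGroup H] [InnerProductSpace ℂ H] [CompleteSpace H]
  (L : (H →L[ℂ] H) → H →L[ℂ] H), IsLam L → ∃ k : ℂ, k ≠ 0 ∧ ∀ (e : ℂ) (T : H →L[ℂ] H), e ≠ 0 →
    Tendsto (fun n : ℕ => (n : ℂ) • (L ((n : ℂ) • e • 1 + T) - (n : ℂ) • e • 1 - T))
      atTop (𝓝 ((k / conj e) • (star T * T - T * star T)))

/-- the trace of finite rank operators exists -/
def T_TR : Prop := ∀ (H : Type) [NormedAddCommGroup H] [InnerProductSpace ℂ H] [CompleteSpace H],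
  (∃ tr : (H →L[ℂ] H) → ℂ, IsTr tr) ∧ (∀ x y : H, FR (ro x y)) ∧
  (∀ X Y : H →L[ℂ] H, FR X → FR Y → FR (X + Y)) ∧ (∀ (c : ℂ) (X : H →L[ℂ] H), FR X → FR (c • X)) ∧
  (∀ X Y : H →L[ℂ] H, FR X → FR (X * Y) ∧ FR (Y * X)) ∧ (∀ X : H →L[ℂ] H, FR X → FR (star X))

/-- the transforms preserve the trace -/
def T_TRC : Prop := ∀ (H : Type) [NormedAddCommGroup H] [InnerProductSpace ℂ H] [CompleteSpace H]
  (L : (H →L[ℂ] H) → H →L[ℂ] H), IsLam L → ∀ tr, IsTr tr → ∀ T, FR T → FR (L T) ∧ tr (L T) = tr T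

/-- norming vectors of fixed operators -/
def T_TOP : Prop := ∀ (H : Type) [NormedAddCommGroup H] [InnerProductSpace ℂ H] [CompleteSpace H]
  (L : (H →L[ℂ] H) → H →L[ℂ] H), IsLam L → ∀ T, L T = T → ∀ e : ℕ → H, (∀ i, ‖e i‖ = 1) →
    Tendsto (fun i => ‖T (e i)‖) atTop (𝓝 ‖T‖) →
    Tendsto (fun i => ‖T (T (e i))‖) atTop (𝓝 (‖T‖ ^ 2))

/-- chains of length three -/
def T_CH : Prop := ∀ (H : Type) [NormedAddCommGroup H] [InnerProductSpace ℂ H] [CompleteSpace H]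
  (x y z : H), ‖x‖ = 1 → ‖y‖ = 1 → ‖z‖ = 1 → inner ℂ x y = 0 → inner ℂ y z = 0 →
    inner ℂ x z = 0 → ∀ a b : ℂ, a ≠ 0 → b ≠ 0 →
    CFC.abs (a • ro x y + b • ro y z) = (‖a‖ : ℂ) • ro y y + (‖b‖ : ℂ) • ro z z ∧
    pol (a • ro x y + b • ro y z) = (a / (‖a‖ : ℂ)) • ro x y + (b / (‖b‖ : ℂ)) • ro y z ∧
    (∀ l : ℝ, 0 < l → l < 1 → al l (a • ro x y + b • ro y z)
      = ((‖a‖ ^ l * ‖b‖ ^ (1 - l) : ℝ) * (b / (‖b‖ : ℂ))) • ro y z) ∧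
    (2 : ℂ) • mean (a • ro x y + b • ro y z) - (a • ro x y + b • ro y z)
      = ((‖a‖ : ℂ) * (b / (‖b‖ : ℂ))) • ro y z

/-- fixed involutions are selfadjoint -/
def T_INV : Prop := ∀ (H : Type) [NormedAddCommGroup H] [InnerProductSpace ℂ H] [CompleteSpace H]
  (L : (H →L[ℂ] H) → H →L[ℂ] H), IsLam L → ∀ T, L T = T → T * T = 1 → IsSelfAdjoint T

/-- fixed operators in finite dimension are normal -/
def T_FIN : Prop := ∀ (H : Type) [NormedAddCommGroup H] [InnerProductSpace ℂ H] [CompleteSpace H]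
  (L : (H →L[ℂ] H) → H →L[ℂ] H), FiniteDimensional ℂ H →
  (∀ E T : H →L[ℂ] H, IsStarProjection E → E * T = T * E → L (T * E) = L T * E ∧
    E * L T = L T * E) →
  (∀ T, L T = T → ∀ e : ℕ → H, (∀ i, ‖e i‖ = 1) →
    Tendsto (fun i => ‖T (e i)‖) atTop (𝓝 ‖T‖) →
    Tendsto (fun i => ‖T (T (e i))‖) atTop (𝓝 (‖T‖ ^ 2))) →
  ∀ T, L T = T → IsStarNormal T

/-- all facts together -/
def T_LM : Prop := ∀ (H : Type) [NormedAddCommGroup H] [InnerProductSpace ℂ H] [CompleteSpace H]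
  (L : (H →L[ℂ] H) → H →L[ℂ] H), IsLam L → ∃ m : Bool, Lm L m

/-- norms of powers of fixed operators -/
def T_FXP : Prop := ∀ (H : Type) [NormedAddCommGroup H] [InnerProductSpace ℂ H] [CompleteSpace H]
  (L : (H →L[ℂ] H) → H →L[ℂ] H) (m : Bool), Lm L m → ∀ T, L T = T →
    ∀ k : ℕ, 1 ≤ k → ‖T ^ k‖ = ‖T‖ ^ k

/-! ## C: general lemmas -/

/-- Wigner's theorem -/
def T_WIG : Prop := ∀ (H : Type) [NormedAddCommGroup H] [InnerProductSpace ℂ H] [CompleteSpace H]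
  (pr : H → H), (∀ x, ‖x‖ = 1 → ‖pr x‖ = 1) →
  (∀ x y, ‖x‖ = 1 → ‖y‖ = 1 → ‖inner ℂ (pr x) (pr y)‖ = ‖inner ℂ x y‖) →
  (∀ y, ‖y‖ = 1 → ∃ x, ‖x‖ = 1 ∧ ro (pr x) (pr x) = ro y y) →
    ∃ W : UA H, ∀ x, ‖x‖ = 1 → ro (pr x) (pr x) = ro (W.U x) (W.U x)

/-- maps preserving the real part of the inner product are additive -/
def T_WG1 : Prop := ∀ (H : Type) [NormedAddCommGroup H] [InnerProductSpace ℂ H] [CompleteSpace H]
  (K : Submodule ℂ H) (V : K → H),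
  (∀ v w : K, (inner ℂ (V v) (V w)).re = (inner ℂ (v : H) (w : H)).re) →
  (∀ v w : K, ‖inner ℂ (V v) (V w)‖ = ‖inner ℂ (v : H) (w : H)‖) →
    (∀ v w : K, V (v + w) = V v + V w) ∧ (∀ v : K, ‖V v‖ = ‖(v : H)‖) ∧
    ((∀ (c : ℂ) (v : K), V (c • v) = c • V v) ∨ (∀ (c : ℂ) (v : K), V (c • v) = conj c • V v))

/-- locally proportional operators: `S x ∈ ℂ T x` for all `x` -/
def T_LLD : Prop := ∀ (H : Type) [NormedAddCommGroup H] [InnerProductSpace ℂ H] [CompleteSpace H],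
  (∀ S T : H →L[ℂ] H, (∀ x, ∃ c : ℂ, S x = c • T x) → ∃ c : ℂ, S = c • T) ∧
  (∀ S : H →L[ℂ] H, (∀ x y, inner ℂ x y = 0 → inner ℂ y (S x) = 0) → ∃ c : ℂ, S = c • 1)

/-- locally dependent operators with the same range and kernel on a dense set of vectors -/
def T_LLE : Prop := ∀ (H : Type) [NormedAddCommGroup H] [InnerProductSpace ℂ H] [CompleteSpace H]
  (S T : H →L[ℂ] H), T ≠ 0 → (∀ x, inner ℂ x (T x) ≠ 0 → ∃ c : ℂ, S x = c • T x) →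
    (∃ c : ℂ, S = c • T) ∨ ∃ u v w : H, T = ro u v ∧ S = ro u w

/-- a vector off finitely many hypersurfaces -/
def T_GEN : Prop := ∀ (H : Type) [NormedAddCommGroup H] [InnerProductSpace ℂ H] [CompleteSpace H]
  (u b c d : H), u ≠ 0 → c ≠ 0 → d ≠ 0 →
  (∃ v, inner ℂ v u ≠ 0 ∧ inner ℂ v c ≠ 0 ∧ inner ℂ v d ≠ 0) ∧
  ((∀ a : ℂ, b ≠ a • u) → ∃ v, inner ℂ v u ≠ 0 ∧ inner ℂ v c ≠ 0 ∧ inner ℂ v d ≠ 0 ∧
    inner ℂ v b ^ 2 ≠ inner ℂ v u * inner ℂ v c)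

/-- the trace lemma: a multiplicative function with values in `[0,1]` on `[0,1]` -/
def T_MON : Prop := ∀ g : ℂ → ℂ, (∀ a b, g (a * b) = g a * g b) → g 0 = 0 → g 1 = 1 →
  (∀ a, g a = 0 → a = 0) →
  (∀ t : ℝ, 0 ≤ t → t ≤ 1 → ∃ t' : ℝ, 0 ≤ t' ∧ t' ≤ 1 ∧ g t = t') → g (1 / 2 : ℝ) = (1 / 2 : ℝ) →
    ∀ t : ℝ, 0 ≤ t → g t = t

/-- field automorphisms of `ℂ` that are real on an interval -/
def T_FLD : Prop := ∀ f : ℂ → ℂ, (∀ a b, f (a * b) = f a * f b) → (∀ a b, f (a + b) = f a + f b) →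
  f 1 = 1 → (∃ δ : ℝ, 0 < δ ∧ ∀ s : ℝ, 0 ≤ s → s ≤ δ → (f s).im = 0) →
    (∀ a, f a = a) ∨ (∀ a, f a = conj a)

/-- selfadjoint operators on a plane -/
def T_SP2 : Prop := ∀ (H : Type) [NormedAddCommGroup H] [InnerProductSpace ℂ H] [CompleteSpace H]
  (x y : H) (X : H →L[ℂ] H), ‖x‖ = 1 → ‖y‖ = 1 → inner ℂ x y = 0 → IsSelfAdjoint X →
  (ro x x + ro y y) * X * (ro x x + ro y y) = X →
  ∃ (u v : H) (a b : ℝ), ‖u‖ = 1 ∧ ‖v‖ = 1 ∧ inner ℂ u v = 0 ∧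
    ro u u + ro v v = ro x x + ro y y ∧ X = (a : ℂ) • ro u u + (b : ℂ) • ro v v

/-- a square zero operator is determined up to a factor by the square zero operators which
anticommute with it -/
def T_ZL : Prop := ∀ (H : Type) [NormedAddCommGroup H] [InnerProductSpace ℂ H] [CompleteSpace H]
  (M K : H →L[ℂ] H), M * M = 0 → M ≠ 0 → K * K = 0 →
  (∀ a b c d : H, inner ℂ b a = 0 → inner ℂ d c = 0 →
    (ro a b + ro c d) * (ro a b + ro c d) = 0 → jp (ro a b + ro c d) M = 0 →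
    jp (ro a b + ro c d) K = 0) → ∃ c : ℂ, K = c • M

/-- there is an antiunitary map -/
def T_CNJ : Prop := ∀ (H : Type) [NormedAddCommGroup H] [InnerProductSpace ℂ H] [CompleteSpace H],
  ∃ W : UA H, ∀ c, W.s c = conj c

end Pool.Agent.H48.MT
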