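import Pool.Agent.H48.MT.M2
import Pool.Agent.H48.MT.Targets

/-!
# MP_c80a4f_an: modules OD1 OD2 SPN OE
-/

set_option linter.unusedSectionVars false

open InnerProductSpace Filter Topology
open scoped ComplexConjugate

namespace Pool.Agent.H48.MT

variable {H : Type} [NormedAddCommGroup H] [InnerProductSpace ℂ H] [CompleteSpace H]

lemma N4.val1 {n k : ℕ} {L Φ : (H →L[ℂ] H) → H →L[ℂ] H} {m : Bool} {pr : H → H}
    {f : H → ℂ → ℂ} (h : N4 n k L Φ m pr f) {x : H} (hx : ‖x‖ = 1) :
    Φ (ro x x) = ro (pr x) (pr x) := by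
  have := h.val x hx 1
  rwa [one_smul, h.one x hx, one_smul] at this

theorem od1_proof : T_OD1 := by
  intro H _ _ _ n k L Φ m pr f hN hc x y hx hy
  have hx' := hN.nrm x hx
  have hy' := hN.nrm y hy
  have hfin : (1 ≤ n ∧ 1 ≤ k) ∨ (n = 0 ∧ m = false) → f x (‖inner ℂ x y‖ ^ 2 : ℝ)
      = (‖inner ℂ (pr x) (pr y)‖ ^ 2 : ℝ) := by
    intro hc'
    have h1 := rel1 hN.toO4 hN.toRy hc' hx hy (by rw [hN.one x hx, one_pow]) 1
    rw [one_mul, hN.one y hy, one_mul] at h1
    exact h1
  rcases hc with hc | hc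
  · exact hfin (Or.inl hc)
  · rcases Nat.eq_zero_or_pos n with h0 | h0
    · exact hfin (Or.inr ⟨h0, hc⟩)
    · rcases Nat.eq_zero_or_pos k with h0' | h0'
      · subst h0' hc
        have hL := hN.lm
        have h1 := hN.eq4 (ro y y) (ro x x)
        rw [hN.val1 hx, hN.val1 hy, proj_pow hy h0, proj_pow hy' h0, pow_zero, mul_one, pow_zero,
          mul_one, proj_mul, proj_mul, hL.hom, hL.hom, hL.rk0u _ _ hx, hL.rk0u _ _ hx', smul_smul,
          smul_smul, mul_comm (inner ℂ y x), mul_comm (inner ℂ (pr y) (pr x)), mul_conj_norm,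
          mul_conj_norm, hN.val x hx] at h1
        exact (smul_ro_inj hx' h1).symm
      · exact hfin (Or.inl ⟨h0, h0'⟩)

/-- the auxiliary rank one operator of the mean transform -/
lemma mean_aux {L : (H →L[ℂ] H) → H →L[ℂ] H} (hL : Lm L true) {x y : H} (hx : ‖x‖ = 1) :
    ro x x * L (ro y y * ro x x) = ((‖inner ℂ x y‖ ^ 2 : ℝ) : ℂ) • ro x x := by
  rw [proj_mul, hL.hom, hL.rk1u _ _ hx, mul_smul_comm, mul_smul_comm, mul_add, ro_mul_ro,
    mul_smul_comm, proj_mul_self hx, ← two_smul ℂ (inner ℂ x y • ro x x), smul_smul, smul_smul,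
    smul_smul, show inner ℂ y x * (2 : ℂ)⁻¹ * 2 * inner ℂ x y = inner ℂ x y * inner ℂ y x by ring,
    mul_conj_norm]

lemma mean_aux_pow {L : (H →L[ℂ] H) → H →L[ℂ] H} (hL : Lm L true) {x y : H} (hx : ‖x‖ = 1)
    (j : ℕ) : ro x x * L (ro y y * ro x x) ^ j
      = (((‖inner ℂ x y‖ ^ 2 : ℝ) : ℂ) ^ j) • ro x x := by
  induction j with
  | zero => simp
  | succ j ih =>
    rw [pow_succ (L (ro y y * ro x x)) j, ← mul_assoc, ih, smul_mul_assoc, mean_aux hL hx,
      smul_smul, ← pow_succ]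

theorem od2_proof : T_OD2 := by
  intro H _ _ _ n k L Φ pr f hN hc x y hx hy
  have hx' := hN.nrm x hx
  have hy' := hN.nrm y hy
  have hL := hN.lm
  have hpos := hN.pos
  by_cases hk : k = 0
  · subst hk
    have hn : 1 ≤ n := by omega
    have h1 := hN.eq4 (ro y y) (ro x x)
    rw [hN.val1 hx, hN.val1 hy, proj_pow hy hn, proj_pow hy' hn, pow_zero, mul_one, pow_zero,
      mul_one] at h1
    have h2 := hN.eq4 (ro x x) (L (ro y y * ro x x))
    rw [hN.val1 hx, proj_pow hx hn, proj_pow hx' hn, pow_zero, mul_one, pow_zero,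
      mul_one, ← h1, mean_aux hL hx, mean_aux hL hx', hL.smul_ro, hL.smul_ro, hN.val x hx] at h2
    exact (smul_ro_inj hx' h2).symm
  · have hn : n = 0 := by omega
    subst hn
    have hk1 : 1 ≤ k := by omega
    have key : ∀ z : H, ‖z‖ = 1 → f x ((‖inner ℂ x z‖ ^ 2 : ℝ) : ℂ) ^ k
        = ((‖inner ℂ (pr x) (pr z)‖ ^ 2 : ℝ) : ℂ) ^ k := by
      intro z hz
      have hz' := hN.nrm z hz
      have h1 := hN.eq4 (ro x x) (ro z z)
      rw [hN.val1 hx, hN.val1 hz, proj_pow hx hk1, proj_pow hx' hk1, pow_zero, one_mul, pow_zero,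
        one_mul] at h1
      have h2 := hN.eq4 (L (ro z z * ro x x)) (ro x x)
      rw [hN.val1 hx, pow_zero, one_mul, pow_zero, one_mul, ← h1, mean_aux_pow hL hx,
        mean_aux_pow hL hx', hL.smul_ro, hL.smul_ro, hN.val x hx] at h2
      have h3 := smul_ro_inj hx' h2
      have hpw : ∀ (a : ℂ) (j : ℕ), f x (a ^ j) = f x a ^ j := by
        intro a j
        induction j with
        | zero => rw [pow_zero, pow_zero, hN.one x hx]
        | succ j ih => rw [pow_succ, hN.mul x hx, ih, pow_succ]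
      rw [← hpw, ← h3]
    have hpw : ∀ (a : ℂ) (j : ℕ), f x (a ^ j) = f x a ^ j := by
      intro a j
      induction j with
      | zero => rw [pow_zero, pow_zero, hN.one x hx]
      | succ j ih => rw [pow_succ, hN.mul x hx, ih, pow_succ]
    set s := ‖inner ℂ x y‖ ^ 2 with hs
    have hs0 : 0 ≤ s := by positivity
    have hs1 : s ≤ 1 := by
      have := norm_inner_le_norm (𝕜 := ℂ) x y
      rw [hx, hy, mul_one] at this
      exact pow_le_one₀ (norm_nonneg _) this
    have hk0 : k ≠ 0 := by omega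
    set r := s ^ ((1 : ℝ) / k) with hr
    have hr0 : 0 ≤ r := Real.rpow_nonneg hs0 _
    have hr1 : r ≤ 1 := Real.rpow_le_one hs0 hs1 (by positivity)
    have hrs : r ^ k = s := by
      rw [hr, ← Real.rpow_natCast, ← Real.rpow_mul hs0, one_div, inv_mul_cancel₀, Real.rpow_one]
      exact_mod_cast hk0
    obtain ⟨z, hz, hxz⟩ := exists_tp hN.two x hx r hr0 hr1
    have h1 := key z hz
    rw [hxz, ← hpw] at h1
    have h2 : (r : ℂ) ^ k = (s : ℂ) := by
      rw [← Complex.ofReal_pow, hrs]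
    rw [h2] at h1
    -- so f x s is a nonnegative real
    have h3 : f x s = (((‖inner ℂ (pr x) (pr z)‖ ^ 2) ^ k : ℝ) : ℂ) := by
      rw [h1]
      push_cast
      ring
    have h4 := key y hy
    rw [← hs, h3] at h4
    rw [h3]
    have h5 : ((((‖inner ℂ (pr x) (pr z)‖ ^ 2) ^ k) ^ k : ℝ)) = (‖inner ℂ (pr x) (pr y)‖ ^ 2) ^ k := by
      exact_mod_cast h4
    have h6 : (‖inner ℂ (pr x) (pr z)‖ ^ 2) ^ k = ‖inner ℂ (pr x) (pr y)‖ ^ 2 :=
      (pow_left_inj₀ (by positivity) (by positivity) hk0).1 h5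
    rw [h6]

theorem spn_proof : T_SPN := by
  intro H _ _ _ pr hn hs ho x y hx hy hxy a b hz
  set z := a • x + b • y with hzdef
  have hx' := hn x hx
  have hy' := hn y hy
  have hz' := hn z hz
  have hyx : inner ℂ y x = 0 := by rw [← inner_conj_symm, hxy, map_zero]
  have hxy' : inner ℂ (pr x) (pr y) = 0 := (ho x y hx hy).2 hxy
  have hyx' : inner ℂ (pr y) (pr x) = 0 := by rw [← inner_conj_symm, hxy', map_zero]
  set c := inner ℂ (pr x) (pr z) with hc
  set d := inner ℂ (pr y) (pr z) with hd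
  set w := pr z - c • pr x - d • pr y with hw
  have hwx : inner ℂ (pr x) w = 0 := by
    rw [hw, inner_sub_right, inner_sub_right, inner_smul_right, inner_smul_right, hxy',
      inner_self_one hx']
    simp [hc]
  have hwy : inner ℂ (pr y) w = 0 := by
    rw [hw, inner_sub_right, inner_sub_right, inner_smul_right, inner_smul_right, hyx',
      inner_self_one hy']
    simp [hd]
  have hw0 : w = 0 := by
    by_contra hne
    obtain ⟨v, hv, hwv⟩ := exists_unit hne
    obtain ⟨u, hu, huv⟩ := hs v hv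
    rw [ro_eq_iff (hn u hu) hv] at huv
    have hvu := eq_smul_of_norm_inner (hn u hu) hv huv
    have hwn : (‖w‖ : ℂ) ≠ 0 := by
      rw [Ne, Complex.ofReal_eq_zero, norm_eq_zero]
      exact hne
    have hin : inner ℂ (pr u) v ≠ 0 := by
      intro h0
      rw [h0, norm_zero] at huv
      exact zero_ne_one huv
    have e1 : ∀ t : H, inner ℂ t w = 0 → inner ℂ t (pr u) = 0 := by
      intro t ht
      rw [hwv, hvu, inner_smul_right, inner_smul_right] at ht
      rcases mul_eq_zero.1 ht with h | h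
      · exact absurd h hwn
      · exact (mul_eq_zero.1 h).resolve_left hin
    have h1 : inner ℂ x u = 0 := (ho x u hx hu).1 (e1 _ hwx)
    have h2 : inner ℂ y u = 0 := (ho y u hy hu).1 (e1 _ hwy)
    have h3 : inner ℂ z u = 0 := by
      rw [hzdef, inner_add_left, inner_smul_left, inner_smul_left, h1, h2]
      simp
    have h4 : inner ℂ (pr z) (pr u) = 0 := (ho z u hz hu).2 h3
    have h5 : inner ℂ (pr z) w = 0 := by
      rw [hwv, hvu, inner_smul_right, inner_smul_right, h4]
      simp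
    have h6 : pr z = w + c • pr x + d • pr y := by
      rw [hw]
      abel
    have h7 : inner ℂ w w = 0 := by
      have e2 : inner ℂ (pr z) w = inner ℂ w w := by
        conv_lhs => rw [h6]
        rw [inner_add_left, inner_add_left, inner_smul_left, inner_smul_left, hwx, hwy]
        simp
      rw [← e2, h5]
    exact hne (inner_self_eq_zero.1 h7)
  have h8 : pr z = c • pr x + d • pr y := by
    rw [hw, sub_sub, sub_eq_zero] at hw0
    exact hw0
  have h9 : ‖pr z‖ ^ 2 = ‖c‖ ^ 2 + ‖d‖ ^ 2 := by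
    rw [h8, @norm_add_sq ℂ, norm_smul, norm_smul, inner_smul_left, inner_smul_right, hxy', hx', hy']
    simp
  rw [← h9, hz', one_pow]

theorem oe_proof (h1 : T_SPN) (h2 : T_MON) : T_OE := by
  intro H _ _ _ Φ pr f hT hR hone hmul hD
  have ho : ∀ x y, ‖x‖ = 1 → ‖y‖ = 1 → (inner ℂ (pr x) (pr y) = 0 ↔ inner ℂ x y = 0) := by
    intro x y hx hy
    have h := hD x y hx hy
    constructor
    · intro h0
      rw [h0, norm_zero] at h
      have h3 : f x ((‖inner ℂ x y‖ ^ 2 : ℝ) : ℂ) = f x 0 := by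
        rw [h, hR.zer x hx]
        simp
      have h4 := (hR.bjf x hx).1 h3
      rw [Complex.ofReal_eq_zero, pow_eq_zero_iff two_ne_zero, norm_eq_zero] at h4
      exact h4
    · intro h0
      rw [h0, norm_zero] at h
      simp only [ne_eq, OfNat.ofNat_ne_zero, not_false_eq_true, zero_pow, Complex.ofReal_zero,
        hR.zer x hx] at h
      have h4 := h.symm
      rw [Complex.ofReal_eq_zero, pow_eq_zero_iff two_ne_zero, norm_eq_zero] at h4
      exact h4
  have hsym : ∀ x y, ‖x‖ = 1 → ‖y‖ = 1 → f x (‖inner ℂ x y‖ ^ 2 : ℝ) = f y (‖inner ℂ x y‖ ^ 2 : ℝ) := by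
    intro x y hx hy
    rw [hD x y hx hy]
    have := hD y x hy hx
    rw [norm_inner_symm y x, norm_inner_symm (pr y) (pr x)] at this
    rw [this]
  intro x hx
  apply h2 (f x) (hmul x hx) (hR.zer x hx) (hone x hx)
  · intro a ha
    exact (hR.bjf x hx).1 (ha.trans (hR.zer x hx).symm)
  · intro t ht0 ht1
    obtain ⟨y, hy, hxy⟩ := exists_tp hT x hx t ht0 ht1
    refine ⟨‖inner ℂ (pr x) (pr y)‖ ^ 2, by positivity, ?_, ?_⟩
    · have := norm_inner_le_norm (𝕜 := ℂ) (pr x) (pr y)
      rw [hR.nrm x hx, hR.nrm y hy, mul_one] at this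
      exact pow_le_one₀ (norm_nonneg _) this
    · rw [← hxy]
      exact hD x y hx hy
  · obtain ⟨y, hy, hxy⟩ := exists_orth hT x hx
    have hyx : inner ℂ y x = 0 := by rw [← inner_conj_symm, hxy, map_zero]
    set c : ℂ := ((Real.sqrt (1 / 2) : ℝ) : ℂ) with hc
    have hcn : ‖c‖ ^ 2 = 1 / 2 := by
      rw [hc, Complex.norm_real, Real.norm_eq_abs, sq_abs, Real.sq_sqrt (by norm_num)]
    have hz : ‖c • x + c • y‖ = 1 := by
      have h3 : ‖c • x + c • y‖ ^ 2 = 1 := by
        rw [@norm_add_sq ℂ, norm_smul, norm_smul, inner_smul_left, inner_smul_right, hxy, hx, hy,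
          mul_one, hcn]
        norm_num
      nlinarith [norm_nonneg (c • x + c • y)]
    have hxz : ‖inner ℂ x (c • x + c • y)‖ ^ 2 = 1 / 2 := by
      rw [inner_add_right, inner_smul_right, inner_smul_right, hxy, inner_self_one hx]
      simpa using hcn
    have hyz : ‖inner ℂ y (c • x + c • y)‖ ^ 2 = 1 / 2 := by
      rw [inner_add_right, inner_smul_right, inner_smul_right, hyx, inner_self_one hy]
      simpa using hcn
    have e1 := hD x _ hx hz
    have e2 := hD y _ hy hz
    have e3 := hsym x _ hx hz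
    have e4 := hsym y _ hy hz
    rw [hxz] at e1 e3
    rw [hyz] at e2 e4
    have e5 := h1 H pr hR.nrm hR.sur ho x y hx hy hxy c c hz
    have e6 : f x ((1 / 2 : ℝ) : ℂ) + f y ((1 / 2 : ℝ) : ℂ) = 1 := by
      rw [e1, e2, ← Complex.ofReal_add, e5, Complex.ofReal_one]
    have e7 : f x ((1 / 2 : ℝ) : ℂ) = f y ((1 / 2 : ℝ) : ℂ) := by rw [e3, e4]
    rw [← e7] at e6
    have : f x ((1 / 2 : ℝ) : ℂ) = 1 / 2 := by linear_combination e6 / 2
    rw [this]
    simp

end Pool.Agent.H48.MT
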