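import Pool.Agent.H48.MT.M2

/-!
# MP_c80a4f_an: modules OA1 OA2
-/

set_option linter.unusedSectionVars false

open InnerProductSpace Filter Topology
open scoped ComplexConjugate

namespace Pool.Agent.H48.MT

variable {H : Type} [NormedAddCommGroup H] [InnerProductSpace ℂ H] [CompleteSpace H]

lemma O4.inj {n k : ℕ} {L Φ : (H →L[ℂ] H) → H →L[ℂ] H} {m : Bool} (h : O4 n k L Φ m)
    {A : H →L[ℂ] H} (hA : Φ A = 0) : A = 0 := h.bij.1 (hA.trans h.zero.symm)

lemma sandX {n k : ℕ} {L : (H →L[ℂ] H) → H →L[ℂ] H} {m : Bool} (hL : Lm L m)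
    (hp : 1 ≤ n + k) (hc : (1 ≤ n ∧ 1 ≤ k) ∨ (n = 0 ∧ m = false)) {y : H} (hy : ‖y‖ = 1)
    (d : ℂ) (X : H →L[ℂ] H) : ∃ c : ℂ, L ((d • ro y y) ^ n * X * (d • ro y y) ^ k) = c • ro y y := by
  rcases hc with ⟨hn, hk⟩ | ⟨hn, hm⟩
  · refine ⟨d ^ n * d ^ k * inner ℂ y (X y), ?_⟩
    rw [smul_proj_pow hy _ hn, smul_proj_pow hy _ hk, smul_mul_assoc, smul_mul_assoc,
      mul_smul_comm, proj_corner, smul_smul, smul_smul, hL.smul_ro]
  · subst hn hm
    have hk : 1 ≤ k := by omega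
    refine ⟨d ^ k * inner ℂ y (X y), ?_⟩
    rw [pow_zero, one_mul, smul_proj_pow hy _ hk, mul_smul_comm, mul_ro, hL.hom, hL.rk0u _ _ hy,
      smul_smul]

lemma star_pow_apply (G : H →L[ℂ] H) (k : ℕ) (a b : H) :
    inner ℂ ((star G ^ k) b) a = inner ℂ b ((G ^ k) a) := by
  rw [← star_pow, ContinuousLinearMap.star_eq_adjoint, ContinuousLinearMap.adjoint_inner_left]

theorem oa1_proof : T_OA1 := by
  intro H _ _ _ n k L Φ m hO hc x hx
  have hL := hO.lm
  have hN : n + k ≠ 0 := by have := hO.pos; omega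
  -- the recursion
  have hS : ∀ a t : ℂ, L (Φ (a • ro x x) ^ n * Φ (t • ro x x) * Φ (a • ro x x) ^ k)
      = Φ ((a ^ (n + k) * t) • ro x x) := by
    intro a t
    rw [hO.eq4, sandwich hL hO.pos hc hx, inner_self_one hx]
    simp
  -- reduction
  suffices hr : ∃ (c0 : ℂ) (y : H) (d : ℂ), ‖y‖ = 1 ∧ d ≠ 0 ∧ Φ (c0 • ro x x) = d • ro y y by
    obtain ⟨c0, y, d, hy, hd, hcd⟩ := hr
    refine ⟨y, hy, fun t => ?_⟩
    have hc0 : c0 ≠ 0 := by
      intro h
      rw [h, zero_smul, hO.zero] at hcd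
      exact (smul_ne_zero hd (ro_unit_ne_zero hy)) hcd.symm
    have h1 := hS c0 (t / c0 ^ (n + k))
    rw [hcd, mul_div_cancel₀ _ (pow_ne_zero _ hc0)] at h1
    obtain ⟨c, hc'⟩ := sandX hL hO.pos hc hy d (Φ ((t / c0 ^ (n + k)) • ro x x))
    exact ⟨c, by rw [← h1, hc']⟩
  set G := Φ (ro x x) with hG
  have hG0 : G ≠ 0 := fun h => ro_unit_ne_zero hx (hO.inj h)
  have hS1 := hS 1 1
  rw [one_smul, one_pow, one_mul, one_smul, ← hG] at hS1
  have hGN : G ^ (k + n) ≠ 0 := by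
    intro h
    apply hG0
    rw [← hS1]
    have : G ^ n * G * G ^ k = G * G ^ (k + n) := by
      rw [← pow_succ, ← pow_add, ← pow_succ']
      congr 1
      omega
    rw [this, h, mul_zero, hL.zero]
  -- choose vectors
  obtain ⟨a, ha⟩ : ∃ a, (G ^ (k + n)) a ≠ 0 := by
    by_contra hcon
    push Not at hcon
    apply hGN
    ext z
    simp [hcon z]
  set b0 := (G ^ (k + n)) a with hb0
  have hin0 : inner ℂ ((star G ^ k) b0) ((G ^ n) a) ≠ 0 := by
    rw [star_pow_apply, ← ContinuousLinearMap.mul_apply, ← pow_add, ← hb0]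
    exact inner_self_ne_zero.2 ha
  have hb1 : (star G ^ k) b0 ≠ 0 := by
    intro h
    rw [h, inner_zero_left] at hin0
    exact hin0 rfl
  obtain ⟨y, hy, hby⟩ := exists_unit hb1
  have hbn : (‖(star G ^ k) b0‖ : ℂ) ≠ 0 := by
    rw [Ne, Complex.ofReal_eq_zero, norm_eq_zero]
    exact hb1
  set ν : ℂ := (‖(star G ^ k) b0‖ : ℂ) with hν
  have hyb : (star G ^ k) (ν⁻¹ • b0) = y := by
    rw [map_smul, hby, smul_smul, inv_mul_cancel₀ hbn, one_smul]
  have hτ : inner ℂ y ((G ^ n) a) ≠ 0 := by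
    intro h
    apply hin0
    rw [hby, inner_smul_left, h, mul_zero]
  set a' := (G ^ n) a with ha'
  set τ := inner ℂ y a' with hτd
  -- the element of S
  obtain ⟨B, hB⟩ := hO.bij.2 (ro a (ν⁻¹ • b0))
  obtain ⟨c0, hc0⟩ : ∃ c0 : ℂ, Φ (c0 • ro x x) = L (ro a' y) := by
    obtain ⟨c, hc'⟩ := sandX hL hO.pos hc hx 1 B
    refine ⟨c, ?_⟩
    rw [← hc', one_smul, ← hO.eq4, ← hG, hB, mul_ro, ro_mul, ← ha', star_pow, hyb]
  have hLτ : inner ℂ y ((L (ro a' y)) y) = τ := by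
    cases m with
    | false =>
      rw [hL.rk0u _ _ hy]
      simp only [_root_.smul_apply, ro_apply, inner_self_one hy, one_smul, inner_smul_right, mul_one]
      rfl
    | true =>
      rw [hL.rk1u _ _ hy]
      simp only [_root_.smul_apply, _root_.add_apply, ro_apply, inner_self_one hy, one_smul,
        inner_smul_right, inner_add_right, mul_one]
      rw [← hτd]
      ring
  cases m with
  | false =>
    refine ⟨c0, y, τ, hy, hτ, ?_⟩
    rw [hc0, hL.rk0u _ _ hy]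
  | true =>
    obtain ⟨hn, hk⟩ : 1 ≤ n ∧ 1 ≤ k := by
      rcases hc with h | h
      · exact h
      · exact absurd h.2 (by simp)
    -- r0 = ro a'' y
    set a'' := (2 : ℂ)⁻¹ • (a' + τ • y) with ha''
    have hr0 : L (ro a' y) = ro a'' y := by
      rw [hL.rk1u _ _ hy, ha'', ro_smul_left, ro_add_left, ro_smul_left]
    have hτ'' : inner ℂ y a'' = τ := by
      rw [ha'', inner_smul_right, inner_add_right, inner_smul_right, inner_self_one hy, ← hτd]
      ring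
    rw [hr0] at hc0
    have hc00 : c0 ≠ 0 := by
      intro h
      rw [h, zero_smul, hO.zero] at hc0
      have h2 := congrArg (fun T : H →L[ℂ] H => inner ℂ y (T y)) hc0
      simp only [_root_.zero_apply, inner_zero_right, ro_apply, inner_smul_right, inner_self_one hy,
        one_mul, hτ''] at h2
      exact hτ h2.symm
    have hpw : ∀ j : ℕ, 1 ≤ j → ∃ c : ℂ, (ro a'' y) ^ j = c • ro a'' y := by
      intro j hj
      induction j, hj using Nat.le_induction with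
      | base => exact ⟨1, by simp⟩
      | succ j _ ih =>
        obtain ⟨c, hc'⟩ := ih
        exact ⟨c * inner ℂ y a'', by rw [pow_succ, hc', smul_mul_assoc, ro_mul_ro, smul_smul]⟩
    obtain ⟨c1, hc1⟩ := hpw n hn
    obtain ⟨c2, hc2⟩ := hpw k hk
    have h1 := hS c0 (c0 / c0 ^ (n + k))
    rw [mul_div_cancel₀ _ (pow_ne_zero _ hc00), hc0, hc1, hc2] at h1
    obtain ⟨c3, hc3⟩ : ∃ c3 : ℂ, ro a'' y = c3 • L (ro a'' y) := by
      have e : (c1 • ro a'' y) * Φ ((c0 / c0 ^ (n + k)) • ro x x) * (c2 • ro a'' y)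
          = (c1 * (c2 * inner ℂ y ((Φ ((c0 / c0 ^ (n + k)) • ro x x)) a''))) • ro a'' y := by
        rw [smul_mul_assoc, smul_mul_assoc, mul_smul_comm, mul_assoc, mul_ro, ro_mul_ro, smul_smul,
          smul_smul, mul_assoc]
      rw [e, hL.hom] at h1
      exact ⟨_, h1.symm⟩
    rw [hL.rk1u _ _ hy, hτ''] at hc3
    have h2 := congrArg (fun T : H →L[ℂ] H => T y) hc3
    simp only [_root_.smul_apply, _root_.add_apply, ro_apply, inner_self_one hy, one_smul] at h2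
    have h3 := congrArg (fun z => inner ℂ y z) h2
    simp only [inner_smul_right, inner_add_right, inner_self_one hy, hτ'', mul_one] at h3
    have h4 : c3 = 1 := by
      have : τ * (c3 - 1) = 0 := by linear_combination -h3
      rcases mul_eq_zero.1 this with h | h
      · exact absurd h hτ
      · exact sub_eq_zero.1 h
    rw [h4, one_smul] at h2
    have h5 : a'' = τ • y := by
      have h6 : (2 : ℂ) • a'' = a'' + τ • y := by
        conv_lhs => rw [h2]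
        rw [smul_smul]
        norm_num
      rw [two_smul] at h6
      exact add_left_cancel h6
    refine ⟨c0, y, τ, hy, hτ, ?_⟩
    rw [hc0, h5, ro_smul_left]

/-! ### `k = 0`, not the mean transform -/

/-- some multiple of `p_x` goes to a multiple of a rank one projection -/
def Good (Φ : (H →L[ℂ] H) → H →L[ℂ] H) (x : H) : Prop :=
  ∃ (c d : ℂ) (y : H), ‖y‖ = 1 ∧ d ≠ 0 ∧ Φ (c • ro x x) = d • ro y y

lemma L_left {L : (H →L[ℂ] H) → H →L[ℂ] H} (hL : Lm L false) {y : H} (hy : ‖y‖ = 1)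
    (T : H →L[ℂ] H) : ∃ (c : ℂ) (z : H), ‖z‖ = 1 ∧ L (ro y y * T) = c • ro z z := by
  rw [ro_mul]
  by_cases hb : star T y = 0
  · exact ⟨0, y, hy, by rw [hb, ro_zero_right, hL.zero, zero_smul]⟩
  · obtain ⟨z, hz, hbz⟩ := exists_unit hb
    refine ⟨conj (‖star T y‖ : ℂ) * inner ℂ z y, z, hz, ?_⟩
    rw [hbz, ro_smul_right, hL.hom, hL.rk0u _ _ hz, smul_smul, ← hbz]

lemma oa2_rec {n : ℕ} {L Φ : (H →L[ℂ] H) → H →L[ℂ] H} (hO : O4 n 0 L Φ false) {x : H}
    (hx : ‖x‖ = 1) (a t : ℂ) : L (Φ (a • ro x x) ^ n * Φ (t • ro x x))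
      = Φ ((a ^ n * t) • ro x x) := by
  have hn : 1 ≤ n := by have := hO.pos; omega
  have h1 := hO.eq4 (a • ro x x) (t • ro x x)
  rw [pow_zero, mul_one, pow_zero, mul_one, smul_proj_pow hx _ hn, smul_mul_smul_comm,
    proj_mul_self hx, hO.lm.smul_ro] at h1
  exact h1

lemma oa2_stepA {n : ℕ} {L Φ : (H →L[ℂ] H) → H →L[ℂ] H} (hO : O4 n 0 L Φ false) {x : H}
    (hx : ‖x‖ = 1) (hg : Good Φ x) : ∃ z, ‖z‖ = 1 ∧ ∀ c : ℂ, ∃ c' : ℂ, Φ (c • ro x x) = c' • ro z z := by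
  obtain ⟨c0, d, y, hy, hd, hcd⟩ := hg
  have hL := hO.lm
  have hn : 1 ≤ n := by have := hO.pos; omega
  have hc0 : c0 ≠ 0 := by
    intro h
    rw [h, zero_smul, hO.zero] at hcd
    exact (smul_ne_zero hd (ro_unit_ne_zero hy)) hcd.symm
  have hall : ∀ t : ℂ, ∃ (c : ℂ) (z : H), ‖z‖ = 1 ∧ Φ (t • ro x x) = c • ro z z := by
    intro t
    have h1 := oa2_rec hO hx c0 (t / c0 ^ n)
    rw [mul_div_cancel₀ _ (pow_ne_zero _ hc0), hcd, smul_proj_pow hy _ hn, smul_mul_assoc,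
      hL.hom] at h1
    obtain ⟨c, z, hz, hcz⟩ := L_left hL hy (Φ ((t / c0 ^ n) • ro x x))
    exact ⟨d ^ n * c, z, hz, by rw [← h1, hcz, smul_smul]⟩
  obtain ⟨d1, z, hz, hz1⟩ := hall 1
  refine ⟨z, hz, fun t => ?_⟩
  obtain ⟨a, ha⟩ := IsAlgClosed.exists_pow_nat_eq t (n := n) (by omega)
  obtain ⟨c, w, hw, hcw⟩ := hall a
  have h1 := oa2_rec hO hx a 1
  rw [mul_one, ha, hcw, hz1, smul_proj_pow hw _ hn, smul_mul_smul_comm, proj_mul, hL.hom,
    hL.hom, hL.rk0u _ _ hz, smul_smul, smul_smul] at h1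
  exact ⟨_, h1.symm⟩

lemma oa2_stepB {n : ℕ} {L Φ Ψ : (H →L[ℂ] H) → H →L[ℂ] H} (hO : O4 n 0 L Φ false)
    (_hO' : O4 n 0 L Ψ false) (hl : ∀ T, Ψ (Φ T) = T) (hr : ∀ T, Φ (Ψ T) = T) {x : H}
    (hx : ‖x‖ = 1) (a b : H) (hb : ‖b‖ = 1) (hab : inner ℂ b ((Φ (ro x x) ^ n) a) ≠ 0) :
    Good Ψ b := by
  have hL := hO.lm
  have hn : 1 ≤ n := by have := hO.pos; omega
  have h1 := hO.eq4 (ro x x) (Ψ (ro a b))
  rw [pow_zero, mul_one, pow_zero, mul_one, hr, mul_ro, hL.rk0u _ _ hb, proj_pow hx hn] at h1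
  obtain ⟨c, z, hz, hcz⟩ := L_left hL hx (Ψ (ro a b))
  rw [hcz] at h1
  refine ⟨_, c, z, hz, ?_, by rw [h1, hl]⟩
  intro h0
  rw [h0, zero_smul, hO.zero] at h1
  exact (smul_ne_zero hab (ro_unit_ne_zero hb)) h1

lemma oa2_stepC {n : ℕ} {L Φ Ψ : (H →L[ℂ] H) → H →L[ℂ] H} (hO : O4 n 0 L Φ false)
    (hO' : O4 n 0 L Ψ false) (hl : ∀ T, Ψ (Φ T) = T) (hr : ∀ T, Φ (Ψ T) = T) {x z : H}
    (hx : ‖x‖ = 1) (hz : ‖z‖ = 1) (hxz : inner ℂ z x ≠ 0) (hg : Good Φ x) : Good Φ z := by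
  have hn : 1 ≤ n := by have := hO.pos; omega
  obtain ⟨w, hw, hwa⟩ := oa2_stepA hO hx hg
  obtain ⟨c, hc⟩ := hwa 1
  rw [one_smul] at hc
  have hc0 : c ≠ 0 := by
    intro h0
    rw [h0, zero_smul] at hc
    exact ro_unit_ne_zero hx (hO.inj hc)
  have hgw : Good Ψ w := by
    apply oa2_stepB hO hO' hl hr hx w w hw
    rw [hc, smul_proj_pow hw _ hn]
    simp only [_root_.smul_apply, ro_apply, inner_self_one hw, one_smul, inner_smul_right, mul_one]
    exact pow_ne_zero _ hc0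
  obtain ⟨v, hv, hva⟩ := oa2_stepA hO' hw hgw
  obtain ⟨c1, hc1⟩ := hva c
  rw [← hc, hl] at hc1
  have h1 : (1 : ℂ) • ro x x = c1 • ro v v := by rw [one_smul, hc1]
  have hxv := (smul_ro_eq hx hv one_ne_zero h1).1
  obtain ⟨c2, hc2⟩ := hva 1
  rw [one_smul, ← hxv] at hc2
  have hc20 : c2 ≠ 0 := by
    intro h0
    rw [h0, zero_smul] at hc2
    exact ro_unit_ne_zero hw (hO'.inj hc2)
  apply oa2_stepB hO' hO hr hl hw x z hz
  rw [hc2, smul_proj_pow hx _ hn]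
  simp only [_root_.smul_apply, ro_apply, inner_self_one hx, one_smul, inner_smul_right]
  exact mul_ne_zero (pow_ne_zero _ hc20) hxz

theorem oa2_proof : T_OA2 := by
  intro H _ _ _ n L Φ hO
  have hn : 1 ≤ n := by have := hO.pos; omega
  obtain ⟨Ψ, hO', hl, hr⟩ := hO.inv
  have hL := hO.lm
  -- one good vector
  obtain ⟨x0, y0, hx0, _⟩ := hO.two
  have hG : Φ (ro x0 x0) ^ n ≠ 0 := by
    intro h
    have h1 := oa2_rec hO hx0 1 1
    rw [one_pow, one_mul, one_smul, h, zero_mul, hL.zero] at h1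
    exact ro_unit_ne_zero hx0 (hO.inj h1.symm)
  obtain ⟨a, ha⟩ : ∃ a, (Φ (ro x0 x0) ^ n) a ≠ 0 := by
    by_contra hcon
    push Not at hcon
    apply hG
    ext z
    simp [hcon z]
  obtain ⟨b, hb, hab⟩ := exists_unit ha
  have hbn : (‖(Φ (ro x0 x0) ^ n) a‖ : ℂ) ≠ 0 := by
    rw [Ne, Complex.ofReal_eq_zero, norm_eq_zero]
    exact ha
  have hgb : Good Ψ b := by
    apply oa2_stepB hO hO' hl hr hx0 a b hb
    rw [hab, inner_smul_right, inner_self_one hb, mul_one]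
    exact hbn
  obtain ⟨y, hy, hya⟩ := oa2_stepA hO' hb hgb
  obtain ⟨c, hc⟩ := hya 1
  rw [one_smul] at hc
  have hc0 : c ≠ 0 := by
    intro h0
    rw [h0, zero_smul] at hc
    exact ro_unit_ne_zero hb (hO'.inj hc)
  have hgy : Good Φ y := by
    apply oa2_stepB hO' hO hr hl hb y y hy
    rw [hc, smul_proj_pow hy _ hn]
    simp only [_root_.smul_apply, ro_apply, inner_self_one hy, one_smul, inner_smul_right, mul_one]
    exact pow_ne_zero _ hc0
  have hall : ∀ z, ‖z‖ = 1 → Good Φ z := by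
    intro z hz
    have h1 := const_of_nonorth (fun z => Good Φ z) (fun x z hx hz hxz => by
      apply propext
      constructor
      · intro hg
        exact oa2_stepC hO hO' hl hr hx hz (by
          rw [← inner_conj_symm, Ne, map_eq_zero]
          exact hxz) hg
      · intro hg
        exact oa2_stepC hO hO' hl hr hz hx hxz hg) y z hy hz
    rw [← h1]
    exact hgy
  intro x hx
  exact oa2_stepA hO hx (hall x hx)

end Pool.Agent.H48.MT
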