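import Pool.Agent.H48.MT.M4

/-!
# MP_c80a4f_an: modules OA3 OA4
-/

set_option linter.unusedSectionVars false

open InnerProductSpace Filter Topology
open scoped ComplexConjugate

namespace Pool.Agent.H48.MT

variable {H : Type} [NormedAddCommGroup H] [InnerProductSpace ℂ H] [CompleteSpace H]

lemma one_sub_proj_pow {y : H} (hy : ‖y‖ = 1) {n : ℕ} (hn : 1 ≤ n) :
    (1 - ro y y) ^ n = 1 - ro y y := by
  induction n, hn using Nat.le_induction with
  | base => simp
  | succ n _ ih =>
    rw [pow_succ, ih, mul_sub, mul_one, sub_mul, one_mul, proj_mul_self hy, sub_self, sub_zero]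

/-- from `A ^ n * B = 0 ↔ ...` -/
lemma zp_left {n : ℕ} {L Φ : (H →L[ℂ] H) → H →L[ℂ] H} (hO : O4 n 0 L Φ true)
    (A B : H →L[ℂ] H) : A ^ n * B = 0 ↔ Φ A ^ n * Φ B = 0 := by
  have h1 := hO.eq4 A B
  rw [pow_zero, mul_one, pow_zero, mul_one] at h1
  rw [← hO.lm.ze1 rfl (A ^ n * B), ← hO.lm.ze1 rfl (Φ A ^ n * Φ B), h1]
  constructor
  · intro h
    rw [h, hO.zero]
  · intro h
    exact hO.inj h

lemma zp_right {k : ℕ} {L Φ : (H →L[ℂ] H) → H →L[ℂ] H} (hO : O4 0 k L Φ true)
    (A B : H →L[ℂ] H) : B * A ^ k = 0 ↔ Φ B * Φ A ^ k = 0 := by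
  have h1 := hO.eq4 A B
  rw [pow_zero, one_mul, pow_zero, one_mul] at h1
  rw [← hO.lm.ze1 rfl (B * A ^ k), ← hO.lm.ze1 rfl (Φ B * Φ A ^ k), h1]
  constructor
  · intro h
    rw [h, hO.zero]
  · intro h
    exact hO.inj h

theorem oa3_proof : T_OA3 := by
  intro H _ _ _ n L Φ hO x hx
  have hn : 1 ≤ n := by have := hO.pos; omega
  have hL := hO.lm
  set G := Φ (ro x x) with hG
  have hG0 : G ≠ 0 := fun h => ro_unit_ne_zero hx (hO.inj h)
  -- rank one
  obtain ⟨u, hu⟩ : ∃ u, G u ≠ 0 := by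
    by_contra hcon
    push Not at hcon
    apply hG0
    ext z
    simp [hcon z]
  obtain ⟨y, hy, hyu⟩ := exists_unit hu
  -- G = p_y G
  have hrel : ∀ B B' : H →L[ℂ] H, (∀ A, A ^ n * B = 0 → A ^ n * B' = 0) ↔
      (∀ A, A ^ n * Φ B = 0 → A ^ n * Φ B' = 0) := by
    intro B B'
    constructor
    · intro h A hA
      obtain ⟨A, rfl⟩ := hO.bij.2 A
      exact (zp_left hO A B').1 (h A ((zp_left hO A B).2 hA))
    · intro h A hA
      exact (zp_left hO A B').2 (h _ ((zp_left hO A B).1 hA))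
  obtain ⟨B', hB'⟩ := hO.bij.2 (ro (G u) y)
  have h1 : ∀ A, A ^ n * ro x x = 0 → A ^ n * B' = 0 := by
    rw [hrel, ← hG, hB']
    intro A hA
    rw [mul_ro, ← ContinuousLinearMap.mul_apply, hA]
    simp
  have h2 : B' = ro x x * B' := by
    have := h1 (1 - ro x x) (by
      rw [one_sub_proj_pow hx hn, sub_mul, one_mul, proj_mul_self hx, sub_self])
    rw [one_sub_proj_pow hx hn, sub_mul, one_mul, sub_eq_zero] at this
    exact this
  have hB'0 : star B' x ≠ 0 := by
    intro h0
    rw [ro_mul, h0, ro_zero_right] at h2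
    rw [h2, hO.zero] at hB'
    have := hB'.symm
    rw [ro_eq_zero] at this
    exact this.elim hu (ne_zero_of_unit hy)
  have h3 : ∀ A, A ^ n * B' = 0 → A ^ n * ro x x = 0 := by
    intro A hA
    rw [h2, ro_mul, mul_ro, ro_eq_zero] at hA
    rw [mul_ro, hA.resolve_right hB'0, ro_zero_left]
  rw [hrel, ← hG, hB'] at h3
  have h4 : G = ro y y * G := by
    have := h3 (1 - ro y y) (by
      rw [one_sub_proj_pow hy hn, mul_ro, hyu, map_smul]
      simp [ro_self_apply hy])
    rw [one_sub_proj_pow hy hn, sub_mul, one_mul, sub_eq_zero] at this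
    exact this
  have h5 : ∀ c : ℂ, Φ (c • ro x x) = ro y y * Φ (c • ro x x) := by
    intro c
    have h6 : ∀ A, A ^ n * ro x x = 0 → A ^ n * (c • ro x x) = 0 := by
      intro A hA
      rw [mul_smul_comm, hA, smul_zero]
    rw [hrel, ← hG] at h6
    have := h6 (1 - ro y y) (by
      rw [one_sub_proj_pow hy hn, sub_mul, one_mul, ← h4, sub_self])
    rw [one_sub_proj_pow hy hn, sub_mul, one_mul, sub_eq_zero] at this
    exact this
  -- fixed operators of this form
  have hfix : ∀ v : H, L (ro y v) = ro y v → ∃ c : ℂ, ro y v = c • ro y y := by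
    intro v hv
    by_cases hv0 : v = 0
    · exact ⟨0, by rw [hv0]; simp⟩
    · rw [hL.rk1 rfl _ _ hv0] at hv
      have h7 := congrArg (fun T : H →L[ℂ] H => T v) hv
      simp only [_root_.smul_apply, _root_.add_apply, ro_apply] at h7
      have hvv : inner ℂ v v ≠ 0 := inner_self_ne_zero.2 hv0
      have h8 : (inner ℂ v y / (‖v‖ : ℂ) ^ 2) • v = y := by
        have h9 : inner ℂ v v • y + (inner ℂ v y / (‖v‖ : ℂ) ^ 2) • inner ℂ v v • v
            = (2 : ℂ) • inner ℂ v v • y := by
          conv_rhs => rw [← h7]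
          rw [smul_smul (2 : ℂ) (2 : ℂ)⁻¹, mul_inv_cancel₀ (two_ne_zero : (2 : ℂ) ≠ 0), one_smul]
        rw [two_smul] at h9
        have h10 := add_left_cancel h9
        rw [smul_comm] at h10
        exact smul_right_injective H hvv h10
      set t := inner ℂ v y / (‖v‖ : ℂ) ^ 2 with ht
      have ht0 : t ≠ 0 := by
        intro h0
        rw [h0, zero_smul] at h8
        exact ne_zero_of_unit hy h8.symm
      refine ⟨conj t⁻¹, ?_⟩
      rw [← ro_smul_right]
      congr 1
      rw [eq_inv_smul_iff₀ ht0, h8]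
  -- G is a multiple of p_y
  have hrec : L (G ^ n * G) = G := by
    have h6 := hO.eq4 (ro x x) (ro x x)
    rw [pow_zero, mul_one, pow_zero, mul_one, ← hG, proj_pow hx hn, proj_mul_self hx,
      hL.sel (ro_self_sa x), ← hG] at h6
    exact h6
  set b := star G y with hb
  have hGb : G = ro y b := by rw [h4, ro_mul]
  set τ := inner ℂ b y with hτ
  have hpw : ∀ j : ℕ, ∀ T : H →L[ℂ] H, G ^ j * (ro y y * T) = τ ^ j • (ro y y * T) := by
    intro j T
    induction j with
    | zero => simp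
    | succ j ih =>
      have e : G * (ro y y * T) = τ • (ro y y * T) := by
        rw [hGb, ← mul_assoc, ro_mul_ro, ← hτ, smul_mul_assoc]
      rw [pow_succ, mul_assoc, e, mul_smul_comm, ih, smul_smul, pow_succ]
      congr 1
      ring
  have hrec2 : τ ^ n • L G = G := by
    rw [h4] at hrec
    nth_rw 1 [← h4] at hrec
    rw [hpw, hL.hom, ← h4] at hrec
    exact hrec
  have hτn : τ ^ n = 1 := by
    have hb0 : b ≠ 0 := by
      intro h0
      rw [h0, ro_zero_right] at hGb
      exact hG0 hGb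
    rw [hGb, hL.rk1 rfl _ _ hb0] at hrec2
    have h7 := congrArg (fun T : H →L[ℂ] H => inner ℂ b (T b)) hrec2
    simp only [_root_.smul_apply, _root_.add_apply, ro_apply, inner_smul_right,
      inner_add_right] at h7
    have hbb : inner ℂ b b ≠ 0 := inner_self_ne_zero.2 hb0
    have hbn : (‖b‖ : ℂ) ^ 2 = inner ℂ b b := (inner_self_eq_norm_sq_to_K b).symm
    rw [hbn, ← hτ, div_mul_eq_mul_div] at h7
    have h8 : τ ≠ 0 := by
      intro h0
      rw [h0, zero_pow (by omega), zero_smul] at hrec2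
      rw [← hGb] at hrec2
      exact hG0 hrec2.symm
    have h9 : τ ^ n * (τ * inner ℂ b b) = τ * inner ℂ b b := by
      field_simp at h7
      linear_combination (τ * inner ℂ b b / 2) * h7
    have h10 : (τ ^ n - 1) * (τ * inner ℂ b b) = 0 := by rw [sub_mul, h9]; ring
    exact sub_eq_zero.1 ((mul_eq_zero.1 h10).resolve_right (mul_ne_zero h8 hbb))
  refine ⟨y, hy, fun c => ?_⟩
  have h6 := hO.eq4 (ro x x) (c • ro x x)
  rw [pow_zero, mul_one, pow_zero, mul_one, ← hG, proj_pow hx hn, mul_smul_comm,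
    proj_mul_self hx, hL.smul_ro, h5 c, hpw, hτn, one_smul, ro_mul] at h6
  obtain ⟨c', hc'⟩ := hfix _ h6
  refine ⟨c', ?_⟩
  rw [h5 c, ro_mul, hc']

theorem oa4_proof : T_OA4 := by
  intro H _ _ _ k L Φ hO x hx
  have hk : 1 ≤ k := by have := hO.pos; omega
  have hL := hO.lm
  set G := Φ (ro x x) with hG
  have hG0 : G ≠ 0 := fun h => ro_unit_ne_zero hx (hO.inj h)
  obtain ⟨u, hu⟩ : ∃ u, star G u ≠ 0 := by
    by_contra hcon
    push Not at hcon
    apply hG0
    rw [← star_eq_zero]
    ext z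
    simp [hcon z]
  obtain ⟨y, hy, hyu⟩ := exists_unit hu
  have hrel : ∀ B B' : H →L[ℂ] H, (∀ A, B * A ^ k = 0 → B' * A ^ k = 0) ↔
      (∀ A, Φ B * A ^ k = 0 → Φ B' * A ^ k = 0) := by
    intro B B'
    constructor
    · intro h A hA
      obtain ⟨A, rfl⟩ := hO.bij.2 A
      exact (zp_right hO A B').1 (h A ((zp_right hO A B).2 hA))
    · intro h A hA
      exact (zp_right hO A B').2 (h _ ((zp_right hO A B).1 hA))
  obtain ⟨B', hB'⟩ := hO.bij.2 (ro y (star G u))
  have h1 : ∀ A, ro x x * A ^ k = 0 → B' * A ^ k = 0 := by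
    rw [hrel, ← hG, hB']
    intro A hA
    have : star (A ^ k) (star G u) = 0 := by
      have h := congrArg star hA
      rw [star_mul, star_zero] at h
      have h' := congrArg (fun T : H →L[ℂ] H => T u) h
      simpa using h'
    rw [ro_mul, this, ro_zero_right]
  have h2 : B' = B' * ro x x := by
    have := h1 (1 - ro x x) (by
      rw [one_sub_proj_pow hx hk, mul_sub, mul_one, proj_mul_self hx, sub_self])
    rw [one_sub_proj_pow hx hk, mul_sub, mul_one, sub_eq_zero] at this
    exact this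
  have hB'0 : B' x ≠ 0 := by
    intro h0
    rw [mul_ro, h0, ro_zero_left] at h2
    rw [h2, hO.zero] at hB'
    have := hB'.symm
    rw [ro_eq_zero] at this
    exact this.elim (ne_zero_of_unit hy) hu
  have h3 : ∀ A, B' * A ^ k = 0 → ro x x * A ^ k = 0 := by
    intro A hA
    rw [h2, mul_ro, ro_mul, ro_eq_zero] at hA
    rw [ro_mul, hA.resolve_left hB'0, ro_zero_right]
  rw [hrel, ← hG, hB'] at h3
  have h4 : G = G * ro y y := by
    have := h3 (1 - ro y y) (by
      have e : star (1 - ro y y) = 1 - ro y y := by rw [star_sub, star_one, star_ro]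
      rw [one_sub_proj_pow hy hk, ro_mul, e, hyu, map_smul]
      simp [ro_self_apply hy])
    rw [one_sub_proj_pow hy hk, mul_sub, mul_one, sub_eq_zero] at this
    exact this
  have h5 : ∀ c : ℂ, Φ (c • ro x x) = Φ (c • ro x x) * ro y y := by
    intro c
    have h6 : ∀ A, ro x x * A ^ k = 0 → (c • ro x x) * A ^ k = 0 := by
      intro A hA
      rw [smul_mul_assoc, hA, smul_zero]
    rw [hrel, ← hG] at h6
    have := h6 (1 - ro y y) (by
      rw [one_sub_proj_pow hy hk, mul_sub, mul_one, ← h4, sub_self])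
    rw [one_sub_proj_pow hy hk, mul_sub, mul_one, sub_eq_zero] at this
    exact this
  have hfix : ∀ v : H, L (ro v y) = ro v y → ∃ c : ℂ, ro v y = c • ro y y := by
    intro v hv
    rw [hL.rk1u _ _ hy] at hv
    have h7 := congrArg (fun T : H →L[ℂ] H => T y) hv
    simp only [_root_.smul_apply, _root_.add_apply, ro_apply, inner_self_one hy, one_smul] at h7
    refine ⟨inner ℂ y v, ?_⟩
    rw [← ro_smul_left]
    congr 1
    have h8 : v + inner ℂ y v • y = (2 : ℂ) • v := by
      conv_rhs => rw [← h7]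
      rw [smul_smul, mul_inv_cancel₀ two_ne_zero, one_smul]
    rw [two_smul] at h8
    exact (add_left_cancel h8).symm
  have hrec : L (G * G ^ k) = G := by
    have h6 := hO.eq4 (ro x x) (ro x x)
    rw [pow_zero, one_mul, pow_zero, one_mul, ← hG, proj_pow hx hk, proj_mul_self hx,
      hL.sel (ro_self_sa x), ← hG] at h6
    exact h6
  set b := G y with hb
  have hGb : G = ro b y := by rw [h4, mul_ro]
  set τ := inner ℂ y b with hτ
  have hpw : ∀ j : ℕ, ∀ T : H →L[ℂ] H, (T * ro y y) * G ^ j = τ ^ j • (T * ro y y) := by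
    intro j T
    induction j with
    | zero => simp
    | succ j ih =>
      have e : (T * ro y y) * G = τ • (T * ro y y) := by
        rw [hGb, mul_assoc, ro_mul_ro, ← hτ, mul_smul_comm]
      rw [pow_succ', ← mul_assoc, e, smul_mul_assoc, ih, smul_smul, pow_succ]
      congr 1
      ring
  have hrec2 : τ ^ k • L G = G := by
    rw [h4] at hrec
    nth_rw 2 [← h4] at hrec
    rw [hpw, hL.hom, ← h4] at hrec
    exact hrec
  have hτn : τ ^ k = 1 := by
    rw [hGb, hL.rk1u _ _ hy] at hrec2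
    have h7 := congrArg (fun T : H →L[ℂ] H => inner ℂ y (T y)) hrec2
    simp only [_root_.smul_apply, _root_.add_apply, ro_apply, inner_smul_right,
      inner_add_right, inner_self_one hy, one_smul, mul_one] at h7
    rw [← hτ] at h7
    have h8 : τ ≠ 0 := by
      intro h0
      rw [h0, zero_pow (by omega), zero_smul] at hrec2
      rw [← hGb] at hrec2
      exact hG0 hrec2.symm
    have h10 : (τ ^ k - 1) * τ = 0 := by linear_combination h7
    exact sub_eq_zero.1 ((mul_eq_zero.1 h10).resolve_right h8)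
  refine ⟨y, hy, fun c => ?_⟩
  have h6 := hO.eq4 (ro x x) (c • ro x x)
  rw [pow_zero, one_mul, pow_zero, one_mul, ← hG, proj_pow hx hk, smul_mul_assoc,
    proj_mul_self hx, hL.smul_ro, h5 c, hpw, hτn, one_smul, mul_ro] at h6
  obtain ⟨c', hc'⟩ := hfix _ h6
  refine ⟨c', ?_⟩
  rw [h5 c, mul_ro, hc']

end Pool.Agent.H48.MT
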