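import Pool.Agent.H48.MT.M4
import Pool.Agent.H48.MT.Targets

/-!
# MP_c80a4f_an: modules OG AFF OI OJ
-/

set_option linter.unusedSectionVars false

open InnerProductSpace Filter Topology
open scoped ComplexConjugate

namespace Pool.Agent.H48.MT

variable {H : Type} [NormedAddCommGroup H] [InnerProductSpace ℂ H] [CompleteSpace H]

lemma N5.one {n k : ℕ} {L Φ : (H →L[ℂ] H) → H →L[ℂ] H} {m : Bool}
    {f : H → ℂ → ℂ} (h : N5 n k L Φ m f) {x : H} (hx : ‖x‖ = 1) : f x 1 = 1 := by
  have := h.pst x hx 1 zero_le_one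
  simpa using this

lemma N5.zerof {n k : ℕ} {L Φ : (H →L[ℂ] H) → H →L[ℂ] H} {m : Bool}
    {f : H → ℂ → ℂ} (h : N5 n k L Φ m f) {x : H} (hx : ‖x‖ = 1) : f x 0 = 0 := by
  have := h.pst x hx 0 le_rfl
  simpa using this

lemma N5.val1 {n k : ℕ} {L Φ : (H →L[ℂ] H) → H →L[ℂ] H} {m : Bool}
    {f : H → ℂ → ℂ} (h : N5 n k L Φ m f) {x : H} (hx : ‖x‖ = 1) : Φ (ro x x) = ro x x := by
  have := h.val x hx 1
  rwa [one_smul, h.one hx, one_smul] at this

lemma N5.pw {n k : ℕ} {L Φ : (H →L[ℂ] H) → H →L[ℂ] H} {m : Bool}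
    {f : H → ℂ → ℂ} (h : N5 n k L Φ m f) {x : H} (hx : ‖x‖ = 1) (a : ℂ) (j : ℕ) :
    f x (a ^ j) = f x a ^ j := by
  induction j with
  | zero => rw [pow_zero, pow_zero, h.one hx]
  | succ j ih => rw [pow_succ, h.mul x hx, ih, pow_succ]

lemma N5.ne {n k : ℕ} {L Φ : (H →L[ℂ] H) → H →L[ℂ] H} {m : Bool}
    {f : H → ℂ → ℂ} (h : N5 n k L Φ m f) {x : H} (hx : ‖x‖ = 1) {a : ℂ} (ha : a ≠ 0) :
    f x a ≠ 0 := fun h0 => ha ((h.bjf x hx).1 (h0.trans (h.zerof hx).symm))

lemma L_left' {L : (H →L[ℂ] H) → H →L[ℂ] H} (hL : Lm L false) {x : H} (hx : ‖x‖ = 1)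
    (T : H →L[ℂ] H) : ∃ z : H, ‖z‖ = 1 ∧ L (ro x x * T) = inner ℂ x (T x) • ro z z := by
  have e : inner ℂ x (T x) = inner ℂ (star T x) x := by
    rw [ContinuousLinearMap.star_eq_adjoint, ContinuousLinearMap.adjoint_inner_left]
  rw [ro_mul, e]
  by_cases hb : star T x = 0
  · exact ⟨x, hx, by rw [hb, ro_zero_right, hL.zero, inner_zero_left, zero_smul]⟩
  · obtain ⟨z, hz, hbz⟩ := exists_unit hb
    refine ⟨z, hz, ?_⟩
    rw [hbz, ro_smul_right, hL.hom, hL.rk0u _ _ hz, smul_smul, inner_smul_left]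

theorem og_proof : T_OG := by
  intro H _ _ _ n k L Φ m f hN hc
  have hL := hN.lm
  obtain ⟨x0, _, hx0, _, _⟩ := hN.two
  -- common function
  have hcom : ∀ x y, ‖x‖ = 1 → ‖y‖ = 1 → f x = f y := by
    apply const_of_nonorth
    intro x y hx hy hxy
    set s := ‖inner ℂ x y‖ ^ 2 with hs
    have hs0 : 0 < s := by
      rw [hs]
      have := norm_pos_iff.2 hxy
      positivity
    have hsc : (s : ℂ) ≠ 0 := by
      rw [Ne, Complex.ofReal_eq_zero]
      exact hs0.ne'
    have hcase1 : (1 ≤ n ∧ 1 ≤ k) ∨ (n = 0 ∧ m = false) → f x = f y := by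
      intro hc'
      funext t
      have h1 := hN.eq4 ((1 : ℂ) • ro x x) (t • ro y y)
      rw [one_smul, hN.val1 hx, hN.val y hy] at h1
      have h2 := sandwich hL hN.pos hc' hx (y := y) 1 (f y t)
      have h3 := sandwich hL hN.pos hc' hx (y := y) 1 t
      rw [one_smul] at h2 h3
      rw [h2, h3, hN.val x hx, one_pow, one_mul, one_mul, hN.mul x hx, hN.pst x hx _ hs0.le] at h1
      exact (mul_right_cancel₀ hsc (smul_ro_inj hx h1)).symm
    rcases hc with hc | hc
    · exact hcase1 (Or.inl hc)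
    · rcases Nat.eq_zero_or_pos n with h0 | h0
      · exact hcase1 (Or.inr ⟨h0, hc⟩)
      · rcases Nat.eq_zero_or_pos k with h0' | h0'
        · subst h0' hc
          funext t
          obtain ⟨a, ha⟩ := IsAlgClosed.exists_pow_nat_eq t (n := n) h0
          have h1 := hN.eq4 (a • ro x x) (ro y y)
          have e : ∀ c : ℂ, L ((c • ro x x) ^ n * ro y y) = (c ^ n * (s : ℂ)) • ro y y := by
            intro c
            rw [smul_proj_pow hx _ h0, smul_mul_assoc, proj_mul, hL.hom, hL.hom, hL.rk0u _ _ hy,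
              smul_smul, smul_smul, mul_assoc, mul_conj_norm]
          rw [pow_zero, mul_one, pow_zero, mul_one, hN.val x hx, hN.val1 hy, e, e,
            hN.val y hy, hN.mul y hy, hN.pst y hy _ hs0.le, ha, ← hN.pw hx, ha] at h1
          exact mul_right_cancel₀ hsc (smul_ro_inj hy h1)
        · exact hcase1 (Or.inl ⟨h0, h0'⟩)
  refine ⟨f x0, hN.mul x0 hx0, hN.pst x0 hx0, hN.bjf x0 hx0, fun B x hx => ?_⟩
  rw [hcom x0 x hx0 hx]
  have hcase1 : (1 ≤ n ∧ 1 ≤ k) ∨ (n = 0 ∧ m = false) →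
      inner ℂ x (Φ B x) = f x (inner ℂ x (B x)) := by
    intro hc'
    have e : ∀ X : H →L[ℂ] H, L (ro x x ^ n * X * ro x x ^ k) = inner ℂ x (X x) • ro x x := by
      intro X
      rcases hc' with ⟨hn, hk⟩ | ⟨hn, hm⟩
      · rw [proj_pow hx hn, proj_pow hx hk, proj_corner, hL.smul_ro]
      · subst hn hm
        rw [pow_zero, one_mul, proj_pow hx (by have := hN.pos; omega), mul_ro, hL.rk0u _ _ hx]
    have h1 := hN.eq4 (ro x x) B
    rw [hN.val1 hx, e, e, hN.val x hx] at h1
    exact smul_ro_inj hx h1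
  rcases hc with hc | hc
  · exact hcase1 (Or.inl hc)
  · rcases Nat.eq_zero_or_pos n with h0 | h0
    · exact hcase1 (Or.inr ⟨h0, hc⟩)
    · rcases Nat.eq_zero_or_pos k with h0' | h0'
      · subst h0' hc
        have h1 := hN.eq4 (ro x x) B
        rw [pow_zero, mul_one, pow_zero, mul_one, hN.val1 hx, proj_pow hx h0] at h1
        obtain ⟨z, hz, hz1⟩ := L_left' hL hx (Φ B)
        obtain ⟨w, hw, hw1⟩ := L_left' hL hx B
        rw [hz1, hw1, hN.val w hw, hcom w x hw hx] at h1
        by_cases h2 : inner ℂ x (Φ B x) = 0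
        · rw [h2, zero_smul] at h1
          rw [h2]
          exact ((smul_eq_zero.1 h1.symm).resolve_right (ro_unit_ne_zero hw)).symm
        · exact (smul_ro_eq hz hw h2 h1).2
      · exact hcase1 (Or.inl ⟨h0, h0'⟩)

theorem aff_proof : T_AFF := by
  intro H _ _ _ h2 g hmul hpos hbij hB
  obtain ⟨x, y, hx, hy, hxy⟩ := h2
  have hyx : inner ℂ y x = 0 := by rw [← inner_conj_symm, hxy, map_zero]
  set c : ℂ := ((Real.sqrt (1 / 2) : ℝ) : ℂ) with hc
  have hcc : conj c * c = 1 / 2 := by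
    rw [hc, Complex.conj_ofReal, ← Complex.ofReal_mul, Real.mul_self_sqrt (by norm_num)]
    simp
  have hhalf : g (1 / 2) = 1 / 2 := by
    have := hpos (1 / 2) (by norm_num)
    simpa using this
  have hadd : ∀ a b, g (a + b) = g a + g b := by
    intro a b
    obtain ⟨B', hB'⟩ := hB (a • ro x x + b • ro y y)
    have hx1 := hB' x hx
    have hy1 := hB' y hy
    have e1 : (a • ro x x + b • ro y y) x = a • x := by
      simp [hyx, hx]
    have e2 : (a • ro x x + b • ro y y) y = b • y := by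
      simp [hxy, hy]
    rw [e1, inner_smul_right, inner_self_one hx, mul_one] at hx1
    rw [e2, inner_smul_right, inner_self_one hy, mul_one] at hy1
    have hcn : ‖c‖ ^ 2 = 1 / 2 := by
      rw [hc, Complex.norm_real, Real.norm_eq_abs, sq_abs, Real.sq_sqrt (by norm_num)]
    have hz : ∀ e : ℂ, ‖e‖ = 1 → ‖c • x + (e * c) • y‖ = 1 := by
      intro e he
      have h4 : ‖c • x + (e * c) • y‖ ^ 2 = 1 := by
        rw [@norm_add_sq ℂ, norm_smul, norm_smul, inner_smul_left, inner_smul_right, hxy, hx, hy,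
          mul_one, mul_one, norm_mul, he, one_mul, hcn]
        norm_num
      nlinarith [norm_nonneg (c • x + (e * c) • y)]
    have hval : ∀ e : ℂ, conj e * e = 1 → ‖e‖ = 1 → conj c * c * (g a + g b)
        + conj c * c * (e * inner ℂ x (B' y) + conj e * inner ℂ y (B' x))
        = g ((a + b) / 2) := by
      intro e he he'
      have h3 := hB' _ (hz e he')
      rw [map_add, map_add, map_smul, map_smul, map_smul, map_smul, e1, e2] at h3
      simp only [inner_add_left, inner_add_right, inner_smul_left, inner_smul_right, hxy, hyx,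
        inner_self_one hx, inner_self_one hy, hx1, hy1, map_mul, mul_one, mul_zero, add_zero,
        zero_add] at h3
      have e5 : c * (a * conj c) + e * c * (b * (conj e * conj c)) = (a + b) / 2 := by
        linear_combination (a + b) * hcc + conj c * c * b * he
      rw [e5] at h3
      rw [← h3]
      linear_combination (- (conj c * c * g b)) * he
    have h3 := hval 1 (by simp) (by simp)
    have h4 := hval (-1) (by simp) (by simp)
    simp only [map_neg, map_one] at h3 h4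
    have h5 : g ((a + b) / 2) = (g a + g b) / 2 := by
      rw [hcc] at h3 h4
      linear_combination -(h3 + h4) / 2
    have h6 : g ((a + b) / 2) = g (a + b) / 2 := by
      rw [show (a + b) / 2 = (1 / 2) * (a + b) by ring, hmul, hhalf]
      ring
    rw [h6] at h5
    linear_combination 2 * h5
  have h0 : g 0 = 0 := by simpa using hpos 0 le_rfl
  have h1 : g 1 = 1 := by simpa using hpos 1 zero_le_one
  have hneg : ∀ a, g (-a) = -g a := by
    intro a
    have := hadd a (-a)
    rw [add_neg_cancel, h0] at this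
    exact (neg_eq_of_add_eq_zero_right this.symm).symm
  have hreal : ∀ r : ℝ, g r = r := by
    intro r
    rcases le_total 0 r with h | h
    · exact hpos r h
    · have := hpos (-r) (by linarith)
      rw [Complex.ofReal_neg, hneg] at this
      exact neg_injective this
  have hI : g Complex.I * g Complex.I = -1 := by
    rw [← hmul, Complex.I_mul_I, hneg, h1]
  have hdec : ∀ a : ℂ, g a = a.re + a.im * g Complex.I := by
    intro a
    conv_lhs => rw [← Complex.re_add_im a]
    rw [hadd, hmul, hreal, hreal]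
  have hfac : (g Complex.I - Complex.I) * (g Complex.I + Complex.I) = 0 := by
    have := Complex.I_mul_I
    linear_combination hI - this
  rcases mul_eq_zero.1 hfac with h | h
  · left
    intro a
    rw [hdec, sub_eq_zero.1 h, Complex.re_add_im]
  · right
    intro a
    rw [hdec, eq_neg_of_add_eq_zero_left h]
    apply Complex.ext <;> simp

/-- common final step for the one sided mean transform -/
lemma scalar_step {a' be c1 g1 κ : ℂ} {x y : H} (hx : ‖x‖ = 1) (hy : ‖y‖ = 1)
    (hxy : inner ℂ x y = 0) (ha : a' ≠ 0) (hb : be ≠ 0) (h : a' • g1 • x + be • y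
      = κ • (a' • c1 • x + be • y)) : κ = 1 ∧ g1 = c1 := by
  have hyx : inner ℂ y x = 0 := by rw [← inner_conj_symm, hxy, map_zero]
  have h1 := congrArg (fun z => inner ℂ y z) h
  have h2 := congrArg (fun z => inner ℂ x z) h
  simp only [inner_add_right, inner_smul_right, hxy, hyx, inner_self_one hx, inner_self_one hy,
    mul_zero, zero_add, add_zero, mul_one] at h1 h2
  have h3 : κ = 1 := by
    have : be * (κ - 1) = 0 := by linear_combination -h1
    exact sub_eq_zero.1 ((mul_eq_zero.1 this).resolve_left hb)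
  refine ⟨h3, ?_⟩
  rw [h3, one_mul] at h2
  exact mul_left_cancel₀ ha h2

/-- a unit vector `a' x + be y` with a nonzero value of the form -/
lemma exists_comb {c1 : ℂ} {x y : H} (hx : ‖x‖ = 1) (hy : ‖y‖ = 1)
    (hxy : inner ℂ x y = 0) : ∃ a' be : ℝ, (a' : ℂ) ≠ 0 ∧ (be : ℂ) ≠ 0 ∧
      ‖(a' : ℂ) • x + (be : ℂ) • y‖ = 1 ∧ (a' : ℂ) ^ 2 * c1 + (be : ℂ) ^ 2 ≠ 0 := by
  have key : ∀ t : ℝ, 0 < t → t < 1 → (t : ℂ) * c1 + (1 - t : ℝ) ≠ 0 →
      ∃ a' be : ℝ, (a' : ℂ) ≠ 0 ∧ (be : ℂ) ≠ 0 ∧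
      ‖(a' : ℂ) • x + (be : ℂ) • y‖ = 1 ∧ (a' : ℂ) ^ 2 * c1 + (be : ℂ) ^ 2 ≠ 0 := by
    intro t h0 h1 h2
    refine ⟨Real.sqrt t, Real.sqrt (1 - t), ?_, ?_, ?_, ?_⟩
    · rw [Ne, Complex.ofReal_eq_zero]
      exact (Real.sqrt_pos.2 h0).ne'
    · rw [Ne, Complex.ofReal_eq_zero]
      exact (Real.sqrt_pos.2 (by linarith)).ne'
    · have h3 : ‖((Real.sqrt t : ℝ) : ℂ) • x + ((Real.sqrt (1 - t) : ℝ) : ℂ) • y‖ ^ 2 = 1 := by
        rw [@norm_add_sq ℂ, norm_smul, norm_smul, inner_smul_left, inner_smul_right, hxy, hx, hy,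
          Complex.norm_real, Complex.norm_real, Real.norm_eq_abs, Real.norm_eq_abs, mul_one,
          mul_one, sq_abs, sq_abs, Real.sq_sqrt h0.le, Real.sq_sqrt (by linarith)]
        simp
      nlinarith [norm_nonneg (((Real.sqrt t : ℝ) : ℂ) • x + ((Real.sqrt (1 - t) : ℝ) : ℂ) • y)]
    · rw [← Complex.ofReal_pow, ← Complex.ofReal_pow, Real.sq_sqrt h0.le,
        Real.sq_sqrt (by linarith)]
      exact h2
  by_cases h : ((1 / 2 : ℝ) : ℂ) * c1 + (1 - 1 / 2 : ℝ) = 0
  · apply key (1 / 3) (by norm_num) (by norm_num)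
    intro h'
    push_cast at h h'
    have h3 : c1 = -1 := by linear_combination 2 * h
    rw [h3] at h'
    norm_num at h'
  · exact key (1 / 2) (by norm_num) (by norm_num) h

theorem oj_proof (hden : T_DEN) : T_OJ := by
  intro H _ _ _ k L Φ f hN
  have hL := hN.lm
  have hk : 1 ≤ k := by have := hN.pos; omega
  -- values on multiples of L (p_x p_y)
  have hR1 : ∀ x y, ‖x‖ = 1 → ‖y‖ = 1 → ∀ c : ℂ, Φ (c • L (ro x x * ro y y))
      = f x c • L (ro x x * ro y y) := by
    intro x y hx hy c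
    have h1 := hN.eq4 (ro y y) (c • ro x x)
    rw [pow_zero, one_mul, pow_zero, one_mul, hN.val1 hy, hN.val x hx, proj_pow hy hk,
      smul_mul_assoc, smul_mul_assoc, hL.hom, hL.hom] at h1
    exact h1.symm
  have hR2 : ∀ x y, ‖x‖ = 1 → ‖y‖ = 1 → ∀ a : ℂ, Φ (a ^ k • L (ro x x * ro y y))
      = f y a ^ k • L (ro x x * ro y y) := by
    intro x y hx hy a
    have h1 := hN.eq4 (a • ro y y) (ro x x)
    rw [pow_zero, one_mul, pow_zero, one_mul, hN.val1 hx, hN.val y hy, smul_proj_pow hy _ hk,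
      smul_proj_pow hy _ hk, mul_smul_comm, mul_smul_comm, hL.hom, hL.hom] at h1
    exact h1.symm
  have hne : ∀ x y : H, ‖x‖ = 1 → ‖y‖ = 1 → inner ℂ x y ≠ 0 → L (ro x x * ro y y) ≠ 0 := by
    intro x y hx hy hxy h0
    rw [hL.ze1 rfl, proj_mul, smul_eq_zero, ro_eq_zero] at h0
    rcases h0 with h | h | h
    · exact hxy h
    · exact ne_zero_of_unit hx h
    · exact ne_zero_of_unit hy h
  have hcom : ∀ x y, ‖x‖ = 1 → ‖y‖ = 1 → f x = f y := by
    apply const_of_nonorth
    intro x y hx hy hxy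
    funext t
    obtain ⟨a, ha⟩ := IsAlgClosed.exists_pow_nat_eq t (n := k) (by omega)
    have h1 := hR1 x y hx hy t
    have h2 := hR2 x y hx hy a
    rw [ha, h1, ← hN.pw hy, ha] at h2
    have h3 : (f x t - f y t) • L (ro x x * ro y y) = 0 := by rw [sub_smul, h2, sub_self]
    exact sub_eq_zero.1 ((smul_eq_zero.1 h3).resolve_right (hne x y hx hy hxy))
  -- the main relation
  have hmain : ∀ (B : H →L[ℂ] H) (x : H), ‖x‖ = 1 → inner ℂ x (B x) ≠ 0 →
      Φ B x = (f x (inner ℂ x (B x)) / inner ℂ x (B x)) • B x := by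
    intro B x hx hτ
    set τ := inner ℂ x (B x) with hτd
    have hBx : B x ≠ 0 := by
      intro h0
      rw [hτd, h0, inner_zero_right] at hτ
      exact hτ rfl
    obtain ⟨u, hu, hBu⟩ := exists_unit hBx
    set ν : ℂ := (‖B x‖ : ℂ) with hν
    have hν0 : ν ≠ 0 := by
      rw [hν, Ne, Complex.ofReal_eq_zero, norm_eq_zero]
      exact hBx
    have hτ2 : τ = ν * inner ℂ x u := by rw [hτd, hBu, inner_smul_right]
    have hxu : inner ℂ x u ≠ 0 := by
      intro h0
      rw [h0, mul_zero] at hτ2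
      exact hτ hτ2
    have hux : inner ℂ u x ≠ 0 := by
      rw [← inner_conj_symm, Ne, map_eq_zero]
      exact hxu
    set s := ‖inner ℂ u x‖ ^ 2 with hs
    have hs0 : 0 < s := by
      have := norm_pos_iff.2 hux
      rw [hs]
      positivity
    have hsc : (s : ℂ) ≠ 0 := by
      rw [Ne, Complex.ofReal_eq_zero]
      exact hs0.ne'
    have hc : ν / inner ℂ u x = τ * ((s⁻¹ : ℝ) : ℂ) := by
      rw [hτ2, Complex.ofReal_inv, hs, ← mul_conj_norm]
      field_simp
    have e1 : B * ro x x = (ν / inner ℂ u x) • (ro u u * ro x x) := by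
      rw [mul_ro, proj_mul, smul_smul, div_mul_cancel₀ _ hux, ← ro_smul_left, ← hBu]
    have h1 := hN.eq4 (ro x x) B
    rw [pow_zero, one_mul, pow_zero, one_mul, hN.val1 hx, proj_pow hx hk, e1, hL.hom,
      hR1 u x hu hx] at h1
    have h2 : f u (ν / inner ℂ u x) = f x τ / τ * (ν / inner ℂ u x) := by
      rw [hcom u x hu hx, hc, hN.mul x hx, hN.pst x hx _ (by positivity)]
      field_simp
    rw [h2, ← smul_smul, ← hL.hom, ← e1, mul_ro, mul_ro, hL.rk1u _ _ hx, hL.rk1u _ _ hx] at h1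
    have h3 := congrArg (fun T : H →L[ℂ] H => T x) h1
    simp only [_root_.smul_apply, _root_.add_apply, ro_apply, inner_self_one hx, one_smul] at h3
    rw [← hτd, smul_comm (f x τ / τ) (2 : ℂ)⁻¹] at h3
    have h4 := smul_right_injective H (by norm_num : ((2 : ℂ)⁻¹) ≠ 0) h3
    have h5 := congrArg (fun z => inner ℂ x z) h4
    simp only [inner_add_right, inner_smul_right, inner_self_one hx, mul_one, ← hτd] at h5
    have h6 : inner ℂ x (Φ B x) = f x τ / τ * τ := by linear_combination h5 / 2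
    rw [h6, smul_add, smul_smul] at h4
    exact add_right_cancel h4
  -- f x = id
  have hid : ∀ x, ‖x‖ = 1 → ∀ c, f x c = c := by
    intro x hx c1
    by_cases hc1 : c1 = 0
    · rw [hc1, hN.zerof hx]
    obtain ⟨y, hy, hxy⟩ := exists_orth hN.two x hx
    have hyx : inner ℂ y x = 0 := by rw [← inner_conj_symm, hxy, map_zero]
    set B := c1 • ro x x + ro y y with hB
    have e1 : B x = c1 • x := by simp [hB, hx, hyx]
    have e2 : B y = y := by simp [hB, hy, hxy]
    have t1 : inner ℂ x (B x) = c1 := by rw [e1, inner_smul_right, inner_self_one hx, mul_one]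
    have t2 : inner ℂ y (B y) = 1 := by rw [e2, inner_self_one hy]
    have h1 := hmain B x hx (by rw [t1]; exact hc1)
    have h2 := hmain B y hy (by rw [t2]; exact one_ne_zero)
    rw [t1, e1, smul_smul, div_mul_cancel₀ _ hc1] at h1
    rw [t2, e2, hN.one hy, div_one, one_smul] at h2
    obtain ⟨a', be, ha, hb, hz, hne'⟩ := exists_comb (c1 := c1) hx hy hxy
    have t3 : inner ℂ ((a' : ℂ) • x + (be : ℂ) • y) (B ((a' : ℂ) • x + (be : ℂ) • y))
        = (a' : ℂ) ^ 2 * c1 + (be : ℂ) ^ 2 := by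
      rw [map_add, map_smul, map_smul, e1, e2]
      simp only [inner_add_left, inner_add_right, inner_smul_left, inner_smul_right, hxy, hyx,
        inner_self_one hx, inner_self_one hy, Complex.conj_ofReal]
      ring
    have h3 := hmain B _ hz (by rw [t3]; exact hne')
    rw [map_add, map_smul, map_smul, h1, h2, map_add, map_smul, map_smul, e1, e2] at h3
    exact (scalar_step hx hy hxy ha hb h3).2
  intro B
  by_cases hB : B = 0
  · rw [hB, hN.zero]
  · apply hden H (Φ B) B hB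
    intro x hx hτ
    rw [hmain B x hx hτ, hid x hx, div_self hτ, one_smul]

theorem oi_proof (hden : T_DEN) : T_OI := by
  intro H _ _ _ n L Φ f hN
  have hL := hN.lm
  have hn : 1 ≤ n := by have := hN.pos; omega
  have hR1 : ∀ x y, ‖x‖ = 1 → ‖y‖ = 1 → ∀ c : ℂ, Φ (c • L (ro x x * ro y y))
      = f y c • L (ro x x * ro y y) := by
    intro x y hx hy c
    have h1 := hN.eq4 (ro x x) (c • ro y y)
    rw [pow_zero, mul_one, pow_zero, mul_one, hN.val1 hx, hN.val y hy, proj_pow hx hn,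
      mul_smul_comm, mul_smul_comm, hL.hom, hL.hom] at h1
    exact h1.symm
  -- the main relation
  have hmain : ∀ (B : H →L[ℂ] H) (x : H), ‖x‖ = 1 → inner ℂ x (B x) ≠ 0 → ∃ κ : ℂ,
      (∃ y, ‖y‖ = 1 ∧ κ = f y (inner ℂ x (B x)) / inner ℂ x (B x) ∧ ∃ ν : ℂ, star B x = ν • y) ∧
      star (Φ B) x = conj κ • star B x := by
    intro B x hx hτ
    set τ := inner ℂ x (B x) with hτd
    have hτb : τ = inner ℂ (star B x) x := by
      rw [hτd, ContinuousLinearMap.star_eq_adjoint, ContinuousLinearMap.adjoint_inner_left]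
    set b := star B x with hb
    have hb0 : b ≠ 0 := by
      intro h0
      rw [hτb, h0, inner_zero_left] at hτ
      exact hτ rfl
    obtain ⟨u, hu, hbu⟩ := exists_unit hb0
    set ν : ℝ := ‖b‖ with hν
    have hν0 : (ν : ℂ) ≠ 0 := by
      rw [hν, Ne, Complex.ofReal_eq_zero, norm_eq_zero]
      exact hb0
    have hτ2 : τ = ν * inner ℂ u x := by
      rw [hτb, hbu, inner_smul_left, Complex.conj_ofReal]
    have hux : inner ℂ u x ≠ 0 := by
      intro h0
      rw [h0, mul_zero] at hτ2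
      exact hτ hτ2
    have hxu : inner ℂ x u ≠ 0 := by
      rw [← inner_conj_symm, Ne, map_eq_zero]
      exact hux
    set s := ‖inner ℂ x u‖ ^ 2 with hs
    have hs0 : 0 < s := by
      have := norm_pos_iff.2 hxu
      rw [hs]
      positivity
    have hsc : (s : ℂ) ≠ 0 := by
      rw [Ne, Complex.ofReal_eq_zero]
      exact hs0.ne'
    have hc : (ν : ℂ) / inner ℂ x u = τ * ((s⁻¹ : ℝ) : ℂ) := by
      rw [hτ2, Complex.ofReal_inv, hs, ← mul_conj_norm]
      field_simp
    have e1 : ro x x * B = ((ν : ℂ) / inner ℂ x u) • (ro x x * ro u u) := by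
      rw [ro_mul, proj_mul, smul_smul, div_mul_cancel₀ _ hxu, ← hb]
      nth_rw 1 [hbu]
      rw [ro_smul_right, Complex.conj_ofReal]
    have h1 := hN.eq4 (ro x x) B
    rw [pow_zero, mul_one, pow_zero, mul_one, hN.val1 hx, proj_pow hx hn, e1, hL.hom,
      hR1 x u hx hu] at h1
    set κ := f u τ / τ with hκ
    have h2 : f u ((ν : ℂ) / inner ℂ x u) = κ * ((ν : ℂ) / inner ℂ x u) := by
      rw [hc, hN.mul u hu, hN.pst u hu _ (by positivity), hκ]
      field_simp
    have hκ0 : κ ≠ 0 := div_ne_zero (hN.ne hu hτ) hτ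
    rw [h2, ← smul_smul, ← hL.hom, ← e1, ro_mul, ro_mul, ← hb] at h1
    set b1 := star (Φ B) x with hb1
    -- L (ro x b1) = κ • L (ro x b)
    refine ⟨κ, ⟨u, hu, rfl, ν, hbu⟩, ?_⟩
    have hRb0 : L (ro x b) ≠ 0 := by
      intro h0
      rw [hL.ze1 rfl, ro_eq_zero] at h0
      exact h0.elim (ne_zero_of_unit hx) hb0
    have hb10 : b1 ≠ 0 := by
      intro h0
      rw [h0, ro_zero_right, hL.zero] at h1
      exact (smul_ne_zero hκ0 hRb0) h1.symm
    obtain ⟨a1, ha1⟩ : ∃ a1, L (ro x b1) = ro a1 b1 := by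
      refine ⟨(2 : ℂ)⁻¹ • (x + (inner ℂ b1 x / (‖b1‖ : ℂ) ^ 2) • b1), ?_⟩
      rw [hL.rk1 rfl _ _ hb10, ro_smul_left, ro_add_left, ro_smul_left]
    obtain ⟨a2, ha2⟩ : ∃ a2, L (ro x b) = ro a2 b := by
      refine ⟨(2 : ℂ)⁻¹ • (x + (inner ℂ b x / (‖b‖ : ℂ) ^ 2) • b), ?_⟩
      rw [hL.rk1 rfl _ _ hb0, ro_smul_left, ro_add_left, ro_smul_left]
    have h3 := h1
    rw [ha1, ha2] at h3
    have h4 := congrArg (fun T : H →L[ℂ] H => star T a1) h3
    simp only [star_ro, star_smul, _root_.smul_apply, ro_apply] at h4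
    have ha10 : a1 ≠ 0 := by
      intro h0
      rw [h0, ro_zero_left] at ha1
      rw [ha1] at h1
      exact (smul_ne_zero hκ0 hRb0) h1.symm
    have haa : inner ℂ a1 a1 ≠ 0 := inner_self_ne_zero.2 ha10
    have h5 : b1 = ((inner ℂ a1 a1)⁻¹ * (star κ * inner ℂ a2 a1)) • b := by
      rw [← smul_smul, ← smul_smul, ← h4, smul_smul, inv_mul_cancel₀ haa, one_smul]
    set β := (inner ℂ a1 a1)⁻¹ * (star κ * inner ℂ a2 a1) with hβ
    rw [h5, ro_smul_right, hL.hom] at h1
    have h6 : (conj β - κ) • L (ro x b) = 0 := by rw [sub_smul, h1, sub_self]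
    have h7 : conj β = κ := sub_eq_zero.1 ((smul_eq_zero.1 h6).resolve_right hRb0)
    rw [h5, ← h7, Complex.conj_conj]
  -- f x = id
  have hid : ∀ x, ‖x‖ = 1 → ∀ c, f x c = c := by
    intro x hx c1
    by_cases hc1 : c1 = 0
    · rw [hc1, hN.zerof hx]
    obtain ⟨y, hy, hxy⟩ := exists_orth hN.two x hx
    have hyx : inner ℂ y x = 0 := by rw [← inner_conj_symm, hxy, map_zero]
    set B := c1 • ro x x + ro y y with hB
    have hBs : star B = conj c1 • ro x x + ro y y := by
      rw [hB, star_add, star_smul, star_ro, star_ro]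
      rfl
    have e1 : B x = c1 • x := by simp [hB, hx, hyx]
    have e2 : B y = y := by simp [hB, hy, hxy]
    have s1 : star B x = conj c1 • x := by simp [hBs, hx, hyx]
    have s2 : star B y = y := by simp [hBs, hy, hxy]
    have t1 : inner ℂ x (B x) = c1 := by rw [e1, inner_smul_right, inner_self_one hx, mul_one]
    have t2 : inner ℂ y (B y) = 1 := by rw [e2, inner_self_one hy]
    obtain ⟨κ1, ⟨u1, hu1, hκ1, ν1, hν1⟩, h1⟩ := hmain B x hx (by rw [t1]; exact hc1)
    obtain ⟨κ2, ⟨u2, hu2, hκ2, ν2, hν2⟩, h2⟩ := hmain B y hy (by rw [t2]; exact one_ne_zero)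
    rw [t2, hN.one hu2, div_one] at hκ2
    rw [hκ2, map_one, one_smul, s2] at h2
    -- f u1 c1 = f x c1
    have hfu : f u1 c1 = f x c1 := by
      have hpar : ro x x = ro u1 u1 := by
        rw [s1] at hν1
        have hcx : conj c1 ≠ 0 := by
          rw [Ne, map_eq_zero]
          exact hc1
        have h5 : x = ((conj c1)⁻¹ * ν1) • u1 := by
          rw [← smul_smul, ← hν1, smul_smul, inv_mul_cancel₀ hcx, one_smul]
        have h6 : ‖(conj c1)⁻¹ * ν1‖ = 1 := by
          have := congrArg norm h5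
          rw [norm_smul, hx, hu1, mul_one] at this
          exact this.symm
        exact (ro_eq_of_smul h6 h5).symm
      have h5 := hN.val x hx c1
      rw [hpar, hN.val u1 hu1] at h5
      exact smul_ro_inj hu1 h5
    rw [t1, hfu] at hκ1
    rw [hκ1, s1, smul_smul, ← map_mul, div_mul_cancel₀ _ hc1] at h1
    obtain ⟨a', be, ha, hb, hz, hne'⟩ := exists_comb (c1 := c1) hx hy hxy
    have t3 : inner ℂ ((a' : ℂ) • x + (be : ℂ) • y) (B ((a' : ℂ) • x + (be : ℂ) • y))
        = (a' : ℂ) ^ 2 * c1 + (be : ℂ) ^ 2 := by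
      rw [map_add, map_smul, map_smul, e1, e2]
      simp only [inner_add_left, inner_add_right, inner_smul_left, inner_smul_right, hxy, hyx,
        inner_self_one hx, inner_self_one hy, Complex.conj_ofReal]
      ring
    obtain ⟨κ3, -, h3⟩ := hmain B _ hz (by rw [t3]; exact hne')
    rw [map_add, map_smul, map_smul, h1, h2, map_add, map_smul, map_smul, s1, s2] at h3
    have h4 := (scalar_step hx hy hxy ha hb h3).2
    exact (starRingEnd ℂ).injective h4
  intro B
  by_cases hB : B = 0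
  · rw [hB, hN.zero]
  · have h1 : star (Φ B) = star B := by
      apply hden H (star (Φ B)) (star B) (by rw [Ne, star_eq_zero]; exact hB)
      intro x hx hτ
      have hτ' : inner ℂ x (B x) ≠ 0 := by
        intro h0
        apply hτ
        rw [ContinuousLinearMap.star_eq_adjoint, ContinuousLinearMap.adjoint_inner_right,
          ← inner_conj_symm, h0, map_zero]
      obtain ⟨κ, ⟨u, hu, hκ, -⟩, h⟩ := hmain B x hx hτ'
      rw [hid u hu, div_self hτ'] at hκ
      rw [h, hκ, map_one, one_smul]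
    exact star_injective h1

end Pool.Agent.H48.MT
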