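import Pool.Agent.H48.MT.Asm1
import Pool.Agent.H48.MT.M1
import Pool.Agent.H48.MT.M2
import Pool.Agent.H48.MT.M3
import Pool.Agent.H48.MT.M4
import Pool.Agent.H48.MT.M5
import Pool.Agent.H48.MT.M6
import Pool.Agent.H92.MT.WG1
import Pool.Agent.H92.MT.WIG
import Pool.Agent.H38.MT.MON

/-!
# MP_c80a4f_an: assembly, part 2: operation 4
-/

set_option linter.unusedSectionVars false

open InnerProductSpace Filter Topology
open scoped ComplexConjugate

namespace Pool.Agent.H48.MT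

theorem T_WIG_holds : T_WIG := Pool.Agent.H92.MT.wig Pool.Agent.H92.MT.wg1

variable {H : Type} [NormedAddCommGroup H] [InnerProductSpace ℂ H] [CompleteSpace H]

lemma cj_pow (W : UA H) (A : H →L[ℂ] H) (n : ℕ) : cj W (A ^ n) = cj W A ^ n := by
  induction n with
  | zero => simp
  | succ n ih => rw [pow_succ, pow_succ, cj_mul, ih]

/-- the product of operation 4 with scalars -/
lemma smul_op4 (c : ℂ) (A B : H →L[ℂ] H) (n k : ℕ) :
    (c • A) ^ n * (c • B) * (c • A) ^ k = c ^ (n + k + 1) • (A ^ n * B * A ^ k) := by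
  rw [smul_pow, smul_pow]
  simp only [smul_mul_assoc, mul_smul_comm, smul_smul]
  congr 1
  ring

lemma rayTo_of {n k : ℕ} {L Φ : (H →L[ℂ] H) → H →L[ℂ] H} {m : Bool} (h : O4 n k L Φ m) :
    RayTo Φ := by
  rcases Nat.eq_zero_or_pos n with hn | hn
  · cases m with
    | false => exact oa1_proof H n k L Φ false h (Or.inr ⟨hn, rfl⟩)
    | true =>
      subst hn
      exact oa4_proof H k L Φ h
  · rcases Nat.eq_zero_or_pos k with hk | hk
    · subst hk
      cases m with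
      | false => exact oa2_proof H n L Φ h
      | true => exact oa3_proof H n L Φ h
    · exact oa1_proof H n k L Φ m h (Or.inl ⟨hn, hk⟩)

/-- the factor is constant -/
lemma const_of {n k : ℕ} {L Φ : (H →L[ℂ] H) → H →L[ℂ] H} {m : Bool} {pr : H → H}
    {f : H → ℂ → ℂ} (h : O4 n k L Φ m) (hr : Ry Φ pr f) :
    ∀ x y, ‖x‖ = 1 → ‖y‖ = 1 → f x 1 = f y 1 := by
  have hb := ob_proof H n k L Φ m pr f h hr
  rcases Nat.eq_zero_or_pos n with hn | hn
  · cases m with
    | false => exact oc1_proof H n k L Φ false pr f h hr hb (Or.inr ⟨hn, rfl⟩)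
    | true => exact oc2_proof H n k L Φ true pr f h hr hb (Or.inr ⟨hn, rfl⟩)
  · rcases Nat.eq_zero_or_pos k with hk | hk
    · exact oc2_proof H n k L Φ m pr f h hr hb (Or.inl hk)
    · exact oc1_proof H n k L Φ m pr f h hr hb (Or.inl ⟨hn, hk⟩)

lemma bij_smul {c : ℂ} (hc : c ≠ 0) {Φ : (H →L[ℂ] H) → H →L[ℂ] H} (h : Function.Bijective Φ) :
    Function.Bijective fun T => c • Φ T := by
  obtain ⟨Ψ, h1, h2⟩ := Function.bijective_iff_has_inverse.1 h
  refine Function.bijective_iff_has_inverse.2 ⟨fun T => Ψ (c⁻¹ • T), fun T => ?_, fun T => ?_⟩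
  · show Ψ (c⁻¹ • c • Φ T) = T
    rw [smul_smul, inv_mul_cancel₀ hc, one_smul, h1]
  · show c • Φ (Ψ (c⁻¹ • T)) = T
    rw [h2, smul_smul, mul_inv_cancel₀ hc, one_smul]

lemma bij_mulc {c : ℂ} (hc : c ≠ 0) {f : ℂ → ℂ} (h : Function.Bijective f) :
    Function.Bijective fun t => c * f t := by
  obtain ⟨g, h1, h2⟩ := Function.bijective_iff_has_inverse.1 h
  refine Function.bijective_iff_has_inverse.2 ⟨fun t => g (c⁻¹ * t), fun t => ?_, fun t => ?_⟩
  · show g (c⁻¹ * (c * f t)) = t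
    rw [← mul_assoc, inv_mul_cancel₀ hc, one_mul, h1]
  · show c * f (g (c⁻¹ * t)) = t
    rw [h2, ← mul_assoc, mul_inv_cancel₀ hc, one_mul]

lemma bij_s (W : UA H) {f : ℂ → ℂ} (h : Function.Bijective f) :
    Function.Bijective fun t => W.s (f t) := by
  have h1 : Function.Bijective W.s :=
    Function.bijective_iff_has_inverse.2 ⟨W.s, fun t => W.s_s t, fun t => W.s_s t⟩
  exact h1.comp h

/-- normalization -/
lemma exists_n4 {n k : ℕ} {L Φ : (H →L[ℂ] H) → H →L[ℂ] H} {m : Bool} {pr : H → H}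
    {f : H → ℂ → ℂ} (h : O4 n k L Φ m) (hr : Ry Φ pr f) :
    ∃ α : ℂ, α ≠ 0 ∧ α ^ (n + k) = 1 ∧
      N4 n k L (fun T => α⁻¹ • Φ T) m pr (fun x c => α⁻¹ * f x c) := by
  have hb := ob_proof H n k L Φ m pr f h hr
  have hc := const_of h hr
  obtain ⟨x0, y0, hx0, hy0, hxy0⟩ := h.two
  have hp := h.pos
  have h1 : f x0 1 ^ (n + k) = 1 := (hb x0 hx0).1
  have h0 : f x0 1 ≠ 0 := by
    intro h0
    rw [h0, zero_pow (by omega)] at h1
    exact zero_ne_one h1
  refine ⟨f x0 1, h0, h1, ?_⟩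
  have h0' : (f x0 1)⁻¹ ≠ 0 := inv_ne_zero h0
  refine
    { lm := h.lm
      two := h.two
      pos := h.pos
      bij := bij_smul h0' h.bij
      eq4 := fun A B => ?_
      nrm := hr.nrm
      val := fun x hx c => ?_
      sur := hr.sur
      inj := hr.inj
      bjf := fun x hx => bij_mulc h0' (hr.bjf x hx)
      zer := fun x hx => ?_
      one := fun x hx => ?_
      mul := fun x hx a b => ?_ }
  · show L (((f x0 1)⁻¹ • Φ A) ^ n * ((f x0 1)⁻¹ • Φ B) * ((f x0 1)⁻¹ • Φ A) ^ k)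
      = (f x0 1)⁻¹ • Φ (L (A ^ n * B * A ^ k))
    rw [smul_op4, h.lm.hom, h.eq4, pow_succ, inv_pow, h1, inv_one, one_mul]
  · show (f x0 1)⁻¹ • Φ (c • ro x x) = ((f x0 1)⁻¹ * f x c) • ro (pr x) (pr x)
    rw [hr.val x hx, smul_smul]
  · show (f x0 1)⁻¹ * f x 0 = 0
    rw [hr.zer x hx, mul_zero]
  · show (f x0 1)⁻¹ * f x 1 = 1
    rw [hc x x0 hx hx0, inv_mul_cancel₀ h0]
  · show (f x0 1)⁻¹ * f x (a * b) = ((f x0 1)⁻¹ * f x a) * ((f x0 1)⁻¹ * f x b)
    have h2 := (hb x hx).2 a b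
    rw [hc x x0 hx hx0] at h2
    have h3 : f x (a * b) = (f x0 1)⁻¹ * (f x a * f x b) := by
      rw [← h2, ← mul_assoc, inv_mul_cancel₀ h0, one_mul]
    rw [h3]
    ring

/-- transition probabilities and real values -/
lemma n4_tp {n k : ℕ} {L Φ : (H →L[ℂ] H) → H →L[ℂ] H} {m : Bool} {pr : H → H}
    {f : H → ℂ → ℂ} (h : N4 n k L Φ m pr f) :
    (∀ x, ‖x‖ = 1 → ∀ t : ℝ, 0 ≤ t → f x t = t) ∧
    ∀ x y, ‖x‖ = 1 → ‖y‖ = 1 → ‖inner ℂ (pr x) (pr y)‖ = ‖inner ℂ x y‖ := by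
  have h1 : ∀ x y, ‖x‖ = 1 → ‖y‖ = 1 →
      f x (‖inner ℂ x y‖ ^ 2 : ℝ) = (‖inner ℂ (pr x) (pr y)‖ ^ 2 : ℝ) := by
    by_cases hc : (1 ≤ n ∧ 1 ≤ k) ∨ m = false
    · exact od1_proof H n k L Φ m pr f h hc
    · have hm : m = true := by
        cases m with
        | false => exact absurd (Or.inr rfl) hc
        | true => rfl
      subst hm
      refine od2_proof H n k L Φ pr f h ?_
      by_contra h3
      rw [not_or] at h3
      exact hc (Or.inl ⟨Nat.one_le_iff_ne_zero.2 h3.2, Nat.one_le_iff_ne_zero.2 h3.1⟩)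
  have h2 := oe_proof spn_proof Pool.Agent.H38.MT.mon H Φ pr f h.two h.toRy h.one h.mul h1
  refine ⟨h2, fun x y hx hy => ?_⟩
  have h3 := h1 x y hx hy
  rw [h2 x hx _ (by positivity)] at h3
  have h4 : ‖inner ℂ x y‖ ^ 2 = ‖inner ℂ (pr x) (pr y)‖ ^ 2 := by exact_mod_cast h3
  exact ((pow_left_inj₀ (norm_nonneg _) (norm_nonneg _) two_ne_zero).1 h4).symm

/-- composition with the Wigner map -/
lemma exists_n5 {n k : ℕ} {L Φ : (H →L[ℂ] H) → H →L[ℂ] H} {m : Bool} {pr : H → H}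
    {f : H → ℂ → ℂ} (h : N4 n k L Φ m pr f) :
    ∃ (W : UA H) (g : H → ℂ → ℂ), N5 n k L (fun T => cj W.symm (Φ T)) m g := by
  obtain ⟨ht, htp⟩ := n4_tp h
  obtain ⟨W, hW⟩ := T_WIG_holds H pr h.nrm htp h.sur
  refine ⟨W, fun x c => W.s (f x c), ?_⟩
  refine
    { lm := h.lm
      two := h.two
      pos := h.pos
      bij := (cj_bijective W.symm).comp h.bij
      eq4 := fun A B => ?_
      val := fun x hx c => ?_
      bjf := fun x hx => bij_s W (h.bjf x hx)
      mul := fun x hx a b => ?_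
      pst := fun x hx t h0 => ?_ }
  · show L (cj W.symm (Φ A) ^ n * cj W.symm (Φ B) * cj W.symm (Φ A) ^ k)
      = cj W.symm (Φ (L (A ^ n * B * A ^ k)))
    rw [← cj_pow, ← cj_pow, ← cj_mul, ← cj_mul, h.lm.cov, h.eq4]
  · show cj W.symm (Φ (c • ro x x)) = W.s (f x c) • ro x x
    rw [h.val x hx, hW x hx, cj_smul, ← cj_ro, cj_symm_cj]
    rfl
  · show W.s (f x (a * b)) = W.s (f x a) * W.s (f x b)
    rw [h.mul x hx, W.s_mul]
  · show W.s (f x (t : ℂ)) = t
    rw [ht x hx t h0, W.s_real]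

/-- operators are determined by their quadratic form on unit vectors -/
lemma eq_of_inner {S T : H →L[ℂ] H} (h : ∀ x : H, ‖x‖ = 1 → inner ℂ x (S x) = inner ℂ x (T x)) :
    S = T := by
  have h1 : ∀ x : H, inner ℂ ((S - T) x) x = 0 := by
    intro x
    rw [_root_.sub_apply, inner_sub_left, sub_eq_zero, ← inner_conj_symm (S x), 
      ← inner_conj_symm (T x)]
    congr 1
    by_cases hx : x = 0
    · rw [hx, map_zero, map_zero]
    · obtain ⟨y, hy, hxy⟩ := exists_unit hx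
      rw [hxy, map_smul, map_smul, inner_smul_left, inner_smul_left, inner_smul_right,
        inner_smul_right, h y hy]
  have h2 : ((S - T : H →L[ℂ] H) : H →ₗ[ℂ] H) = 0 :=
    (inner_map_self_eq_zero ((S - T : H →L[ℂ] H) : H →ₗ[ℂ] H)).1 h1
  have h3 : S - T = 0 := by
    ext x
    exact congrArg (fun F : H →ₗ[ℂ] H => F x) h2
  exact sub_eq_zero.1 h3

lemma n5_id {n k : ℕ} {L Φ : (H →L[ℂ] H) → H →L[ℂ] H} {m : Bool}
    {f : H → ℂ → ℂ} (h : N5 n k L Φ m f) : ∀ B, Φ B = B := by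
  by_cases hc : (1 ≤ n ∧ 1 ≤ k) ∨ m = false
  · obtain ⟨g, g1, g2, g3, g4⟩ := og_proof H n k L Φ m f h hc
    rcases aff_proof H h.two g g1 g2 g3 (fun B => ⟨Φ B, g4 B⟩) with hg | hg
    · intro B
      refine eq_of_inner fun x hx => ?_
      rw [g4 B x hx, hg]
    · exfalso
      have hst : ∀ B, Φ B = star B := by
        intro B
        refine eq_of_inner fun x hx => ?_
        rw [g4 B x hx, hg, inner_conj_symm, ContinuousLinearMap.star_eq_adjoint,
          ContinuousLinearMap.adjoint_inner_right]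
      obtain ⟨x, y, hx, hy, hne⟩ := nst_proof H L m h.lm h.two
      apply hne
      have h1 := h.eq4 1 (ro x y)
      rw [hst, hst, hst, star_one, one_pow, one_pow, mul_one, one_mul, one_mul, mul_one] at h1
      exact h1
  · have hm : m = true := by
      cases m with
      | false => exact absurd (Or.inr rfl) hc
      | true => rfl
    subst hm
    have hnk : k = 0 ∨ n = 0 := by
      by_contra h3
      rw [not_or] at h3
      exact hc (Or.inl ⟨Nat.one_le_iff_ne_zero.2 h3.2, Nat.one_le_iff_ne_zero.2 h3.1⟩)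
    rcases hnk with hk | hn
    · subst hk
      exact oi_proof den_proof H n L Φ f h
    · subst hn
      exact oj_proof den_proof H k L Φ f h

theorem op4_proof : T_OP4 := by
  intro H _ _ _ n k L Φ m h
  obtain ⟨Ψ, hi, hl, hr⟩ := h.inv
  obtain ⟨pr, f, hry⟩ := ray_proof H Φ Ψ hl hr h.zero (rayTo_of h) (rayTo_of hi)
  obtain ⟨α, hα, hαp, h4⟩ := exists_n4 h hry
  obtain ⟨W, g, h5⟩ := exists_n5 h4
  have h6 := n5_id h5
  refine ⟨α, W, hαp, fun T => ?_⟩
  have h7 : cj W.symm (α⁻¹ • Φ T) = T := h6 T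
  have h8 := congrArg (cj W) h7
  rw [cj_cj_symm] at h8
  rw [← h8, smul_smul, mul_inv_cancel₀ hα, one_smul]

end Pool.Agent.H48.MT
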