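import Pool.Agent.H48.MT.Targets2

/-!
# MP_c80a4f_an: module targets, part 3 (operations 2 and 3, the Jordan products)
-/

set_option linter.unusedSectionVars false

open InnerProductSpace Filter Topology
open scoped ComplexConjugate

namespace Pool.Agent.H48.MT

variable {H : Type} [NormedAddCommGroup H] [InnerProductSpace ℂ H] [CompleteSpace H]

/-! ## Structures -/

/-- standing assumptions for operation 2 -/
structure O2 (L Φ : (H →L[ℂ] H) → H →L[ℂ] H) (m : Bool) : Prop where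
  lm : Lm L m
  two : Two H
  bij : Function.Bijective Φ
  eq2 : Eq2 L Φ

/-- standing assumptions for operation 3 -/
structure O3 (L Φ : (H →L[ℂ] H) → H →L[ℂ] H) (m : Bool) : Prop where
  lm : Lm L m
  two : Two H
  bij : Function.Bijective Φ
  eq3 : Eq3 L Φ

lemma O2.zero {L Φ : (H →L[ℂ] H) → H →L[ℂ] H} {m : Bool} (h : O2 L Φ m) : Φ 0 = 0 := by
  obtain ⟨B, hB⟩ := h.bij.2 0
  have h1 := h.eq2 0 B
  rw [hB, zero_jp, jp_zero, h.lm.zero] at h1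
  exact h1.symm

lemma O3.zero {L Φ : (H →L[ℂ] H) → H →L[ℂ] H} {m : Bool} (h : O3 L Φ m) : Φ 0 = 0 := by
  obtain ⟨B, hB⟩ := h.bij.2 0
  have h1 := h.eq3 0 B
  rw [hB, zero_jp, star_zero, jp_zero, h.lm.zero] at h1
  exact h1.symm

lemma O2.inv {L Φ : (H →L[ℂ] H) → H →L[ℂ] H} {m : Bool} (h : O2 L Φ m) :
    ∃ Ψ : (H →L[ℂ] H) → H →L[ℂ] H, O2 L Ψ m ∧ (∀ T, Ψ (Φ T) = T) ∧ ∀ T, Φ (Ψ T) = T := by
  obtain ⟨Ψ, h1, h2⟩ := Function.bijective_iff_has_inverse.1 h.bij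
  refine ⟨Ψ, ⟨h.lm, h.two, Function.bijective_iff_has_inverse.2 ⟨Φ, h2, h1⟩, ?_⟩, h1, h2⟩
  intro A B
  apply h.bij.1
  rw [← h.eq2, h2, h2, h2]

lemma O3.inv {L Φ : (H →L[ℂ] H) → H →L[ℂ] H} {m : Bool} (h : O3 L Φ m) :
    ∃ Ψ : (H →L[ℂ] H) → H →L[ℂ] H, O3 L Ψ m ∧ (∀ T, Ψ (Φ T) = T) ∧ ∀ T, Φ (Ψ T) = T := by
  obtain ⟨Ψ, h1, h2⟩ := Function.bijective_iff_has_inverse.1 h.bij
  refine ⟨Ψ, ⟨h.lm, h.two, Function.bijective_iff_has_inverse.2 ⟨Φ, h2, h1⟩, ?_⟩, h1, h2⟩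
  intro A B
  apply h.bij.1
  rw [← h.eq3, h2, h2, h2]

/-- first stage for the Jordan products -/
structure J1 (L Φ : (H →L[ℂ] H) → H →L[ℂ] H) (m : Bool) : Prop where
  lm : Lm L m
  two : Two H
  bij : Function.Bijective Φ
  zero : Φ 0 = 0
  one : Φ 1 = 1
  com : ∀ A, Φ (L A) = L (Φ A)
  /-- symmetries are mapped to symmetries -/
  sy : ∀ S, IsSy S ↔ IsSy (Φ S)
  /-- products with symmetries -/
  js : ∀ A S, IsSy S → L (jp (Φ A) (Φ S)) = Φ (L (jp A S))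

/-- the order automorphism of the projections -/
structure Jr (L Φ : (H →L[ℂ] H) → H →L[ℂ] H) (r : (H →L[ℂ] H) → H →L[ℂ] H) : Prop where
  prj : ∀ E, IsStarProjection E → IsStarProjection (r E) ∧ Φ ((2 : ℂ) • E - 1) = (2 : ℂ) • r E - 1
  srj : ∀ G, IsStarProjection G → ∃ E, IsStarProjection E ∧ r E = G
  ord : ∀ E G, IsStarProjection E → IsStarProjection G → (G * E = E ↔ r G * r E = r E)
  cmp : ∀ E, IsStarProjection E → r (1 - E) = 1 - r E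
  cor : ∀ E, IsStarProjection E → ∀ X, L X = X → (E * X * E = X ↔ r E * Φ X * r E = Φ X)

/-- second stage for the Jordan products: rays -/
structure J2 (L Φ : (H →L[ℂ] H) → H →L[ℂ] H) (m : Bool) (r : (H →L[ℂ] H) → H →L[ℂ] H)
    (pr : H → H) (f : ℂ → ℂ) : Prop where
  j1 : J1 L Φ m
  jr : Jr L Φ r
  ry : Ry Φ pr (fun _ => f)
  rp : ∀ x, ‖x‖ = 1 → r (ro x x) = ro (pr x) (pr x)
  pm : ∀ (A : H →L[ℂ] H) (x : H) (s : ℂ), ‖x‖ = 1 →
    Φ (s • L (jp A (ro x x))) = f s • L (jp (Φ A) (ro (pr x) (pr x)))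
  f1 : f 1 = 1
  fm : ∀ a b, f (a * b) = f a * f b

/-- third stage for the Jordan products: the rays are fixed -/
structure JN (L Φ : (H →L[ℂ] H) → H →L[ℂ] H) (m : Bool) (f : ℂ → ℂ) : Prop where
  lm : Lm L m
  two : Two H
  bij : Function.Bijective Φ
  zero : Φ 0 = 0
  com : ∀ A, Φ (L A) = L (Φ A)
  fid : (∀ a, f a = a) ∨ ∀ a, f a = conj a
  val : ∀ x y : H, ‖x‖ = 1 → ‖y‖ = 1 → inner ℂ x y = 0 → ∀ a b : ℂ,
    Φ (a • ro x x + b • ro y y) = f a • ro x x + f b • ro y y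
  mul : ∀ A B, Φ B = B → Φ (star B) = star B → L (jp (Φ A) B) = Φ (L (jp A B))

/-- fourth stage for the Jordan products: rank one operators are fixed -/
structure JF (L Φ : (H →L[ℂ] H) → H →L[ℂ] H) (m : Bool) : Prop where
  lm : Lm L m
  two : Two H
  com : ∀ A, Φ (L A) = L (Φ A)
  mul : ∀ A B, Φ B = B → Φ (star B) = star B → L (jp (Φ A) B) = Φ (L (jp A B))
  r1 : ∀ x y : H, inner ℂ y x ≠ 0 → Φ (ro x y) = ro x y
  r2 : ∀ x y : H, Φ (L (ro x y)) = L (ro x y)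

/-! ## Targets: the value at the identity -/

/-- operation 2, mean transform -/
def T_P2M : Prop := ∀ (H : Type) [NormedAddCommGroup H] [InnerProductSpace ℂ H] [CompleteSpace H]
  (L Φ : (H →L[ℂ] H) → H →L[ℂ] H), O2 L Φ true → Φ 1 = 1

/-- operator theory for operation 2, first part -/
def T_FS1 : Prop := ∀ (H : Type) [NormedAddCommGroup H] [InnerProductSpace ℂ H] [CompleteSpace H]
  (F : H →L[ℂ] H), (∀ Z, jp F Z = 0 → Z = 0) → (∀ Y, jp F Y * jp F Y = 0 → Y ^ 4 = 0) →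
    (∀ x, F x = 0 → x = 0) ∧ ∀ x, ∃ a b c : ℂ, F x = a • x + b • F (F x) + c • F (F (F (F x)))

/-- operator theory for operation 2, second part -/
def T_FS2 : Prop := ∀ (H : Type) [NormedAddCommGroup H] [InnerProductSpace ℂ H] [CompleteSpace H]
  (F : H →L[ℂ] H), (∀ Z, jp F Z = 0 → Z = 0) → (∀ Y, jp F Y * jp F Y = 0 → Y ^ 4 = 0) →
    (∀ x, F x = 0 → x = 0) → (∀ x, ∃ a b c : ℂ, F x = a • x + b • F (F x) + c • F (F (F (F x)))) →
    (∀ x, ∃ a b c : ℂ, star F x = a • x + b • star F (star F x)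
      + c • star F (star F (star F (star F x)))) → ∃ s : ℂ, F = s • 1

/-- operation 2, not the mean transform -/
def T_P2F : Prop := ∀ (H : Type) [NormedAddCommGroup H] [InnerProductSpace ℂ H] [CompleteSpace H]
  (L Φ : (H →L[ℂ] H) → H →L[ℂ] H), O2 L Φ false → Φ 1 = 1

/-- operation 3 -/
def T_P3O : Prop := ∀ (H : Type) [NormedAddCommGroup H] [InnerProductSpace ℂ H] [CompleteSpace H]
  (L Φ : (H →L[ℂ] H) → H →L[ℂ] H) (m : Bool), O3 L Φ m → Φ 1 = 1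

/-- fixed operators with `X X* + X* X = 2` are unitary -/
def T_UN : Prop := ∀ (H : Type) [NormedAddCommGroup H] [InnerProductSpace ℂ H] [CompleteSpace H]
  (L : (H →L[ℂ] H) → H →L[ℂ] H) (m : Bool), Lm L m → ∀ X, L X = X → jp X (star X) = 1 →
    star X * X = 1 ∧ X * star X = 1

/-- operation 2: first stage -/
def T_J12 : Prop := ∀ (H : Type) [NormedAddCommGroup H] [InnerProductSpace ℂ H] [CompleteSpace H]
  (L Φ : (H →L[ℂ] H) → H →L[ℂ] H) (m : Bool), O2 L Φ m → Φ 1 = 1 → J1 L Φ m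

/-- operation 3: first stage -/
def T_J13 : Prop := ∀ (H : Type) [NormedAddCommGroup H] [InnerProductSpace ℂ H] [CompleteSpace H]
  (L Φ : (H →L[ℂ] H) → H →L[ℂ] H) (m : Bool), O3 L Φ m → Φ 1 = 1 → J1 L Φ m

/-! ## Targets: projections and rays -/

/-- the corner of a projection in terms of the product with the symmetry -/
def T_JB : Prop := ∀ (H : Type) [NormedAddCommGroup H] [InnerProductSpace ℂ H] [CompleteSpace H]
  (L : (H →L[ℂ] H) → H →L[ℂ] H) (m : Bool), Lm L m → ∀ E X, IsStarProjection E → L X = X →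
    (L (jp X ((2 : ℂ) • E - 1)) = X ↔ E * X * E = X)

/-- the order automorphism -/
def T_JS : Prop := ∀ (H : Type) [NormedAddCommGroup H] [InnerProductSpace ℂ H] [CompleteSpace H]
  (L Φ : (H →L[ℂ] H) → H →L[ℂ] H) (m : Bool), J1 L Φ m → ∃ r, Jr L Φ r

/-- the rays -/
def T_JRY : Prop := ∀ (H : Type) [NormedAddCommGroup H] [InnerProductSpace ℂ H] [CompleteSpace H]
  (L Φ : (H →L[ℂ] H) → H →L[ℂ] H) (m : Bool) (r : (H →L[ℂ] H) → H →L[ℂ] H), J1 L Φ m →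
    Jr L Φ r → ∃ (pr : H → H) (f : H → ℂ → ℂ), Ry Φ pr f ∧
      ∀ x, ‖x‖ = 1 → r (ro x x) = ro (pr x) (pr x)

/-- operation 2: products with rank one projections -/
def T_JM2 : Prop := ∀ (H : Type) [NormedAddCommGroup H] [InnerProductSpace ℂ H] [CompleteSpace H]
  (L Φ : (H →L[ℂ] H) → H →L[ℂ] H) (m : Bool) (pr : H → H) (f : H → ℂ → ℂ), O2 L Φ m →
    Φ 1 = 1 → Ry Φ pr f → ∀ x, ‖x‖ = 1 → f x 1 = 1 ∧ (∀ a b, f x (a * b) = f x a * f x b) ∧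
      ∀ (A : H →L[ℂ] H) (s : ℂ),
        Φ (s • L (jp A (ro x x))) = f x s • L (jp (Φ A) (ro (pr x) (pr x)))

/-- operation 3: products with rank one projections -/
def T_JM3 : Prop := ∀ (H : Type) [NormedAddCommGroup H] [InnerProductSpace ℂ H] [CompleteSpace H]
  (L Φ : (H →L[ℂ] H) → H →L[ℂ] H) (m : Bool) (pr : H → H) (f : H → ℂ → ℂ), O3 L Φ m →
    Φ 1 = 1 → Ry Φ pr f → ∀ x, ‖x‖ = 1 → f x 1 = 1 ∧ (∀ a b, f x (a * b) = f x a * f x b) ∧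
      ∀ (A : H →L[ℂ] H) (s : ℂ),
        Φ (s • L (jp A (ro x x))) = f x s • L (jp (Φ A) (ro (pr x) (pr x)))

/-- the function is the same for all rays -/
def T_JC : Prop := ∀ (H : Type) [NormedAddCommGroup H] [InnerProductSpace ℂ H] [CompleteSpace H]
  (L Φ : (H →L[ℂ] H) → H →L[ℂ] H) (m : Bool) (pr : H → H) (f : H → ℂ → ℂ), J1 L Φ m →
    Ry Φ pr f → (∀ x, ‖x‖ = 1 → f x 1 = 1 ∧ (∀ a b, f x (a * b) = f x a * f x b) ∧
      ∀ (A : H →L[ℂ] H) (s : ℂ),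
        Φ (s • L (jp A (ro x x))) = f x s • L (jp (Φ A) (ro (pr x) (pr x)))) →
    ∀ x y, ‖x‖ = 1 → ‖y‖ = 1 → f x = f y

/-- sums of two orthogonal rank one projections -/
def T_JT : Prop := ∀ (H : Type) [NormedAddCommGroup H] [InnerProductSpace ℂ H] [CompleteSpace H]
  (L Φ : (H →L[ℂ] H) → H →L[ℂ] H) (m : Bool) (r : (H →L[ℂ] H) → H →L[ℂ] H) (pr : H → H)
  (f : ℂ → ℂ), J2 L Φ m r pr f →
    (∀ x y, ‖x‖ = 1 → ‖y‖ = 1 → (inner ℂ (pr x) (pr y) = 0 ↔ inner ℂ x y = 0)) ∧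
    ∀ x y, ‖x‖ = 1 → ‖y‖ = 1 → inner ℂ x y = 0 → ∀ a b : ℂ, Φ (a • ro x x + b • ro y y)
      = f a • ro (pr x) (pr x) + f b • ro (pr y) (pr y)

/-- additivity of `f` -/
def T_JA : Prop := ∀ (H : Type) [NormedAddCommGroup H] [InnerProductSpace ℂ H] [CompleteSpace H]
  (L Φ : (H →L[ℂ] H) → H →L[ℂ] H) (m : Bool) (r : (H →L[ℂ] H) → H →L[ℂ] H) (pr : H → H)
  (f : ℂ → ℂ), J2 L Φ m r pr f →
    (∀ x y, ‖x‖ = 1 → ‖y‖ = 1 → (inner ℂ (pr x) (pr y) = 0 ↔ inner ℂ x y = 0)) →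
    (∀ x y, ‖x‖ = 1 → ‖y‖ = 1 → inner ℂ x y = 0 → ∀ a b : ℂ, Φ (a • ro x x + b • ro y y)
      = f a • ro (pr x) (pr x) + f b • ro (pr y) (pr y)) → ∀ a b, f (a + b) = f a + f b

/-- `f` is the identity or the conjugation -/
def T_JQ : Prop := ∀ (H : Type) [NormedAddCommGroup H] [InnerProductSpace ℂ H] [CompleteSpace H]
  (L Φ : (H →L[ℂ] H) → H →L[ℂ] H) (m : Bool) (r : (H →L[ℂ] H) → H →L[ℂ] H) (pr : H → H)
  (f : ℂ → ℂ), J2 L Φ m r pr f →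
    (∀ x y, ‖x‖ = 1 → ‖y‖ = 1 → (inner ℂ (pr x) (pr y) = 0 ↔ inner ℂ x y = 0)) →
    (∀ x y, ‖x‖ = 1 → ‖y‖ = 1 → inner ℂ x y = 0 → ∀ a b : ℂ, Φ (a • ro x x + b • ro y y)
      = f a • ro (pr x) (pr x) + f b • ro (pr y) (pr y)) → (∀ a b, f (a + b) = f a + f b) →
    (∀ a, f a = a) ∨ ∀ a, f a = conj a

/-- transition probabilities -/
def T_JW : Prop := ∀ (H : Type) [NormedAddCommGroup H] [InnerProductSpace ℂ H] [CompleteSpace H]
  (L Φ : (H →L[ℂ] H) → H →L[ℂ] H) (m : Bool) (r : (H →L[ℂ] H) → H →L[ℂ] H) (pr : H → H)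
  (f : ℂ → ℂ), J2 L Φ m r pr f →
    (∀ x y, ‖x‖ = 1 → ‖y‖ = 1 → (inner ℂ (pr x) (pr y) = 0 ↔ inner ℂ x y = 0)) →
    (∀ x y, ‖x‖ = 1 → ‖y‖ = 1 → inner ℂ x y = 0 → ∀ a b : ℂ, Φ (a • ro x x + b • ro y y)
      = f a • ro (pr x) (pr x) + f b • ro (pr y) (pr y)) →
    ((∀ a, f a = a) ∨ ∀ a, f a = conj a) →
    ∀ x y, ‖x‖ = 1 → ‖y‖ = 1 → ‖inner ℂ (pr x) (pr y)‖ = ‖inner ℂ x y‖

/-! ## Targets: the rays are fixed -/

/-- kernels, not the mean transform -/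
def T_KR0 : Prop := ∀ (H : Type) [NormedAddCommGroup H] [InnerProductSpace ℂ H] [CompleteSpace H]
  (L Φ : (H →L[ℂ] H) → H →L[ℂ] H) (f : ℂ → ℂ), JN L Φ false f → ∀ (B : H →L[ℂ] H) (y : H),
    (B y = 0 ∨ star B y = 0) ↔ (Φ B y = 0 ∨ star (Φ B) y = 0)

/-- kernels, mean transform -/
def T_KR1 : Prop := ∀ (H : Type) [NormedAddCommGroup H] [InnerProductSpace ℂ H] [CompleteSpace H]
  (L Φ : (H →L[ℂ] H) → H →L[ℂ] H) (f : ℂ → ℂ), JN L Φ true f → ∀ (B : H →L[ℂ] H) (y : H),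
    (B y = 0 ∧ star B y = 0) ↔ (Φ B y = 0 ∧ star (Φ B) y = 0)

/-- rank one operators which are not nilpotent, not the mean transform -/
def T_NRK : Prop := ∀ (H : Type) [NormedAddCommGroup H] [InnerProductSpace ℂ H] [CompleteSpace H]
  (L Φ : (H →L[ℂ] H) → H →L[ℂ] H) (f : ℂ → ℂ), JN L Φ false f →
  (∀ (B : H →L[ℂ] H) (y : H), (B y = 0 ∨ star B y = 0) ↔ (Φ B y = 0 ∨ star (Φ B) y = 0)) →
    ∀ x y : H, inner ℂ y x ≠ 0 → ∃ c : ℂ, Φ (ro x y) = c • ro x y ∧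
      c * inner ℂ y x = f (inner ℂ y x)

/-- operators of a plane, mean transform -/
def T_CO2 : Prop := ∀ (H : Type) [NormedAddCommGroup H] [InnerProductSpace ℂ H] [CompleteSpace H]
  (L Φ : (H →L[ℂ] H) → H →L[ℂ] H) (f : ℂ → ℂ), JN L Φ true f →
  (∀ (B : H →L[ℂ] H) (y : H), (B y = 0 ∧ star B y = 0) ↔ (Φ B y = 0 ∧ star (Φ B) y = 0)) →
    ∀ (x y : H) (B : H →L[ℂ] H), ‖x‖ = 1 → ‖y‖ = 1 → inner ℂ x y = 0 →
    (ro x x + ro y y) * B * (ro x x + ro y y) = B →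
      ((∀ a, f a = a) → Φ B = B) ∧ ((∀ a, f a = conj a) → Φ B = star B)

/-- `f` is the identity, not the mean transform -/
def T_FI0 : Prop := ∀ (H : Type) [NormedAddCommGroup H] [InnerProductSpace ℂ H] [CompleteSpace H]
  (L Φ : (H →L[ℂ] H) → H →L[ℂ] H) (f : ℂ → ℂ), JN L Φ false f →
    (∀ x y : H, inner ℂ y x ≠ 0 → ∃ c : ℂ, Φ (ro x y) = c • ro x y ∧
      c * inner ℂ y x = f (inner ℂ y x)) → ∀ a, f a = a

/-- `f` is the identity, mean transform -/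
def T_FI1 : Prop := ∀ (H : Type) [NormedAddCommGroup H] [InnerProductSpace ℂ H] [CompleteSpace H]
  (L Φ : (H →L[ℂ] H) → H →L[ℂ] H) (f : ℂ → ℂ), JN L Φ true f →
    (∀ (x y : H) (B : H →L[ℂ] H), ‖x‖ = 1 → ‖y‖ = 1 → inner ℂ x y = 0 →
    (ro x x + ro y y) * B * (ro x x + ro y y) = B →
      ((∀ a, f a = a) → Φ B = B) ∧ ((∀ a, f a = conj a) → Φ B = star B)) → ∀ a, f a = a

/-- eigenvectors -/
def T_E2 : Prop := ∀ (H : Type) [NormedAddCommGroup H] [InnerProductSpace ℂ H] [CompleteSpace H]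
  (L Φ : (H →L[ℂ] H) → H →L[ℂ] H) (m : Bool), JF L Φ m → ∀ (B : H →L[ℂ] H) (u : H) (b : ℂ),
    B u = b • u → Φ B u = b • u

/-- operators with nonzero square -/
def T_E3 : Prop := ∀ (H : Type) [NormedAddCommGroup H] [InnerProductSpace ℂ H] [CompleteSpace H]
  (L Φ : (H →L[ℂ] H) → H →L[ℂ] H) (m : Bool), JF L Φ m →
    (∀ (B : H →L[ℂ] H) (u : H) (b : ℂ), B u = b • u → Φ B u = b • u) →
    ∀ B : H →L[ℂ] H, B * B ≠ 0 → Φ B = B

/-- all operators -/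
def T_E4 : Prop := ∀ (H : Type) [NormedAddCommGroup H] [InnerProductSpace ℂ H] [CompleteSpace H]
  (L Φ : (H →L[ℂ] H) → H →L[ℂ] H) (m : Bool), JF L Φ m →
    (∀ (B : H →L[ℂ] H) (u : H) (b : ℂ), B u = b • u → Φ B u = b • u) →
    (∀ B : H →L[ℂ] H, B * B ≠ 0 → Φ B = B) → ∀ B : H →L[ℂ] H, Φ B = B

/-- operation 2, conclusion -/
def T_OP2 : Prop := ∀ (H : Type) [NormedAddCommGroup H] [InnerProductSpace ℂ H] [CompleteSpace H]
  (L Φ : (H →L[ℂ] H) → H →L[ℂ] H) (m : Bool), O2 L Φ m → ∃ W : UA H, ∀ T, Φ T = cj W T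

/-- operation 3, conclusion -/
def T_OP3 : Prop := ∀ (H : Type) [NormedAddCommGroup H] [InnerProductSpace ℂ H] [CompleteSpace H]
  (L Φ : (H →L[ℂ] H) → H →L[ℂ] H) (m : Bool), O3 L Φ m → ∃ W : UA H, ∀ T, Φ T = cj W T

end Pool.Agent.H48.MT
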