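import Pool.Agent.H48.MT.Unit
import Pool.Agent.H48.MT.Targets3

/-!
# MP_c80a4f_an: modules JB JS JRY JM2 JM3 JC J13
-/

set_option linter.unusedSectionVars false

open InnerProductSpace Filter Topology
open scoped ComplexConjugate

namespace Pool.Agent.H48.MT

variable {H : Type} [NormedAddCommGroup H] [InnerProductSpace ℂ H] [CompleteSpace H]

lemma projE {E : H →L[ℂ] H} (h : IsStarProjection E) : E * E = E := h.isIdempotentElem.eq

lemma projS {E : H →L[ℂ] H} (h : IsStarProjection E) : star E = E := h.isSelfAdjoint.star_eq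

lemma proj_compl {E : H →L[ℂ] H} (h : IsStarProjection E) : IsStarProjection (1 - E) := h.one_sub

/-- `X ∘ (2E-1)` in block form -/
lemma jp_sym (X E : H →L[ℂ] H) : jp X ((2 : ℂ) • E - 1) = E * X + X * E - X := by
  have h1 : jp X ((2 : ℂ) • E - 1) = (2 : ℂ)⁻¹ • ((2 : ℂ) • (X * E) - X + ((2 : ℂ) • (E * X) - X)) := by
    unfold jp
    rw [mul_sub, sub_mul, mul_one, one_mul, mul_smul_comm, smul_mul_assoc]
  rw [h1]
  have h2 : (2 : ℂ) • (X * E) - X + ((2 : ℂ) • (E * X) - X) = (2 : ℂ) • (E * X + X * E - X) := by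
    rw [smul_sub, smul_add, two_smul ℂ X]
    abel
  rw [h2, smul_smul, inv_mul_cancel₀ (two_ne_zero : (2 : ℂ) ≠ 0), one_smul]

theorem jb_proof : T_JB := by
  intro H _ _ _ L m hL E X hE hX
  have hEE := projE hE
  have hcE := proj_compl hE
  rw [jp_sym]
  constructor
  · intro h
    set Y := E * X + X * E - X with hY
    -- E commutes with Y
    have hEY : E * Y = Y * E := by
      rw [hY, mul_sub, mul_add, sub_mul, add_mul, ← mul_assoc, hEE, mul_assoc X E E, hEE,
        mul_assoc E X E]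
      abel
    have hEY2 : E * Y = E * X * E := by
      rw [hY, mul_sub, mul_add, ← mul_assoc, hEE, mul_assoc]
      abel
    have hc := (hL.red E Y hE hEY).2
    rw [h] at hc
    -- E commutes with X
    have hYE : Y * E = X * E := by
      rw [← hEY, hEY2, hc, mul_assoc, hEE]
    have hcE' : (1 - E) * Y = Y * (1 - E) := by
      rw [sub_mul 1 E Y, mul_sub Y 1 E, one_mul, mul_one, hEY]
    have hcX' : (1 - E) * X = X * (1 - E) := by
      rw [sub_mul 1 E X, mul_sub X 1 E, one_mul, mul_one, hc]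
    have h2 := (hL.red (1 - E) Y hcE hcE').1
    have h3 := (hL.red (1 - E) X hcE hcX').1
    have hY2 : Y * (1 - E) = -(X * (1 - E)) := by
      rw [mul_sub, mul_one, hYE, hY, hc, mul_sub, mul_one]
      abel
    have h4 : L (-(X * (1 - E))) = -L (X * (1 - E)) := by
      have := hL.hom (-1) (X * (1 - E))
      rwa [neg_one_smul, neg_one_smul] at this
    rw [hY2, h4, h3, hX, h] at h2
    have h5 : X * (1 - E) = 0 := by
      have h6 : (2 : ℂ) • (X * (1 - E)) = 0 := by
        rw [two_smul]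
        nth_rw 1 [← h2]
        rw [neg_add_cancel]
      exact (smul_eq_zero.1 h6).resolve_left two_ne_zero
    rw [mul_sub, mul_one, sub_eq_zero] at h5
    rw [hc, mul_assoc, hEE, ← h5]
  · intro h
    have h1 : E * X = X := by rw [← h, mul_assoc E X E, ← mul_assoc, hEE]
    have h2 : X * E = X := by rw [← h, mul_assoc, hEE]
    rw [h1, h2, add_sub_cancel_right, hX]

lemma J1.fix {L Φ : (H →L[ℂ] H) → H →L[ℂ] H} {m : Bool} (h : J1 L Φ m) (X : H →L[ℂ] H) :
    L X = X ↔ L (Φ X) = Φ X := by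
  rw [← h.com]
  exact ⟨fun h1 => by rw [h1], fun h1 => h.bij.1 h1⟩

lemma isSy_of_proj {E : H →L[ℂ] H} (hE : IsStarProjection E) : IsSy ((2 : ℂ) • E - 1) := by
  refine ⟨?_, ?_⟩
  · rw [IsSelfAdjoint, star_sub, star_smul, projS hE, star_one]
    simp
  · rw [sub_mul, mul_sub, one_mul, mul_one, smul_mul_smul_comm, projE hE]
    have : (2 : ℂ) * 2 = 2 + 2 := by norm_num
    rw [this, add_smul]
    abel

lemma proj_of_isSy {S : H →L[ℂ] H} (hS : IsSy S) :
    IsStarProjection ((2 : ℂ)⁻¹ • (S + 1)) ∧ S = (2 : ℂ) • ((2 : ℂ)⁻¹ • (S + 1)) - 1 := by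
  refine ⟨⟨?_, ?_⟩, ?_⟩
  · rw [IsIdempotentElem, smul_mul_smul_comm, add_mul, mul_add, hS.2, one_mul, mul_one]
    have : (1 + S + (S + 1) : H →L[ℂ] H) = (2 : ℂ) • (S + 1) := by
      rw [two_smul]
      abel
    rw [this, smul_smul]
    norm_num
  · rw [IsSelfAdjoint, star_smul, star_add, hS.1.star_eq, star_one]
    simp
  · rw [smul_smul, mul_inv_cancel₀ (two_ne_zero : (2 : ℂ) ≠ 0), one_smul, add_sub_cancel_right]

lemma corner_iff {E X : H →L[ℂ] H} (hE : IsStarProjection E) :
    E * X * E = X ↔ E * X = X ∧ X * E = X := by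
  constructor
  · intro h
    exact ⟨by rw [← h, mul_assoc E X E, ← mul_assoc, projE hE], by rw [← h, mul_assoc, projE hE]⟩
  · rintro ⟨h1, h2⟩
    rw [h1, h2]

lemma proj_le_comm {E G : H →L[ℂ] H} (hE : IsStarProjection E) (hG : IsStarProjection G)
    (h : G * E = E) : E * G = E := by
  have := congrArg star h
  rwa [star_mul, projS hE, projS hG] at this

lemma corner_proj {E G : H →L[ℂ] H} (hE : IsStarProjection E) (hG : IsStarProjection G) :
    G * E * G = E ↔ G * E = E := by
  rw [corner_iff hG]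
  exact ⟨fun h => h.1, fun h => ⟨h, proj_le_comm hE hG h⟩⟩

lemma Lm.projL {L : (H →L[ℂ] H) → H →L[ℂ] H} {m : Bool} (h : Lm L m) {E : H →L[ℂ] H}
    (hE : IsStarProjection E) : L E = E := h.sel hE.isSelfAdjoint

theorem js_proof (hjb : T_JB) : T_JS := by
  intro H _ _ _ L Φ m hJ
  have hL := hJ.lm
  set r : (H →L[ℂ] H) → H →L[ℂ] H := fun E => (2 : ℂ)⁻¹ • (Φ ((2 : ℂ) • E - 1) + 1) with hr
  have hprj : ∀ E, IsStarProjection E → IsStarProjection (r E) ∧
      Φ ((2 : ℂ) • E - 1) = (2 : ℂ) • r E - 1 := by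
    intro E hE
    exact proj_of_isSy ((hJ.sy _).1 (isSy_of_proj hE))
  have hsrj : ∀ G, IsStarProjection G → ∃ E, IsStarProjection E ∧ r E = G := by
    intro G hG
    obtain ⟨S, hS⟩ := hJ.bij.2 ((2 : ℂ) • G - 1)
    have hSy : IsSy S := (hJ.sy S).2 (by rw [hS]; exact isSy_of_proj hG)
    obtain ⟨h1, h2⟩ := proj_of_isSy hSy
    refine ⟨_, h1, ?_⟩
    simp only [hr]
    rw [← h2, hS, sub_add_cancel, smul_smul, inv_mul_cancel₀ (two_ne_zero : (2 : ℂ) ≠ 0), one_smul]
  have hcor : ∀ E, IsStarProjection E → ∀ X, L X = X → (E * X * E = X ↔ r E * Φ X * r E = Φ X) := by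
    intro E hE X hX
    have hX' := (hJ.fix X).1 hX
    rw [← hjb H L m hL E X hE hX, ← hjb H L m hL (r E) (Φ X) (hprj E hE).1 hX', ← (hprj E hE).2,
      hJ.js X _ (isSy_of_proj hE)]
    exact hJ.bij.1.eq_iff.symm
  have hord1 : ∀ E G, IsStarProjection E → IsStarProjection G → G * E = E → r G * r E = r E := by
    intro E G hE hG h
    obtain ⟨X, hX⟩ := hJ.bij.2 (r E)
    have hrE := (hprj E hE).1
    have hrG := (hprj G hG).1
    have hXf : L X = X := (hJ.fix X).2 (by rw [hX, hL.projL hrE])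
    have h1 : E * X * E = X := (hcor E hE X hXf).2 (by rw [hX, projE hrE, projE hrE])
    have h2 : G * X * G = X := by
      rw [corner_iff hG]
      rw [corner_iff hE] at h1
      constructor
      · rw [← h1.1, ← mul_assoc, h]
      · rw [← h1.2, mul_assoc, proj_le_comm hE hG h]
    have h3 := (hcor G hG X hXf).1 h2
    rw [hX] at h3
    exact (corner_proj hrE hrG).1 h3
  have hord2 : ∀ E G, IsStarProjection E → IsStarProjection G → r G * r E = r E → G * E = E := by
    intro E G hE hG h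
    have hrE := (hprj E hE).1
    have hrG := (hprj G hG).1
    have hEf := hL.projL hE
    have h1 : r E * Φ E * r E = Φ E := (hcor E hE E hEf).1 (by rw [projE hE, projE hE])
    have h2 : r G * Φ E * r G = Φ E := by
      rw [corner_iff hrG]
      rw [corner_iff hrE] at h1
      constructor
      · rw [← h1.1, ← mul_assoc, h]
      · rw [← h1.2, mul_assoc, proj_le_comm hrE hrG h]
    exact (corner_proj hE hG).1 ((hcor G hG E hEf).2 h2)
  have hr0 : r 0 = 0 := by
    obtain ⟨E, hE, hE0⟩ := hsrj 0 (IsStarProjection.zero (H →L[ℂ] H))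
    have := hord1 0 E (IsStarProjection.zero _) hE (by rw [mul_zero])
    rw [hE0, zero_mul] at this
    exact this.symm
  refine ⟨r, ⟨hprj, hsrj, fun E G hE hG => ⟨hord1 E G hE hG, hord2 E G hE hG⟩, ?_, hcor⟩⟩
  intro E hE
  have hz := (hprj 0 (IsStarProjection.zero _)).2
  rw [hr0, smul_zero, zero_sub] at hz
  have h1 := hJ.js ((2 : ℂ) • E - 1) (-1) (by
    refine ⟨?_, by simp⟩
    rw [IsSelfAdjoint, star_neg, star_one])
  have hneg : ∀ X : H →L[ℂ] H, jp X (-1) = -X := by
    intro X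
    have := jp_smul (-1) X 1
    rwa [neg_one_smul, neg_one_smul, jp_one] at this
  have hLn : ∀ X : H →L[ℂ] H, L (-X) = -L X := by
    intro X
    have := hL.hom (-1) X
    rwa [neg_one_smul, neg_one_smul] at this
  rw [hz, hneg, hneg, (hprj E hE).2, hLn, hLn, hL.sel (isSy_of_proj hE).1,
    hL.sel (isSy_of_proj (hprj E hE).1).1] at h1
  have h2 : -((2 : ℂ) • E - 1) = (2 : ℂ) • (1 - E) - 1 := by
    rw [smul_sub, two_smul ℂ (1 : H →L[ℂ] H)]
    abel
  rw [h2, (hprj _ (proj_compl hE)).2] at h1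
  have h3 : (2 : ℂ) • r (1 - E) = (2 : ℂ) • (1 - r E) := by
    rw [smul_sub, two_smul ℂ (1 : H →L[ℂ] H)]
    have := sub_eq_iff_eq_add.1 h1.symm
    rw [this]
    abel
  exact smul_right_injective _ (two_ne_zero : (2 : ℂ) ≠ 0) h3

lemma isProj_ro {x : H} (hx : ‖x‖ = 1) : IsStarProjection (ro x x) :=
  ⟨proj_mul_self hx, ro_self_sa x⟩

/-- a nonzero projection dominates a rank one projection -/
lemma exists_sub_proj {E : H →L[ℂ] H} (hE : IsStarProjection E) (h0 : E ≠ 0) :
    ∃ y : H, ‖y‖ = 1 ∧ E * ro y y = ro y y := by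
  obtain ⟨u, hu⟩ : ∃ u, E u ≠ 0 := by
    by_contra hcon
    push Not at hcon
    apply h0
    ext z
    simp [hcon z]
  obtain ⟨y, hy, hyu⟩ := exists_unit hu
  refine ⟨y, hy, ?_⟩
  have hn : (‖E u‖ : ℂ) ≠ 0 := by
    rw [Ne, Complex.ofReal_eq_zero, norm_eq_zero]
    exact hu
  have h1 : E y = y := by
    have h2 : E (E u) = E u := by
      have := congrArg (fun T : H →L[ℂ] H => T u) (projE hE)
      simpa using this
    rw [hyu, map_smul] at h2
    exact smul_right_injective H hn h2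
  rw [mul_ro, h1]

/-- a projection below a rank one projection -/
lemma le_rank_one {E : H →L[ℂ] H} {x : H} (hx : ‖x‖ = 1) (hE : IsStarProjection E)
    (h : ro x x * E = E) : E = 0 ∨ E = ro x x := by
  by_cases h0 : E = 0
  · exact Or.inl h0
  · right
    obtain ⟨y, hy, hy1⟩ := exists_sub_proj hE h0
    have h2 : ro x x * ro y y = ro y y := by rw [← hy1, ← mul_assoc, h]
    have h3 : ro y y = (inner ℂ x y) • ro x y := by rw [← proj_mul, h2]
    have h4 := congrArg (fun T : H →L[ℂ] H => T y) h3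
    simp only [_root_.smul_apply, ro_apply, inner_self_one hy, one_smul] at h4
    have h5 : ‖inner ℂ x y‖ = 1 := by
      have := congrArg norm h4
      rw [norm_smul, hx, hy, mul_one] at this
      exact this.symm
    have h6 := (ro_eq_iff hx hy).2 h5
    have h7 : E * ro x x = E := proj_le_comm hE (isProj_ro hx) h
    rw [← h7, h6, hy1]

theorem jry_proof : T_JRY := by
  intro H _ _ _ L Φ m r hJ hr
  have hL := hJ.lm
  have hz : IsStarProjection (0 : H →L[ℂ] H) := IsStarProjection.zero _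
  have hr0 : r 0 = 0 := by
    obtain ⟨E, hE, hE0⟩ := hr.srj 0 hz
    have := (hr.ord 0 E hz hE).1 (by rw [mul_zero])
    rw [hE0, zero_mul] at this
    exact this.symm
  have hrinj : ∀ E G, IsStarProjection E → IsStarProjection G → r E = r G → E = G := by
    intro E G hE hG h
    have h1 := (hr.ord E G hE hG).2 (by rw [h, projE (hr.prj G hG).1])
    have h2 := (hr.ord G E hG hE).2 (by rw [h, projE (hr.prj G hG).1])
    have h3 := proj_le_comm hE hG h1
    rw [← h3, h2]
  have hpr : ∀ x : H, ∃ y : H, ‖x‖ = 1 → ‖y‖ = 1 ∧ r (ro x x) = ro y y := by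
    intro x
    by_cases hx : ‖x‖ = 1
    · have hp := isProj_ro hx
      have hrp := (hr.prj _ hp).1
      have hne : r (ro x x) ≠ 0 := by
        intro h0
        have := hrinj (ro x x) 0 hp hz (by rw [h0, hr0])
        exact ro_unit_ne_zero hx this
      obtain ⟨y, hy, hy1⟩ := exists_sub_proj hrp hne
      obtain ⟨E, hE, hEy⟩ := hr.srj _ (isProj_ro hy)
      have h1 : ro x x * E = E := (hr.ord E _ hE hp).2 (by rw [hEy, hy1])
      rcases le_rank_one hx hE h1 with h2 | h2
      · rw [h2, hr0] at hEy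
        exact absurd hEy.symm (ro_unit_ne_zero hy)
      · refine ⟨y, fun _ => ⟨hy, ?_⟩⟩
        rw [← hEy, h2]
    · exact ⟨x, fun h => absurd h hx⟩
  choose pr hpr1 using hpr
  have hcorn : ∀ (y : H) (X : H →L[ℂ] H), ro y y * X * ro y y = X → X = inner ℂ y (X y) • ro y y := by
    intro y X h
    rw [proj_corner] at h
    exact h.symm
  have hex : ∀ x : H, ∃ g : ℂ → ℂ, ‖x‖ = 1 → ∀ c, Φ (c • ro x x) = g c • ro (pr x) (pr x) := by
    intro x
    by_cases hx : ‖x‖ = 1
    · refine ⟨fun c => inner ℂ (pr x) (Φ (c • ro x x) (pr x)), fun _ c => ?_⟩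
      have hp := isProj_ro hx
      have h1 := (hr.cor _ hp (c • ro x x) (hL.smul_ro c x)).1 (by
        rw [mul_smul_comm, smul_mul_assoc, projE hp, projE hp])
      rw [(hpr1 x hx).2] at h1
      exact hcorn _ _ h1
    · exact ⟨fun _ => 0, fun h => absurd h hx⟩
  choose f hf using hex
  refine ⟨pr, f, ⟨fun x hx => (hpr1 x hx).1, hf, ?_, ?_, ?_, ?_⟩, fun x hx => (hpr1 x hx).2⟩
  · intro y hy
    obtain ⟨E, hE, hEy⟩ := hr.srj _ (isProj_ro hy)
    have hE0 : E ≠ 0 := by
      intro h0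
      rw [h0, hr0] at hEy
      exact ro_unit_ne_zero hy hEy.symm
    obtain ⟨x, hx, hx1⟩ := exists_sub_proj hE hE0
    have h1 := (hr.ord _ E (isProj_ro hx) hE).1 hx1
    rw [(hpr1 x hx).2, hEy] at h1
    rcases le_rank_one hy (isProj_ro (hpr1 x hx).1) h1 with h2 | h2
    · exact absurd h2 (ro_unit_ne_zero (hpr1 x hx).1)
    · exact ⟨x, hx, h2⟩
  · intro x y hx hy hxy
    apply hrinj _ _ (isProj_ro hx) (isProj_ro hy)
    rw [(hpr1 x hx).2, (hpr1 y hy).2, hxy]
  · intro x hx
    constructor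
    · intro c d hcd
      have e1 := hf x hx c
      have e2 := hf x hx d
      rw [hcd, ← e2] at e1
      exact smul_ro_inj hx (hJ.bij.1 e1)
    · intro d
      obtain ⟨X, hX⟩ := hJ.bij.2 (d • ro (pr x) (pr x))
      have hXf : L X = X := (hJ.fix X).2 (by rw [hX, hL.smul_ro])
      have h1 := (hr.cor _ (isProj_ro hx) X hXf).2 (by
        rw [(hpr1 x hx).2, hX, mul_smul_comm, smul_mul_assoc, proj_mul_self (hpr1 x hx).1,
          proj_mul_self (hpr1 x hx).1])
      have h2 := hcorn _ _ h1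
      refine ⟨inner ℂ x (X x), ?_⟩
      have h3 := hf x hx (inner ℂ x (X x))
      rw [← h2, hX] at h3
      exact (smul_ro_inj (hpr1 x hx).1 h3).symm
  · intro x hx
    have := hf x hx 0
    rw [zero_smul, hJ.zero] at this
    exact ((smul_eq_zero.1 this.symm).resolve_right (ro_unit_ne_zero (hpr1 x hx).1))

theorem jm2_proof : T_JM2 := by
  intro H _ _ _ L Φ m pr f hO h1 hR x hx
  have hL := hO.lm
  have hx' := hR.nrm x hx
  have hf1 : f x 1 ≠ 0 := by
    intro h
    exact one_ne_zero ((hR.bjf x hx).1 (h.trans (hR.zer x hx).symm))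
  have hpp : ∀ (y : H), ‖y‖ = 1 → ∀ a b : ℂ, jp (a • ro y y) (b • ro y y) = (a * b) • ro y y := by
    intro y hy a b
    rw [smul_jp, jp_smul, jp_self, proj_mul_self hy, smul_smul]
  have hmul : ∀ a b, f x (a * b) = f x a * f x b := by
    intro a b
    have h2 := hO.eq2 (a • ro x x) (b • ro x x)
    rw [hR.val x hx, hR.val x hx, hpp _ hx', hpp _ hx, hL.smul_ro, hL.smul_ro, hR.val x hx] at h2
    exact (smul_ro_inj hx' h2).symm
  refine ⟨?_, hmul, ?_⟩
  · have := hmul 1 1
    rw [mul_one] at this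
    exact (mul_eq_right₀ hf1).1 this.symm
  · intro A s
    have h2 := hO.eq2 A (s • ro x x)
    rw [hR.val x hx, jp_smul, jp_smul, hL.hom, hL.hom] at h2
    exact h2.symm

theorem jm3_proof : T_JM3 := by
  intro H _ _ _ L Φ m pr f hO h1 hR x hx
  have hL := hO.lm
  have hx' := hR.nrm x hx
  have hf1 : f x 1 ≠ 0 := by
    intro h
    exact one_ne_zero ((hR.bjf x hx).1 (h.trans (hR.zer x hx).symm))
  have hpp : ∀ (y : H), ‖y‖ = 1 → ∀ a b : ℂ, jp (a • ro y y) (star (b • ro y y))
      = (a * conj b) • ro y y := by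
    intro y hy a b
    rw [star_smul, star_ro, smul_jp, jp_smul, jp_self, proj_mul_self hy, smul_smul]
    rfl
  have hmul : ∀ a b, f x (a * conj b) = f x a * conj (f x b) := by
    intro a b
    have h2 := hO.eq3 (a • ro x x) (b • ro x x)
    rw [hR.val x hx, hR.val x hx, hpp _ hx', hpp _ hx, hL.smul_ro, hL.smul_ro, hR.val x hx] at h2
    exact (smul_ro_inj hx' h2).symm
  have h11 : f x 1 = 1 := by
    have h3 := hmul 1 1
    rw [map_one, mul_one] at h3
    have h4 : conj (f x 1) = 1 := (mul_eq_left₀ hf1).1 h3.symm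
    rw [← Complex.conj_conj (f x 1), h4, map_one]
  have hconj : ∀ b, f x (conj b) = conj (f x b) := by
    intro b
    have := hmul 1 b
    rwa [one_mul, h11, one_mul] at this
  refine ⟨h11, ?_, ?_⟩
  · intro a b
    have := hmul a (conj b)
    rwa [Complex.conj_conj, hconj, Complex.conj_conj] at this
  · intro A s
    have h2 := hO.eq3 A (conj s • ro x x)
    rw [hR.val x hx, star_smul, star_smul, star_ro, star_ro, jp_smul, jp_smul, hL.hom, hL.hom,
      hconj] at h2
    simp only [RCLike.star_def, Complex.conj_conj] at h2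
    exact h2.symm

theorem jc_proof : T_JC := by
  intro H _ _ _ L Φ m pr f hJ hR hM
  apply const_of_nonorth
  intro x y hx hy hxy
  have hL := hJ.lm
  have hx' := hR.nrm x hx
  have hy' := hR.nrm y hy
  have hvx : Φ (ro x x) = ro (pr x) (pr x) := by
    have := hR.val x hx 1
    rwa [one_smul, (hM x hx).1, one_smul] at this
  have hvy : Φ (ro y y) = ro (pr y) (pr y) := by
    have := hR.val y hy 1
    rwa [one_smul, (hM y hy).1, one_smul] at this
  funext s
  have h1 := (hM x hx).2.2 (ro y y) s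
  have h2 := (hM y hy).2.2 (ro x x) s
  rw [hvy, jp_comm (ro y y) (ro x x)] at h1
  rw [hvx, h1, jp_comm (ro (pr x) (pr x))] at h2
  have hne : L (jp (ro (pr y) (pr y)) (ro (pr x) (pr x))) ≠ 0 := by
    intro h0
    have h3 := (hM x hx).2.2 (ro y y) 1
    rw [hvy, h0, smul_zero, one_smul] at h3
    have h4 : L (jp (ro y y) (ro x x)) = 0 := hJ.bij.1 (h3.trans hJ.zero.symm)
    rw [hL.sel (by
      rw [IsSelfAdjoint, star_jp, star_ro, star_ro])] at h4
    have h5 := congrArg (fun T : H →L[ℂ] H => inner ℂ x (T x)) h4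
    simp only [jp, proj_mul, _root_.smul_apply, _root_.add_apply, ro_apply, inner_smul_right,
      inner_add_right, inner_self_one hx, _root_.zero_apply, inner_zero_right, one_smul,
      mul_one] at h5
    have h6 : inner ℂ x y * inner ℂ y x = 0 := by linear_combination h5
    rcases mul_eq_zero.1 h6 with h | h
    · exact hxy h
    · rw [← inner_conj_symm, map_eq_zero] at h
      exact hxy h
  have h7 : (f x s - f y s) • L (jp (ro (pr y) (pr y)) (ro (pr x) (pr x))) = 0 := by
    rw [sub_smul, h2, sub_self]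
  exact sub_eq_zero.1 ((smul_eq_zero.1 h7).resolve_right hne)

theorem j13_proof (hun : T_UN) : T_J13 := by
  intro H _ _ _ L Φ m hO h1
  have key : ∀ {Φ : (H →L[ℂ] H) → H →L[ℂ] H}, O3 L Φ m → Φ 1 = 1 →
      (∀ A, Φ (L A) = L (Φ A)) ∧ ∀ S, IsSy S → IsSy (Φ S) := by
    intro Φ hO h1
    have hL := hO.lm
    have hcom : ∀ A, Φ (L A) = L (Φ A) := by
      intro A
      have := hO.eq3 A 1
      rw [h1, star_one, jp_one, jp_one] at this
      exact this.symm
    refine ⟨hcom, fun S hS => ?_⟩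
    have hSL : L S = S := hL.sel hS.1
    have hX : L (Φ S) = Φ S := by rw [← hcom, hSL]
    have h2 := hO.eq3 S S
    rw [hS.1.star_eq, jp_self, hS.2, hL.one, h1] at h2
    have h3 : jp (Φ S) (star (Φ S)) = 1 := by
      have := hL.sca 1 _ one_ne_zero (by rw [h2, one_smul])
      rwa [one_smul] at this
    obtain ⟨hu1, hu2⟩ := hun H L m hL (Φ S) hX h3
    have h4 := hO.eq3 1 S
    rw [h1, hS.1.star_eq, one_jp, one_jp, hSL] at h4
    rw [hL.nor (star (Φ S)) ⟨by rw [star_star, Commute, SemiconjBy, hu1, hu2]⟩] at h4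
    refine ⟨h4, ?_⟩
    rw [← hu1, h4]
  obtain ⟨hcom, hsy⟩ := key hO h1
  obtain ⟨Ψ, hO', hl, hr⟩ := hO.inv
  obtain ⟨_, hsy'⟩ := key hO' (by
    have := hl 1
    rwa [h1] at this)
  refine ⟨hO.lm, hO.two, hO.bij, hO.zero, h1, hcom, fun S => ⟨hsy S, fun h => ?_⟩, ?_⟩
  · have := hsy' _ h
    rwa [hl] at this
  · intro A S hS
    have := hO.eq3 A S
    rwa [(hsy S hS).1.star_eq, hS.1.star_eq] at this

end Pool.Agent.H48.MT
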