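import Pool.Agent.H48.MT.M7
import Pool.Agent.H48.MT.Targets

/-!
# MP_c80a4f_an: modules JT JA JQ JW
-/

set_option linter.unusedSectionVars false

open InnerProductSpace Filter Topology
open scoped ComplexConjugate

namespace Pool.Agent.H48.MT

variable {H : Type} [NormedAddCommGroup H] [InnerProductSpace ℂ H] [CompleteSpace H]

lemma inner_swap_zero {x y : H} (h : inner ℂ x y = 0) : inner ℂ y x = 0 := by
  rw [← inner_conj_symm, h, map_zero]

lemma normal_pp {x y : H} (hx : ‖x‖ = 1) (hy : ‖y‖ = 1) (hxy : inner ℂ x y = 0) (a b : ℂ) :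
    IsStarNormal (a • ro x x + b • ro y y) := by
  have hyx := inner_swap_zero hxy
  refine ⟨?_⟩
  rw [Commute, SemiconjBy, star_add, star_smul, star_smul, star_ro, star_ro]
  simp only [add_mul, mul_add, smul_mul_smul_comm, ro_mul_ro, hxy, hyx, inner_self_one hx,
    inner_self_one hy, one_smul, zero_smul, smul_zero, add_zero, zero_add]
  rw [mul_comm (star a), mul_comm (star b)]

lemma jp_pp_inner {x : H} (hx : ‖x‖ = 1) (y : H) :
    inner ℂ x ((jp (ro y y) (ro x x)) x) = inner ℂ x y * inner ℂ y x := by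
  simp only [jp, proj_mul, _root_.smul_apply, _root_.add_apply, ro_apply, inner_smul_right,
      inner_add_right, inner_self_one hx, one_smul, mul_one]
  ring

lemma jp_sa {A B : H →L[ℂ] H} (hA : IsSelfAdjoint A) (hB : IsSelfAdjoint B) :
    IsSelfAdjoint (jp A B) := by
  rw [IsSelfAdjoint, star_jp, hA.star_eq, hB.star_eq]

lemma J2.val {L Φ : (H →L[ℂ] H) → H →L[ℂ] H} {m : Bool} {r : (H →L[ℂ] H) → H →L[ℂ] H}
    {pr : H → H} {f : ℂ → ℂ} (h : J2 L Φ m r pr f) {x : H} (hx : ‖x‖ = 1) (c : ℂ) :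
    Φ (c • ro x x) = f c • ro (pr x) (pr x) := h.ry.val x hx c

lemma J2.val1 {L Φ : (H →L[ℂ] H) → H →L[ℂ] H} {m : Bool} {r : (H →L[ℂ] H) → H →L[ℂ] H}
    {pr : H → H} {f : ℂ → ℂ} (h : J2 L Φ m r pr f) {x : H} (hx : ‖x‖ = 1) :
    Φ (ro x x) = ro (pr x) (pr x) := by
  have := h.val hx 1
  rwa [one_smul, h.f1, one_smul] at this

lemma J2.f0 {L Φ : (H →L[ℂ] H) → H →L[ℂ] H} {m : Bool} {r : (H →L[ℂ] H) → H →L[ℂ] H}
    {pr : H → H} {f : ℂ → ℂ} (h : J2 L Φ m r pr f) : f 0 = 0 := by
  obtain ⟨x, _, hx, _⟩ := h.j1.two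
  exact h.ry.zer x hx

lemma J2.pmv {L Φ : (H →L[ℂ] H) → H →L[ℂ] H} {m : Bool} {r : (H →L[ℂ] H) → H →L[ℂ] H}
    {pr : H → H} {f : ℂ → ℂ} (h : J2 L Φ m r pr f) (A : H →L[ℂ] H) {x : H} (hx : ‖x‖ = 1) :
    Φ (L (jp A (ro x x))) = L (jp (Φ A) (ro (pr x) (pr x))) := by
  have := h.pm A x 1 hx
  rwa [one_smul, h.f1, one_smul] at this

/-- `Φ (p_y ∘ p_x) = p_{y'} ∘ p_{x'}` -/
lemma J2.pp {L Φ : (H →L[ℂ] H) → H →L[ℂ] H} {m : Bool} {r : (H →L[ℂ] H) → H →L[ℂ] H}
    {pr : H → H} {f : ℂ → ℂ} (h : J2 L Φ m r pr f) {x y : H} (hx : ‖x‖ = 1) (hy : ‖y‖ = 1) :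
    Φ (jp (ro y y) (ro x x)) = jp (ro (pr y) (pr y)) (ro (pr x) (pr x)) := by
  have h1 := h.pmv (ro y y) hx
  rw [h.val1 hy, h.j1.lm.sel (jp_sa (ro_self_sa y) (ro_self_sa x)),
    h.j1.lm.sel (jp_sa (ro_self_sa _) (ro_self_sa _))] at h1
  exact h1

/-- `X ∘ (2E-1)` commutes with `E` -/
lemma jp_sym_comm {E : H →L[ℂ] H} (hE : IsStarProjection E) (X : H →L[ℂ] H) :
    E * jp X ((2 : ℂ) • E - 1) = jp X ((2 : ℂ) • E - 1) * E := by
  have hEE := projE hE
  rw [jp_sym, mul_sub, mul_add, sub_mul, add_mul, ← mul_assoc, hEE, mul_assoc X E E, hEE,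
    mul_assoc E X E]
  abel

lemma J2.comm {L Φ : (H →L[ℂ] H) → H →L[ℂ] H} {m : Bool} {r : (H →L[ℂ] H) → H →L[ℂ] H}
    {pr : H → H} {f : ℂ → ℂ} (h : J2 L Φ m r pr f) {x y : H} (hx : ‖x‖ = 1) (hy : ‖y‖ = 1)
    (hxy : inner ℂ x y = 0) (a b : ℂ) :
    ro (pr x) (pr x) * Φ (a • ro x x + b • ro y y)
      = Φ (a • ro x x + b • ro y y) * ro (pr x) (pr x) := by
  have hyx := inner_swap_zero hxy
  have hL := h.j1.lm
  have hp := isProj_ro hx
  have h1 := h.j1.js (a • ro x x - b • ro y y) _ (isSy_of_proj hp)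
  have h2 : jp (a • ro x x - b • ro y y) ((2 : ℂ) • ro x x - 1) = a • ro x x + b • ro y y := by
    rw [jp_sym, mul_sub, sub_mul, mul_smul_comm, mul_smul_comm, smul_mul_assoc, smul_mul_assoc,
      proj_mul_self hx, proj_mul, proj_mul, hxy, hyx]
    simp only [zero_smul, smul_zero, sub_zero]
    abel
  rw [h2, hL.nor _ (normal_pp hx hy hxy a b), (h.jr.prj _ hp).2, h.rp x hx] at h1
  have hp' := isProj_ro (h.ry.nrm x hx)
  have h3 := (hL.red _ _ hp' (jp_sym_comm hp' (Φ (a • ro x x - b • ro y y)))).2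
  rw [h1] at h3
  exact h3

theorem jt_proof : T_JT := by
  intro H _ _ _ L Φ m r pr f h
  have hL := h.j1.lm
  have horth : ∀ x y, ‖x‖ = 1 → ‖y‖ = 1 → (inner ℂ (pr x) (pr y) = 0 ↔ inner ℂ x y = 0) := by
    intro x y hx hy
    have h1 := h.pp hx hy
    constructor
    · intro h0
      have h2 : jp (ro (pr y) (pr y)) (ro (pr x) (pr x)) = 0 := by
        rw [jp, proj_mul, proj_mul, h0, inner_swap_zero h0]
        simp
      rw [h2] at h1
      have h3 := h.j1.bij.1 (h1.trans h.j1.zero.symm)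
      have h4 := jp_pp_inner hx y
      rw [h3, _root_.zero_apply, inner_zero_right] at h4
      rcases mul_eq_zero.1 h4.symm with h5 | h5
      · exact h5
      · exact inner_swap_zero h5
    · intro h0
      have h2 : jp (ro y y) (ro x x) = 0 := by
        rw [jp, proj_mul, proj_mul, h0, inner_swap_zero h0]
        simp
      rw [h2, h.j1.zero] at h1
      have h4 := jp_pp_inner (h.ry.nrm x hx) (pr y)
      rw [← h1, _root_.zero_apply, inner_zero_right] at h4
      rcases mul_eq_zero.1 h4.symm with h5 | h5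
      · exact h5
      · exact inner_swap_zero h5
  refine ⟨horth, fun x y hx hy hxy a b => ?_⟩
  have hyx := inner_swap_zero hxy
  have hx' := h.ry.nrm x hx
  have hy' := h.ry.nrm y hy
  have hxy' : inner ℂ (pr x) (pr y) = 0 := (horth x y hx hy).2 hxy
  have hyx' := inner_swap_zero hxy'
  have hpx := isProj_ro hx
  have hpy := isProj_ro hy
  have hpx' := isProj_ro hx'
  have hpy' := isProj_ro hy'
  have hsum : ∀ {u v : H}, ‖u‖ = 1 → ‖v‖ = 1 → inner ℂ u v = 0 →
      IsStarProjection (ro u u + ro v v) := by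
    intro u v hu hv huv
    refine ⟨?_, (ro_self_sa u).add (ro_self_sa v)⟩
    rw [IsIdempotentElem, mul_add, add_mul, add_mul, proj_mul_self hu, proj_mul_self hv,
      proj_mul, proj_mul, huv, inner_swap_zero huv]
    simp
  have hle1 : ∀ {u v : H}, ‖u‖ = 1 → inner ℂ u v = 0 → (ro u u + ro v v) * ro u u = ro u u := by
    intro u v hu huv
    rw [add_mul, proj_mul_self hu, proj_mul, inner_swap_zero huv]
    simp
  have hle2 : ∀ {u v : H}, ‖v‖ = 1 → inner ℂ u v = 0 → (ro u u + ro v v) * ro v v = ro v v := by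
    intro u v hv huv
    rw [add_mul, proj_mul_self hv, proj_mul, huv]
    simp
  have hE := hsum hx hy hxy
  have hG := hsum hx' hy' hxy'
  set E := ro x x + ro y y with hEd
  set G := ro (pr x) (pr x) + ro (pr y) (pr y) with hGd
  have hrE : r E = G := by
    have hrEp := (h.jr.prj E hE).1
    have h1 : r E * G = G := by
      have e1 := (h.jr.ord _ E hpx hE).1 (hle1 hx hxy)
      have e2 := (h.jr.ord _ E hpy hE).1 (hle2 hy hxy)
      rw [h.rp x hx] at e1
      rw [h.rp y hy] at e2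
      rw [hGd, mul_add, e1, e2]
    obtain ⟨E1, hE1, hE1G⟩ := h.jr.srj G hG
    have h2 : G * r E = r E := by
      have e1 := (h.jr.ord _ E1 hpx hE1).2 (by rw [h.rp x hx, hE1G]; exact hle1 hx' hxy')
      have e2 := (h.jr.ord _ E1 hpy hE1).2 (by rw [h.rp y hy, hE1G]; exact hle2 hy' hxy')
      have e3 := (h.jr.ord E E1 hE hE1).1 (by rw [hEd, mul_add, e1, e2])
      rwa [hE1G] at e3
    have h3 := proj_le_comm hrEp hG h2
    rw [← h3, h1]
  set T := a • ro x x + b • ro y y with hT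
  set X := Φ T with hX
  have hTf : L T = T := hL.nor _ (normal_pp hx hy hxy a b)
  have hTE : E * T * E = T := by
    rw [corner_iff hE, hT, hEd]
    constructor
    · simp only [add_mul, mul_add, mul_smul_comm, proj_mul, hxy, hyx, inner_self_one hx,
        inner_self_one hy, one_smul, zero_smul, smul_zero, add_zero, zero_add]
    · simp only [add_mul, mul_add, smul_mul_assoc, proj_mul, hxy, hyx, inner_self_one hx,
        inner_self_one hy, one_smul, zero_smul, smul_zero, add_zero, zero_add]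
  have hXG : G * X * G = X := by
    rw [← hrE]
    exact (h.jr.cor E hE T hTf).1 hTE
  have hc1 : ro (pr x) (pr x) * X = X * ro (pr x) (pr x) := h.comm hx hy hxy a b
  have hc2 : ro (pr y) (pr y) * X = X * ro (pr y) (pr y) := by
    have := h.comm hy hx hyx b a
    rwa [add_comm] at this
  have hz : ro (pr x) (pr x) * ro (pr y) (pr y) = 0 := by rw [proj_mul, hxy', zero_smul]
  have hz' : ro (pr y) (pr y) * ro (pr x) (pr x) = 0 := by rw [proj_mul, hyx', zero_smul]
  set α := inner ℂ (pr x) (X (pr x)) with hα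
  set β := inner ℂ (pr y) (X (pr y)) with hβ
  have hXx : X * ro (pr x) (pr x) = α • ro (pr x) (pr x) := by
    rw [hα, ← proj_corner, hc1, mul_assoc, proj_mul_self hx']
  have hXy : X * ro (pr y) (pr y) = β • ro (pr y) (pr y) := by
    rw [hβ, ← proj_corner, hc2, mul_assoc, proj_mul_self hy']
  have hXs : X = α • ro (pr x) (pr x) + β • ro (pr y) (pr y) := by
    rw [← hXx, ← hXy, ← mul_add, ← hGd]
    exact ((corner_iff hG).1 hXG).2.symm
  have hαf : α = f a := by
    have h1 := h.pmv T hx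
    have e1 : jp T (ro x x) = a • ro x x := by
      rw [jp, hT, add_mul, mul_add, smul_mul_assoc, smul_mul_assoc, mul_smul_comm, mul_smul_comm,
        proj_mul_self hx, proj_mul, proj_mul, hxy, hyx, zero_smul, zero_smul, smul_zero, add_zero,
        ← two_smul ℂ (a • ro x x), smul_smul, inv_mul_cancel₀ (two_ne_zero : (2 : ℂ) ≠ 0),
        one_smul]
    have e2 : jp X (ro (pr x) (pr x)) = α • ro (pr x) (pr x) := by
      rw [jp, hc1, hXx, ← two_smul ℂ (α • _), smul_smul,
        inv_mul_cancel₀ (two_ne_zero : (2 : ℂ) ≠ 0), one_smul]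
    rw [← hX, e1, e2, hL.smul_ro, hL.smul_ro, h.val hx] at h1
    exact (smul_ro_inj hx' h1).symm
  have hβf : β = f b := by
    have h1 := h.pmv T hy
    have e1 : jp T (ro y y) = b • ro y y := by
      rw [jp, hT, add_mul, mul_add, smul_mul_assoc, smul_mul_assoc, mul_smul_comm, mul_smul_comm,
        proj_mul_self hy, proj_mul, proj_mul, hxy, hyx, zero_smul, zero_smul, smul_zero, zero_add,
        ← two_smul ℂ (b • ro y y), smul_smul, inv_mul_cancel₀ (two_ne_zero : (2 : ℂ) ≠ 0),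
        one_smul]
    have e2 : jp X (ro (pr y) (pr y)) = β • ro (pr y) (pr y) := by
      rw [jp, hc2, hXy, ← two_smul ℂ (β • _), smul_smul,
        inv_mul_cancel₀ (two_ne_zero : (2 : ℂ) ≠ 0), one_smul]
    rw [← hX, e1, e2, hL.smul_ro, hL.smul_ro, h.val hy] at h1
    exact (smul_ro_inj hy' h1).symm
  rw [hXs, hαf, hβf]

/-- the unit vectors `(x ± y)/√2` -/
lemma pm_vectors {x y : H} (hx : ‖x‖ = 1) (hy : ‖y‖ = 1) (hxy : inner ℂ x y = 0) :
    ∃ u v : H, ‖u‖ = 1 ∧ ‖v‖ = 1 ∧ inner ℂ u v = 0 ∧ ro x y + ro y x = ro u u - ro v v := by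
  have hyx := inner_swap_zero hxy
  set c : ℂ := ((Real.sqrt (1 / 2) : ℝ) : ℂ) with hc
  have hcn : ‖c‖ ^ 2 = 1 / 2 := by
    rw [hc, Complex.norm_real, Real.norm_eq_abs, sq_abs, Real.sq_sqrt (by norm_num)]
  have hcc : c * conj c = 1 / 2 := by
    rw [hc, Complex.conj_ofReal, ← Complex.ofReal_mul, Real.mul_self_sqrt (by norm_num)]
    simp
  have hcc2 : conj c * c = 1 / 2 := by rw [mul_comm, hcc]
  refine ⟨c • (x + y), c • (x - y), ?_, ?_, ?_, ?_⟩
  · have h3 : ‖c • (x + y)‖ ^ 2 = 1 := by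
      rw [norm_smul, mul_pow, hcn, @norm_add_sq ℂ, hxy, hx, hy]
      norm_num
    nlinarith [norm_nonneg (c • (x + y))]
  · have h3 : ‖c • (x - y)‖ ^ 2 = 1 := by
      rw [norm_smul, mul_pow, hcn, @norm_sub_sq ℂ, hxy, hx, hy]
      norm_num
    nlinarith [norm_nonneg (c • (x - y))]
  · rw [inner_smul_left, inner_smul_right, inner_add_left, inner_sub_right, inner_sub_right, hxy,
      hyx, inner_self_one hx, inner_self_one hy]
    ring
  · rw [ro_smul_left, ro_smul_right, ro_smul_left, ro_smul_right, smul_smul, smul_smul, hcc,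
      ← smul_sub, ro_add_left, ro_add_right, ro_add_right, ro_sub_left, ro_sub_right,
      ro_sub_right]
    have : ro x x + ro x y + (ro y x + ro y y) - (ro x x - ro x y - (ro y x - ro y y))
        = (2 : ℂ) • (ro x y + ro y x) := by
      rw [two_smul]
      abel
    rw [this, smul_smul]
    norm_num

/-- homogeneity on `R = x ⊗ y + y ⊗ x` -/
lemma phi_R {Φ : (H →L[ℂ] H) → H →L[ℂ] H} {pr : H → H} {f : ℂ → ℂ}
    (hfm : ∀ a b, f (a * b) = f a * f b) (hf1 : f 1 = 1)
    (hval : ∀ x y, ‖x‖ = 1 → ‖y‖ = 1 → inner ℂ x y = 0 → ∀ a b : ℂ, Φ (a • ro x x + b • ro y y)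
      = f a • ro (pr x) (pr x) + f b • ro (pr y) (pr y)) {x y : H} (hx : ‖x‖ = 1) (hy : ‖y‖ = 1)
    (hxy : inner ℂ x y = 0) :
    (∀ c : ℂ, Φ (c • (ro x y + ro y x)) = f c • Φ (ro x y + ro y x)) ∧
      IsSelfAdjoint (Φ (ro x y + ro y x)) := by
  obtain ⟨u, v, hu, hv, huv, hR⟩ := pm_vectors hx hy hxy
  have e : ∀ c : ℂ, c • (ro x y + ro y x) = c • ro u u + (c * (-1)) • ro v v := by
    intro c
    rw [hR, smul_sub, mul_neg_one, neg_smul, ← sub_eq_add_neg]
  have e1 := e 1
  rw [one_smul, one_mul] at e1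
  have h1 : Φ (ro x y + ro y x) = ro (pr u) (pr u) + f (-1) • ro (pr v) (pr v) := by
    rw [e1, hval u v hu hv huv, hf1, one_smul]
  refine ⟨fun c => ?_, ?_⟩
  · rw [e, hval u v hu hv huv, h1, smul_add, smul_smul, hfm]
  · have h2 : f (-1) * f (-1) = 1 := by
      rw [← hfm, show (-1 : ℂ) * -1 = 1 by norm_num, hf1]
    have h3 : star (f (-1)) = f (-1) := by
      have h4 : (f (-1) - 1) * (f (-1) + 1) = 0 := by linear_combination h2
      rcases mul_eq_zero.1 h4 with h | h
      · rw [sub_eq_zero.1 h, star_one]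
      · rw [eq_neg_of_add_eq_zero_left h, star_neg, star_one]
    rw [h1, IsSelfAdjoint, star_add, star_smul, star_ro, star_ro, h3]

lemma R_ne_zero {x y : H} (hx : ‖x‖ = 1) (hy : ‖y‖ = 1) (hxy : inner ℂ x y = 0) :
    ro x y + ro y x ≠ 0 := by
  intro h
  have h1 := congrArg (fun T : H →L[ℂ] H => T x) h
  simp only [_root_.add_apply, ro_apply, inner_self_one hx, inner_swap_zero hxy, zero_smul,
    one_smul, zero_add, _root_.zero_apply] at h1
  exact ne_zero_of_unit hy h1

theorem ja_proof : T_JA := by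
  intro H _ _ _ L Φ m r pr f h horth hval
  have hL := h.j1.lm
  obtain ⟨x, y, hx, hy, hxy⟩ := h.j1.two
  have hyx := inner_swap_zero hxy
  obtain ⟨hRc, hRs⟩ := phi_R h.fm h.f1 hval hx hy hxy
  set R := ro x y + ro y x with hR
  have hRsa : IsSelfAdjoint R := by
    rw [IsSelfAdjoint, hR, star_add, star_ro, star_ro, add_comm]
  have hRne : Φ R ≠ 0 := by
    intro h0
    exact R_ne_zero hx hy hxy (h.j1.bij.1 (h0.trans h.j1.zero.symm))
  set R1 := R + (1 - ro x x - ro y y) with hR1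
  have hR1sy : IsSy R1 := by
    constructor
    · rw [IsSelfAdjoint, hR1, star_add, star_sub, star_sub, hRsa.star_eq, star_one, star_ro,
        star_ro]
    · rw [hR1, hR]
      simp only [mul_add, add_mul, mul_sub, sub_mul, ro_mul_ro, hxy, hyx, inner_self_one hx,
        inner_self_one hy, one_smul, zero_smul, mul_one, one_mul]
      abel
  have hjp : ∀ a b : ℂ, jp (a • ro x x + b • ro y y) R1 = ((a + b) / 2) • R := by
    intro a b
    rw [jp, hR1, hR]
    simp only [mul_add, add_mul, mul_sub, sub_mul, ro_mul_ro, hxy, hyx, inner_self_one hx,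
      inner_self_one hy, one_smul, zero_smul, mul_one, one_mul, smul_mul_assoc, mul_smul_comm,
      smul_zero, add_zero, zero_add, sub_zero, sub_self]
    module
  have hmain : ∀ a b : ℂ, L (jp (f a • ro (pr x) (pr x) + f b • ro (pr y) (pr y)) (Φ R1))
      = f ((a + b) / 2) • Φ R := by
    intro a b
    have h1 := h.j1.js (a • ro x x + b • ro y y) R1 hR1sy
    rw [hval x y hx hy hxy, hjp, hL.hom, hL.sel hRsa, hRc] at h1
    exact h1
  have hS := ((h.j1.sy R1).1 hR1sy).1
  have hx1 := hmain 1 0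
  rw [h.f1, h.f0, one_smul, zero_smul, add_zero, hL.sel (jp_sa (ro_self_sa _) hS), add_zero] at hx1
  have hy1 := hmain 0 1
  rw [h.f1, h.f0, one_smul, zero_smul, zero_add, hL.sel (jp_sa (ro_self_sa _) hS), zero_add] at hy1
  have hgen : ∀ a b : ℂ, (f a + f b) * f (1 / 2) = f ((a + b) / 2) := by
    intro a b
    have h1 := hmain a b
    rw [add_jp, smul_jp, smul_jp, hx1, hy1, smul_smul, smul_smul, ← add_smul, ← add_mul, hL.hom,
      hL.sel hRs] at h1
    have h2 : ((f a + f b) * f (1 / 2) - f ((a + b) / 2)) • Φ R = 0 := by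
      rw [sub_smul, h1, sub_self]
    exact sub_eq_zero.1 ((smul_eq_zero.1 h2).resolve_right hRne)
  have hhalf : 2 * f (1 / 2) = 1 := by
    have := hgen 1 1
    rw [h.f1, show ((1 : ℂ) + 1) / 2 = 1 by norm_num, h.f1] at this
    linear_combination this
  intro a b
  have h1 := hgen a b
  rw [show (a + b) / 2 = (1 / 2) * (a + b) by ring, h.fm] at h1
  have hne : f (1 / 2) ≠ 0 := by
    intro h0
    rw [h0, mul_zero] at hhalf
    exact zero_ne_one hhalf
  rw [mul_comm] at h1
  exact (mul_left_cancel₀ hne h1).symm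

theorem jq_proof (hfld : T_FLD) : T_JQ := by
  intro H _ _ _ L Φ m r pr f h horth hval hadd
  have hL := h.j1.lm
  apply hfld f h.fm hadd h.f1
  refine ⟨1 / 8, by norm_num, fun c hc0 hc1 => ?_⟩
  obtain ⟨x, z, hx, hz, hxz⟩ := h.j1.two
  have hzx := inner_swap_zero hxz
  obtain ⟨hRc, hRs⟩ := phi_R h.fm h.f1 hval hx hz hxz
  set R := ro x z + ro z x with hR
  set A := Real.sqrt (1 + 8 * c) with hA
  set B := Real.sqrt (1 - 8 * c) with hB
  have hA2 : A * A = 1 + 8 * c := Real.mul_self_sqrt (by linarith)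
  have hB2 : B * B = 1 - 8 * c := Real.mul_self_sqrt (by linarith)
  set α : ℝ := (A + B) / 2 with hα
  set β : ℝ := (A - B) / 2 with hβ
  have h1 : α ^ 2 + β ^ 2 = 1 := by rw [hα, hβ]; nlinarith
  have h2 : α * β = 4 * c := by rw [hα, hβ]; nlinarith
  set y := (α : ℂ) • x + (β : ℂ) • z with hy
  have hyn : ‖y‖ = 1 := by
    have h3 : ‖y‖ ^ 2 = 1 := by
      rw [hy, @norm_add_sq ℂ, norm_smul, norm_smul, inner_smul_left, inner_smul_right, hxz, hx, hz,
        Complex.norm_real, Complex.norm_real, Real.norm_eq_abs, Real.norm_eq_abs, mul_one, mul_one,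
        sq_abs, sq_abs]
      simpa using h1
    nlinarith [norm_nonneg y]
  have hQ := h.pp hx hyn
  set Q := jp (ro y y) (ro x x) with hQd
  have h4 := h.pmv Q hz
  rw [hQ] at h4
  have h5 : jp Q (ro z z) = (c : ℂ) • R := by
    have e1 : inner ℂ y x = (α : ℂ) := by
      rw [hy, inner_add_left, inner_smul_left, inner_smul_left, inner_self_one hx, hzx]
      simp
    have e2 : inner ℂ x y = (α : ℂ) := by
      rw [hy, inner_add_right, inner_smul_right, inner_smul_right, inner_self_one hx, hxz]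
      simp
    have e3 : inner ℂ y z = (β : ℂ) := by
      rw [hy, inner_add_left, inner_smul_left, inner_smul_left, inner_self_one hz, hxz]
      simp
    have e4 : inner ℂ z y = (β : ℂ) := by
      rw [hy, inner_add_right, inner_smul_right, inner_smul_right, inner_self_one hz, hzx]
      simp
    rw [hQd]
    simp only [jp, proj_mul, e1, e2, smul_mul_assoc, mul_smul_comm, add_mul, mul_add, ro_mul_ro,
      e3, e4, hxz, hzx, zero_smul, smul_zero, zero_add, add_zero]
    rw [hR, ← smul_add, ← smul_add, ← smul_add, smul_smul, smul_smul, smul_smul]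
    congr 1
    have h6 : (α : ℂ) * β = 4 * c := by exact_mod_cast h2
    linear_combination (1 / 4) * h6
  have hRsa : IsSelfAdjoint R := by
    rw [IsSelfAdjoint, hR, star_add, star_ro, star_ro, add_comm]
  have hRne : Φ R ≠ 0 := by
    intro h0
    exact R_ne_zero hx hz hxz (h.j1.bij.1 (h0.trans h.j1.zero.symm))
  have hsa : IsSelfAdjoint (jp (jp (ro (pr y) (pr y)) (ro (pr x) (pr x))) (ro (pr z) (pr z))) :=
    jp_sa (jp_sa (ro_self_sa _) (ro_self_sa _)) (ro_self_sa _)
  rw [h5, hL.hom, hL.sel hRsa, hRc, hL.sel hsa] at h4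
  have h6 := hsa.star_eq
  rw [← h4, star_smul, hRs.star_eq] at h6
  have h7 : (star (f c) - f c) • Φ R = 0 := by rw [sub_smul, h6, sub_self]
  have h8 := sub_eq_zero.1 ((smul_eq_zero.1 h7).resolve_right hRne)
  exact Complex.conj_eq_iff_im.1 h8

theorem jw_proof (hsp : T_SP2) (htr : T_TR) : T_JW := by
  intro H _ _ _ L Φ m r pr f h horth hval hf x y hx hy
  have hx' := h.ry.nrm x hx
  have hy' := h.ry.nrm y hy
  by_cases hpp : ro x x = ro y y
  · have h1 : ro (pr x) (pr x) = ro (pr y) (pr y) := by rw [← h.val1 hx, hpp, h.val1 hy]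
    rw [(ro_eq_iff hx hy).1 hpp, (ro_eq_iff hx' hy').1 h1]
  · set w := y - inner ℂ x y • x with hw
    have hw0 : w ≠ 0 := by
      intro h0
      apply hpp
      have h1 := sub_eq_zero.1 h0
      have h2 : ‖inner ℂ x y‖ = 1 := by
        have := congrArg norm h1
        rw [norm_smul, hx, hy, mul_one] at this
        exact this.symm
      exact (ro_eq_iff hx hy).2 h2
    obtain ⟨z, hz, hwz⟩ := exists_unit hw0
    have hwn : (‖w‖ : ℂ) ≠ 0 := by
      rw [Ne, Complex.ofReal_eq_zero, norm_eq_zero]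
      exact hw0
    have hxw : inner ℂ x w = 0 := by
      rw [hw, inner_sub_right, inner_smul_right, inner_self_one hx]
      ring
    have hxz : inner ℂ x z = 0 := by
      rw [hwz, inner_smul_right] at hxw
      exact (mul_eq_zero.1 hxw).resolve_left hwn
    have hzx := inner_swap_zero hxz
    have hyd : y = inner ℂ x y • x + (‖w‖ : ℂ) • z := by
      rw [← hwz, hw]
      abel
    set E := ro x x + ro z z with hE
    have hEs : star E = E := by rw [hE, star_add, star_ro, star_ro]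
    have hEx : E x = x := by simp [hE, hzx, hx]
    have hEz : E z = z := by simp [hE, hxz, hz]
    have hEy : E y = y := by
      rw [hyd, map_add, map_smul, map_smul, hEx, hEz]
    set Q := jp (ro y y) (ro x x) with hQ
    have hQsa : IsSelfAdjoint Q := jp_sa (ro_self_sa _) (ro_self_sa _)
    have hgen : ∀ E : H →L[ℂ] H, star E = E → E x = x → E y = y → E * Q * E = Q := by
      intro E hEs hEx hEy
      rw [hQ, jp, proj_mul, proj_mul, mul_smul_comm, smul_mul_assoc, mul_add, add_mul,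
        mul_smul_comm, mul_smul_comm, smul_mul_assoc, smul_mul_assoc, mul_ro, mul_ro, ro_mul,
        ro_mul, hEs, hEx, hEy]
    have hQE : E * Q * E = Q := hgen E hEs hEx hEy
    obtain ⟨u, v, a, b, hu, hv, huv, -, hQuv⟩ := hsp H x z Q hx hz hxz hQsa hQE
    obtain ⟨⟨tr, ht⟩, hFro, hFadd, hFsm, -, -⟩ := htr H
    have ht1 : ∀ c d p q : H, ∀ s t : ℂ, tr (s • ro c d + t • ro p q)
        = s * inner ℂ d c + t * inner ℂ q p := by
      intro c d p q s t
      rw [ht.add _ _ (hFsm _ _ (hFro _ _)) (hFsm _ _ (hFro _ _)), ht.smul _ _ (hFro _ _),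
        ht.smul _ _ (hFro _ _), ht.rk, ht.rk]
    have htQ : ∀ p q : H, tr (jp (ro p p) (ro q q)) = ((‖inner ℂ q p‖ ^ 2 : ℝ) : ℂ) := by
      intro p q
      rw [jp, proj_mul, proj_mul, smul_add, smul_smul, smul_smul, ht1, ← mul_conj_norm]
      ring
    have hfr : ∀ s : ℝ, f s = s := by
      intro s
      rcases hf with hf | hf
      · exact hf s
      · rw [hf s, Complex.conj_ofReal]
    have hΦ := h.pp hx hy
    have h1 := htQ y x
    have h2 := htQ (pr y) (pr x)
    rw [← hΦ, ← hQ, hQuv, hval u v hu hv huv, ht1, hfr, hfr, inner_self_one (h.ry.nrm u hu),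
      inner_self_one (h.ry.nrm v hv)] at h2
    rw [← hQ, hQuv, ht1, inner_self_one hu, inner_self_one hv] at h1
    rw [h1] at h2
    have h3 : ‖inner ℂ x y‖ ^ 2 = ‖inner ℂ (pr x) (pr y)‖ ^ 2 := by exact_mod_cast h2
    exact ((pow_left_inj₀ (norm_nonneg _) (norm_nonneg _) two_ne_zero).1 h3).symm

end Pool.Agent.H48.MT
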