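import Pool.Agent.H48.MT.M8

/-!
# MP_c80a4f_an: modules E2 E4 FI0 FI1 KR0 KR1 P3O
-/

set_option linter.unusedSectionVars false

open InnerProductSpace Filter Topology
open scoped ComplexConjugate

namespace Pool.Agent.H48.MT

variable {H : Type} [NormedAddCommGroup H] [InnerProductSpace ℂ H] [CompleteSpace H]

/-- trace of `A ∘ (u ⊗ v)` -/
lemma tr_jp {tr : (H →L[ℂ] H) → ℂ} (ht : IsTr tr) (hFro : ∀ x y : H, FR (ro x y))
    (hFsm : ∀ (c : ℂ) (X : H →L[ℂ] H), FR X → FR (c • X)) (hFadd : ∀ X Y : H →L[ℂ] H, FR X → FR Y → FR (X + Y))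
    (A : H →L[ℂ] H) (u v : H) :
    FR (jp A (ro u v)) ∧ tr (jp A (ro u v)) = inner ℂ v (A u) := by
  have e : inner ℂ (star A v) u = inner ℂ v (A u) := by
    rw [ContinuousLinearMap.star_eq_adjoint, ContinuousLinearMap.adjoint_inner_left]
  rw [jp_ro]
  refine ⟨hFsm _ _ (hFadd _ _ (hFro _ _) (hFro _ _)), ?_⟩
  rw [ht.smul _ _ (hFadd _ _ (hFro _ _) (hFro _ _)), ht.add _ _ (hFro _ _) (hFro _ _), ht.rk,
    ht.rk, e]
  ring

/-- two vectors with equal inner products against all `v` not orthogonal to `u` -/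
lemma eq_of_dense {u a b : H} (hu : u ≠ 0)
    (h : ∀ v, inner ℂ v u ≠ 0 → inner ℂ v a = inner ℂ v b) : a = b := by
  have huu : inner ℂ u u ≠ 0 := inner_self_ne_zero.2 hu
  have h1 := h u huu
  have h2 : ∀ v, inner ℂ v a = inner ℂ v b := by
    intro v
    by_cases hv : inner ℂ v u = 0
    · have h3 := h (v + u) (by rw [inner_add_left, hv, zero_add]; exact huu)
      rw [inner_add_left, inner_add_left, h1] at h3
      exact add_right_cancel h3
    · exact h v hv
  exact ext_inner_left ℂ h2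

theorem e2_proof (htr : T_TR) : T_E2 := by
  intro H _ _ _ L Φ m hJ B u b hBu
  have hL := hJ.lm
  obtain ⟨⟨tr, ht⟩, hFro, hFadd, hFsm, -, -⟩ := htr H
  by_cases hu : u = 0
  · rw [hu]
    simp
  rw [← hBu]
  apply eq_of_dense hu
  intro v hv
  have hv' : inner ℂ u v ≠ 0 := by
    rw [← inner_conj_symm, Ne, map_eq_zero]
    exact hv
  have h1 := hJ.mul B (ro u v) (hJ.r1 u v hv) (by rw [star_ro]; exact hJ.r1 v u hv')
  have h2 : jp B (ro u v) = ro ((2 : ℂ)⁻¹ • u) (conj b • v + star B v) := by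
    rw [jp_ro, hBu, ro_smul_left, ro_smul_left, ro_add_right, ro_smul_right, Complex.conj_conj]
  rw [h2, hJ.r2, ← h2] at h1
  obtain ⟨hf1, ht1⟩ := tr_jp ht hFro hFsm hFadd (Φ B) u v
  obtain ⟨hf2, ht2⟩ := tr_jp ht hFro hFsm hFadd B u v
  rw [← ht1, ← ht2, ← (hL.trc tr ht _ hf1).2, h1, (hL.trc tr ht _ hf2).2]

theorem e4_proof (htr : T_TR) : T_E4 := by
  intro H _ _ _ L Φ m hJ hE2 hE3 B
  have hL := hJ.lm
  obtain ⟨⟨tr, ht⟩, hFro, hFadd, hFsm, -, -⟩ := htr H
  by_cases hB : B * B = 0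
  · ext u
    by_cases hBu : B u = 0
    · rw [hE2 B u 0 (by rw [hBu, zero_smul]), hBu, zero_smul]
    · have hu : u ≠ 0 := by
        intro h0
        rw [h0, map_zero] at hBu
        exact hBu rfl
      -- equality for v with both inner products nonzero
      have key : ∀ v, inner ℂ v u ≠ 0 → inner ℂ v (B u) ≠ 0 →
          inner ℂ v (Φ B u) = inner ℂ v (B u) := by
        intro v hv hvB
        have hv' : inner ℂ u v ≠ 0 := by
          rw [← inner_conj_symm, Ne, map_eq_zero]
          exact hv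
        have h1 := hJ.mul B (ro u v) (hJ.r1 u v hv) (by rw [star_ro]; exact hJ.r1 v u hv')
        obtain ⟨hf1, ht1⟩ := tr_jp ht hFro hFsm hFadd (Φ B) u v
        obtain ⟨hf2, ht2⟩ := tr_jp ht hFro hFsm hFadd B u v
        have h3 : jp B (ro u v) * jp B (ro u v) ≠ 0 := by
          intro h0
          have := ht.nil _ 2 hf2 (by rw [pow_two, h0])
          rw [ht2] at this
          exact hvB this
        have h4 : Φ (L (jp B (ro u v))) = L (jp B (ro u v)) := by rw [hJ.com, hE3 _ h3]
        rw [h4] at h1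
        rw [← ht1, ← ht2, ← (hL.trc tr ht _ hf1).2, h1, (hL.trc tr ht _ hf2).2]
      have huu : inner ℂ u u ≠ 0 := inner_self_ne_zero.2 hu
      have hBB : inner ℂ (B u) (B u) ≠ 0 := inner_self_ne_zero.2 hBu
      -- an admissible vector
      obtain ⟨v0, hv0, hv0B⟩ : ∃ v0, inner ℂ v0 u ≠ 0 ∧ inner ℂ v0 (B u) ≠ 0 := by
        by_cases h1 : inner ℂ u (B u) = 0
        · refine ⟨u + B u, ?_, ?_⟩
          · rw [inner_add_left, inner_swap_zero h1, add_zero]
            exact huu
          · rw [inner_add_left, h1, zero_add]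
            exact hBB
        · exact ⟨u, huu, h1⟩
      have h0 := key v0 hv0 hv0B
      apply ext_inner_left ℂ
      intro v
      -- choose t with v + t v0 admissible
      obtain ⟨t, ht1, ht2⟩ : ∃ t : ℝ, inner ℂ (v + (t : ℂ) • v0) u ≠ 0 ∧
          inner ℂ (v + (t : ℂ) • v0) (B u) ≠ 0 := by
        by_contra hcon
        push Not at hcon
        have e1 : ∀ t : ℝ, inner ℂ (v + (t : ℂ) • v0) u = inner ℂ v u + t * inner ℂ v0 u := by
          intro t
          rw [inner_add_left, inner_smul_left, Complex.conj_ofReal]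
        have e2 : ∀ t : ℝ, inner ℂ (v + (t : ℂ) • v0) (B u)
            = inner ℂ v (B u) + t * inner ℂ v0 (B u) := by
          intro t
          rw [inner_add_left, inner_smul_left, Complex.conj_ofReal]
        have e3 : ∀ t : ℝ, (inner ℂ v u + t * inner ℂ v0 u)
            * (inner ℂ v (B u) + t * inner ℂ v0 (B u)) = 0 := by
          intro t
          by_cases h1 : inner ℂ (v + (t : ℂ) • v0) u = 0
          · rw [← e1, h1, zero_mul]
          · rw [← e2, hcon t h1, mul_zero]
        have a0 := e3 0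
        have a1 := e3 1
        have a2 := e3 (-1)
        push_cast at a0 a1 a2
        have : inner ℂ v0 u * inner ℂ v0 (B u) = 0 := by
          linear_combination (a1 + a2) / 2 - a0
        exact (mul_ne_zero hv0 hv0B) this
      have h2 := key _ ht1 ht2
      rw [inner_add_left, inner_add_left, inner_smul_left, inner_smul_left, h0] at h2
      exact add_right_cancel h2
  · exact hE3 B hB

lemma JN.f0 {L Φ : (H →L[ℂ] H) → H →L[ℂ] H} {m : Bool} {f : ℂ → ℂ} (h : JN L Φ m f) :
    f 0 = 0 := by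
  rcases h.fid with hf | hf <;> simp [hf]

lemma JN.f1 {L Φ : (H →L[ℂ] H) → H →L[ℂ] H} {m : Bool} {f : ℂ → ℂ} (h : JN L Φ m f) :
    f 1 = 1 := by
  rcases h.fid with hf | hf <;> simp [hf]

lemma JN.val1 {L Φ : (H →L[ℂ] H) → H →L[ℂ] H} {m : Bool} {f : ℂ → ℂ} (h : JN L Φ m f) {x : H}
    (hx : ‖x‖ = 1) : Φ (ro x x) = ro x x := by
  obtain ⟨y, hy, hxy⟩ := exists_orth h.two x hx
  have := h.val x y hx hy hxy 1 0
  rwa [h.f0, h.f1, zero_smul, one_smul, add_zero] at this

lemma JN.mulp {L Φ : (H →L[ℂ] H) → H →L[ℂ] H} {m : Bool} {f : ℂ → ℂ} (h : JN L Φ m f)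
    (B : H →L[ℂ] H) {x : H} (hx : ‖x‖ = 1) :
    L (jp (Φ B) (ro x x)) = Φ (L (jp B (ro x x))) :=
  h.mul B (ro x x) (h.val1 hx) (by rw [star_ro]; exact h.val1 hx)

lemma JN.zero_iff {L Φ : (H →L[ℂ] H) → H →L[ℂ] H} {m : Bool} {f : ℂ → ℂ} (h : JN L Φ m f)
    (B : H →L[ℂ] H) {x : H} (hx : ‖x‖ = 1) :
    L (jp B (ro x x)) = 0 ↔ L (jp (Φ B) (ro x x)) = 0 := by
  rw [h.mulp B hx]
  exact ⟨fun h1 => by rw [h1, h.zero], fun h1 => h.bij.1 (h1.trans h.zero.symm)⟩

theorem kr1_proof : T_KR1 := by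
  intro H _ _ _ L Φ f hJ B y
  by_cases hy0 : y = 0
  · rw [hy0]
    simp
  obtain ⟨z, hz, hyz⟩ := exists_unit hy0
  have hn : (‖y‖ : ℂ) ≠ 0 := by
    rw [Ne, Complex.ofReal_eq_zero, norm_eq_zero]
    exact hy0
  have hsc : ∀ T : H →L[ℂ] H, T y = 0 ↔ T z = 0 := by
    intro T
    rw [hyz, map_smul, smul_eq_zero, or_iff_right hn]
  rw [hsc, hsc, hsc, hsc]
  have key : ∀ C : H →L[ℂ] H, (C z = 0 ∧ star C z = 0) ↔ L (jp C (ro z z)) = 0 := by
    intro C
    rw [hJ.lm.ze1 rfl, jp_ro]
    constructor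
    · rintro ⟨h1, h2⟩
      rw [h1, h2]
      simp
    · intro h
      have h1 := (smul_eq_zero.1 h).resolve_left (by norm_num)
      have h2 := congrArg (fun T : H →L[ℂ] H => T z) h1
      simp only [_root_.add_apply, ro_apply, inner_self_one hz, one_smul, _root_.zero_apply] at h2
      have e : inner ℂ (star C z) z = inner ℂ z (C z) := by
        rw [ContinuousLinearMap.star_eq_adjoint, ContinuousLinearMap.adjoint_inner_left]
      rw [e] at h2
      have h3 := congrArg (fun w => inner ℂ z w) h2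
      simp only [inner_add_right, inner_smul_right, inner_self_one hz, mul_one,
        inner_zero_right] at h3
      have h4 : inner ℂ z (C z) = 0 := by linear_combination h3 / 2
      rw [h4, zero_smul, add_zero] at h2
      refine ⟨h2, ?_⟩
      rw [h2, ro_zero_left, zero_add, ro_eq_zero] at h1
      exact h1.resolve_left (ne_zero_of_unit hz)
  rw [key, key]
  exact hJ.zero_iff B hz

theorem kr0_proof (htr : T_TR) : T_KR0 := by
  intro H _ _ _ L Φ f hJ B y
  by_cases hy0 : y = 0
  · rw [hy0]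
    simp
  obtain ⟨⟨tr, ht⟩, hFro, hFadd, hFsm, -, -⟩ := htr H
  obtain ⟨z, hz, hyz⟩ := exists_unit hy0
  have hn : (‖y‖ : ℂ) ≠ 0 := by
    rw [Ne, Complex.ofReal_eq_zero, norm_eq_zero]
    exact hy0
  have hsc : ∀ T : H →L[ℂ] H, T y = 0 ↔ T z = 0 := by
    intro T
    rw [hyz, map_smul, smul_eq_zero, or_iff_right hn]
  rw [hsc, hsc, hsc, hsc]
  have key : ∀ C : H →L[ℂ] H, (C z = 0 ∨ star C z = 0) ↔ L (jp C (ro z z)) = 0 := by
    intro C
    rw [hJ.lm.ze0 rfl]
    have e : inner ℂ (star C z) z = inner ℂ z (C z) := by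
      rw [ContinuousLinearMap.star_eq_adjoint, ContinuousLinearMap.adjoint_inner_left]
    have e' : inner ℂ z (star C z) = inner ℂ (C z) z := by
      rw [ContinuousLinearMap.star_eq_adjoint, ContinuousLinearMap.adjoint_inner_right]
    have hsq : jp C (ro z z) * jp C (ro z z) = ((2 : ℂ)⁻¹ * (2 : ℂ)⁻¹) •
        (inner ℂ z (C z) • ro (C z) z + ro (C z) (star C z)
          + (inner ℂ (star C z) (C z) • ro z z + inner ℂ (star C z) z • ro z (star C z))) := by
      rw [jp_ro, smul_mul_smul_comm, add_mul, mul_add, mul_add, ro_mul_ro, ro_mul_ro, ro_mul_ro,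
        ro_mul_ro, inner_self_one hz, one_smul]
    constructor
    · rintro (h1 | h1)
      · rw [hsq, e, h1]
        simp
      · rw [hsq, ← e, h1]
        simp
    · intro h
      obtain ⟨hf, htc⟩ := tr_jp ht hFro hFsm hFadd C z z
      have h1 := ht.nil _ 2 hf (by rw [pow_two, h])
      rw [htc] at h1
      rw [hsq, e, h1] at h
      have h2 := (smul_eq_zero.1 h).resolve_left (by norm_num)
      simp only [zero_smul, zero_add, add_zero] at h2
      have h3 := congrArg (fun T : H →L[ℂ] H => T z) h2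
      simp only [_root_.add_apply, _root_.smul_apply, ro_apply, inner_self_one hz, one_smul,
        _root_.zero_apply, e, h1, zero_smul, zero_add] at h3
      have h4 := (smul_eq_zero.1 h3).resolve_right (ne_zero_of_unit hz)
      rw [h4, zero_smul, add_zero, ro_eq_zero] at h2
      exact h2
  rw [key, key]
  exact hJ.zero_iff B hz

/-- the vectors `(x ± i y)/√2` -/
lemma pmi_vectors {x y : H} (hx : ‖x‖ = 1) (hy : ‖y‖ = 1) (hxy : inner ℂ x y = 0) :
    ∃ u v : H, ‖u‖ = 1 ∧ ‖v‖ = 1 ∧ inner ℂ u v = 0 ∧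
      Complex.I • ro x y - Complex.I • ro y x = ro u u - ro v v ∧
      ro u u + ro v v = ro x x + ro y y := by
  have hyx := inner_swap_zero hxy
  set c : ℂ := ((Real.sqrt (1 / 2) : ℝ) : ℂ) with hc
  have hcn : ‖c‖ ^ 2 = 1 / 2 := by
    rw [hc, Complex.norm_real, Real.norm_eq_abs, sq_abs, Real.sq_sqrt (by norm_num)]
  have hcc : c * conj c = 1 / 2 := by
    rw [hc, Complex.conj_ofReal, ← Complex.ofReal_mul, Real.mul_self_sqrt (by norm_num)]
    simp
  have hI : Complex.I * Complex.I = -1 := Complex.I_mul_I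
  refine ⟨c • (x - Complex.I • y), c • (x + Complex.I • y), ?_, ?_, ?_, ?_, ?_⟩
  · have h3 : ‖c • (x - Complex.I • y)‖ ^ 2 = 1 := by
      rw [norm_smul, mul_pow, hcn, @norm_sub_sq ℂ, inner_smul_right, hxy, hx, norm_smul, hy]
      norm_num
    nlinarith [norm_nonneg (c • (x - Complex.I • y))]
  · have h3 : ‖c • (x + Complex.I • y)‖ ^ 2 = 1 := by
      rw [norm_smul, mul_pow, hcn, @norm_add_sq ℂ, inner_smul_right, hxy, hx, norm_smul, hy]
      norm_num
    nlinarith [norm_nonneg (c • (x + Complex.I • y))]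
  · rw [inner_smul_left, inner_smul_right, inner_add_right, inner_sub_left, inner_sub_left,
      inner_smul_left, inner_smul_right, inner_smul_right, inner_smul_left, hxy,
      hyx, inner_self_one hx, inner_self_one hy, Complex.conj_I]
    linear_combination (conj c * c) * hI
  · rw [ro_smul_left, ro_smul_right, ro_smul_left, ro_smul_right, smul_smul, smul_smul, hcc]
    simp only [ro_sub_left, ro_sub_right, ro_add_left, ro_add_right, ro_smul_left, ro_smul_right,
      Complex.conj_I, smul_smul]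
    module
  · rw [ro_smul_left, ro_smul_right, ro_smul_left, ro_smul_right, smul_smul, smul_smul, hcc]
    simp only [ro_sub_left, ro_sub_right, ro_add_left, ro_add_right, ro_smul_left, ro_smul_right,
      Complex.conj_I, smul_smul]
    have h5 : -Complex.I * Complex.I = 1 := by linear_combination -hI
    rw [smul_sub (-Complex.I), smul_add (-Complex.I), smul_smul (-Complex.I), h5, one_smul]
    module

theorem fi0_proof : T_FI0 := by
  intro H _ _ _ L Φ f hJ hr
  have hL := hJ.lm
  obtain ⟨x, y, hx, hy, hxy⟩ := hJ.two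
  have hyx := inner_swap_zero hxy
  rcases hJ.fid with hf | hf
  · exact hf
  exfalso
  -- B = x ⊗ (x + y)
  have hin : inner ℂ (x + y) x = 1 := by
    rw [inner_add_left, inner_self_one hx, hyx, add_zero]
  obtain ⟨c, hc1, hc2⟩ := hr x (x + y) (by rw [hin]; exact one_ne_zero)
  rw [hin, mul_one, hJ.f1] at hc2
  rw [hc2, one_smul] at hc1
  obtain ⟨u, v, hu, hv, huv, hR, hE⟩ := pmi_vectors hx hy hxy
  set R := Complex.I • ro x y - Complex.I • ro y x with hRd
  have hRs : star R = R := by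
    rw [hR, star_sub, star_ro, star_ro]
  have hRΦ : Φ R = R := by
    have h1 := hJ.val u v hu hv huv 1 (-1)
    have hfm : f (-1) = -1 := by rw [hf]; simp
    rw [hJ.f1, hfm, one_smul, neg_one_smul, ← sub_eq_add_neg, ← hR] at h1
    exact h1
  have h1 := hJ.mul (ro x (x + y)) R hRΦ (by rw [hRs]; exact hRΦ)
  have hjp : jp (ro x (x + y)) R = ((1 - Complex.I) / 2) • ro u u
      + ((-1 - Complex.I) / 2) • ro v v := by
    have e1 : ((1 - Complex.I) / 2) • ro u u + ((-1 - Complex.I) / 2) • ro v v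
        = (2 : ℂ)⁻¹ • (ro u u - ro v v) - (Complex.I / 2) • (ro u u + ro v v) := by module
    have e2 : ro x (x + y) * R = Complex.I • ro x y - Complex.I • ro x x := by
      rw [hRd, mul_sub, mul_smul_comm, mul_smul_comm, ro_mul_ro, ro_mul_ro, inner_add_left,
        inner_add_left, inner_self_one hx, inner_self_one hy, hxy, hyx, add_zero, zero_add,
        one_smul, one_smul]
    have e3 : R * ro x (x + y) = -(Complex.I • (ro y x + ro y y)) := by
      rw [hRd, sub_mul, smul_mul_assoc, smul_mul_assoc, ro_mul_ro, ro_mul_ro, hyx,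
        inner_self_one hx, zero_smul, smul_zero, one_smul, zero_sub, ro_add_right]
    rw [e1, ← hR, hE, jp, e2, e3, hRd]
    module
  rw [hc1, hjp, hL.nor _ (normal_pp hu hv huv _ _), hJ.val u v hu hv huv] at h1
  have h2 := congrArg (fun T : H →L[ℂ] H => inner ℂ u (T u)) h1
  have hvu := inner_swap_zero huv
  simp only [_root_.add_apply, _root_.smul_apply, ro_apply, inner_self_one hu, hvu, one_smul,
    zero_smul, smul_zero, add_zero, inner_smul_right, mul_one] at h2
  rw [hf] at h2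
  have h3 : (1 - Complex.I) / 2 = (1 + Complex.I) / 2 := by
    rw [h2, map_div₀, map_sub, map_one, Complex.conj_I, Complex.conj_ofNat, sub_neg_eq_add]
  have h4 : Complex.I = 0 := by linear_combination -h3
  exact Complex.I_ne_zero h4

/-- two vectors lie in a plane -/
lemma exists_plane (h2 : Two H) {x : H} (hx : ‖x‖ = 1) (y : H) :
    ∃ z : H, ‖z‖ = 1 ∧ inner ℂ x z = 0 ∧ (ro x x + ro z z) x = x ∧ (ro x x + ro z z) y = y := by
  by_cases hw0 : y - inner ℂ x y • x = 0
  · obtain ⟨z, hz, hxz⟩ := exists_orth h2 x hx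
    have hzx := inner_swap_zero hxz
    have hEx : (ro x x + ro z z) x = x := by simp [hzx, hx]
    refine ⟨z, hz, hxz, hEx, ?_⟩
    rw [sub_eq_zero.1 hw0, map_smul, hEx]
  · obtain ⟨z, hz, hwz⟩ := exists_unit hw0
    have hwn : (‖y - inner ℂ x y • x‖ : ℂ) ≠ 0 := by
      rw [Ne, Complex.ofReal_eq_zero, norm_eq_zero]
      exact hw0
    have hxw : inner ℂ x (y - inner ℂ x y • x) = 0 := by
      rw [inner_sub_right, inner_smul_right, inner_self_one hx]
      ring
    have hxz : inner ℂ x z = 0 := by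
      rw [hwz, inner_smul_right] at hxw
      exact (mul_eq_zero.1 hxw).resolve_left hwn
    have hzx := inner_swap_zero hxz
    have hEx : (ro x x + ro z z) x = x := by simp [hzx, hx]
    have hEz : (ro x x + ro z z) z = z := by simp [hxz, hz]
    refine ⟨z, hz, hxz, hEx, ?_⟩
    have hyd : y = inner ℂ x y • x + (‖y - inner ℂ x y • x‖ : ℂ) • z := by
      rw [← hwz]
      abel
    rw [hyd, map_add, map_smul, map_smul, hEx, hEz]

theorem fi1_proof (hns : T_NST) : T_FI1 := by
  intro H _ _ _ L Φ f hJ hr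
  have hL := hJ.lm
  rcases hJ.fid with hf | hf
  · exact hf
  exfalso
  obtain ⟨x, y, hx, hy, hne⟩ := hns H L true hL hJ.two
  obtain ⟨z, hz, hxz, hEx, hEy⟩ := exists_plane hJ.two hx y
  set E := ro x x + ro z z with hE
  have hEs : star E = E := by rw [hE, star_add, star_ro, star_ro]
  have h1 : E * ro x y * E = ro x y := by rw [mul_ro, ro_mul, hEs, hEx, hEy]
  have h2 : E * ro y y * E = ro y y := by rw [mul_ro, ro_mul, hEs, hEy]
  have hgen : ∀ E : H →L[ℂ] H, E * ro x y * E = ro x y → E * ro y y * E = ro y y →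
      E * L (ro x y) * E = L (ro x y) := by
    intro E h1 h2
    rw [hL.rk1u _ _ hy, mul_smul_comm, smul_mul_assoc, mul_add, add_mul, mul_smul_comm,
      smul_mul_assoc, h1, h2]
  have h3 : E * L (ro x y) * E = L (ro x y) := hgen E h1 h2
  have h4 := (hr x z (ro x y) hx hz hxz h1).2 hf
  have h5 := (hr x z (L (ro x y)) hx hz hxz h3).2 hf
  rw [hJ.com, h4] at h5
  exact hne h5

theorem p3o_proof : T_P3O := by
  intro H _ _ _ L Φ m hO
  have hL := hO.lm
  have hpos : ∀ {Φ : (H →L[ℂ] H) → H →L[ℂ] H}, O3 L Φ m → ∀ P : H →L[ℂ] H, 0 ≤ P → 0 ≤ Φ P := by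
    intro Φ hO P hP
    set A := CFC.sqrt P with hA
    have hA0 : 0 ≤ A := CFC.sqrt_nonneg P
    have hAs : star A = A := (IsSelfAdjoint.of_nonneg hA0).star_eq
    have hAA : A * A = P := CFC.sqrt_mul_sqrt_self P hP
    have h1 := hO.eq3 A A
    rw [hAs, jp_self, hAA, hL.sel (IsSelfAdjoint.of_nonneg hP)] at h1
    have h2 : 0 ≤ jp (Φ A) (star (Φ A)) := by
      rw [jp]
      have h3 : 0 ≤ Φ A * star (Φ A) + star (Φ A) * Φ A :=
        add_nonneg (mul_star_self_nonneg _) (star_mul_self_nonneg _)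
      have h4 : ((2 : ℂ)⁻¹ • (Φ A * star (Φ A) + star (Φ A) * Φ A) : H →L[ℂ] H)
          = (2 : ℝ)⁻¹ • (Φ A * star (Φ A) + star (Φ A) * Φ A) := by
        rw [← Complex.coe_smul]
        simp
      rw [h4]
      exact smul_nonneg (by norm_num) h3
    rw [hL.sel (IsSelfAdjoint.of_nonneg h2)] at h1
    rw [← h1]
    exact h2
  obtain ⟨Ψ, hO', hl, hr⟩ := hO.inv
  set F := Φ 1 with hF
  have hFs : star F = F := (IsSelfAdjoint.of_nonneg (hpos hO 1 zero_le_one)).star_eq
  have hFF : F * F = F := by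
    have h1 := hO.eq3 1 1
    rw [← hF, hFs, star_one, jp_self, jp_one, hL.one, ← hF] at h1
    have h2 : IsSelfAdjoint (F * F) := by rw [IsSelfAdjoint, star_mul, hFs]
    rwa [hL.sel h2] at h1
  have hker : ∀ z, F z = 0 → z = 0 := by
    intro z hz
    by_contra hz0
    obtain ⟨y, hy, hzy⟩ := exists_unit hz0
    have hn : (‖z‖ : ℂ) ≠ 0 := by
      rw [Ne, Complex.ofReal_eq_zero, norm_eq_zero]
      exact hz0
    have hFy : F y = 0 := by
      rw [hzy, map_smul] at hz
      exact (smul_eq_zero.1 hz).resolve_left hn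
    have hq : 0 ≤ ro y y := by
      have := star_mul_self_nonneg (ro y y)
      rwa [star_ro, proj_mul_self hy] at this
    have hB := hpos hO' _ hq
    have h1 := hO.eq3 1 (Ψ (ro y y))
    rw [hr, ← hF, star_ro, one_jp, (IsSelfAdjoint.of_nonneg hB).star_eq,
      hL.sel (IsSelfAdjoint.of_nonneg hB), hr] at h1
    have h2 : jp F (ro y y) = 0 := by
      rw [jp_ro, hFs, hFy]
      simp
    rw [h2, hL.zero] at h1
    exact ro_unit_ne_zero hy h1.symm
  ext z
  have h1 : F (F z - z) = 0 := by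
    rw [map_sub]
    have := congrArg (fun T : H →L[ℂ] H => T z) hFF
    simp only [_root_.mul_apply_eq_comp] at this
    rw [sub_eq_zero]
    exact this
  have h2 := hker _ h1
  simpa using sub_eq_zero.1 h2

end Pool.Agent.H48.MT
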