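import Pool.Agent.H48.MT.Targets2

/-!
# MP_c80a4f_an: auxiliary lemmas on unit vectors and rank one projections
-/

set_option linter.unusedSectionVars false

open InnerProductSpace Filter Topology
open scoped ComplexConjugate

namespace Pool.Agent.H48.MT

variable {H : Type} [NormedAddCommGroup H] [InnerProductSpace ℂ H] [CompleteSpace H]

lemma inner_self_one {x : H} (hx : ‖x‖ = 1) : inner ℂ x x = (1 : ℂ) := by
  rw [inner_self_eq_norm_sq_to_K, hx]
  simp

lemma ne_zero_of_unit {x : H} (hx : ‖x‖ = 1) : x ≠ 0 := by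
  intro h
  rw [h, norm_zero] at hx
  exact zero_ne_one hx

/-- every unit vector has an orthogonal unit vector -/
lemma exists_orth (h2 : Two H) (x : H) (hx : ‖x‖ = 1) : ∃ y : H, ‖y‖ = 1 ∧ inner ℂ x y = 0 := by
  have key : ∀ w : H, w - inner ℂ x w • x ≠ 0 → ∃ y : H, ‖y‖ = 1 ∧ inner ℂ x y = 0 := by
    intro w hw
    refine ⟨((‖w - inner ℂ x w • x‖⁻¹ : ℝ) : ℂ) • (w - inner ℂ x w • x), ?_, ?_⟩
    · rw [norm_smul, Complex.norm_real, norm_inv, norm_norm]
      exact inv_mul_cancel₀ (norm_ne_zero_iff.2 hw)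
    · rw [inner_smul_right, inner_sub_right, inner_smul_right, inner_self_one hx]
      simp
  obtain ⟨u, v, hu, hv, huv⟩ := h2
  by_cases h1 : u - inner ℂ x u • x = 0
  · by_cases h3 : v - inner ℂ x v • x = 0
    · exfalso
      have e1 := sub_eq_zero.1 h1
      have e3 := sub_eq_zero.1 h3
      rw [e1, e3, inner_smul_left, inner_smul_right, inner_self_one hx, mul_one] at huv
      rcases mul_eq_zero.1 huv with h | h
      · rw [map_eq_zero] at h
        rw [h, zero_smul] at e1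
        exact ne_zero_of_unit hu e1
      · rw [h, zero_smul] at e3
        exact ne_zero_of_unit hv e3
    · exact key v h3
  · exact key u h1

/-- Cauchy Schwarz, equality case for unit vectors -/
lemma eq_smul_of_norm_inner {x y : H} (hx : ‖x‖ = 1) (hy : ‖y‖ = 1) (h : ‖inner ℂ x y‖ = 1) :
    y = inner ℂ x y • x := by
  have h1 : ‖y - inner ℂ x y • x‖ ^ 2 = 0 := by
    rw [@norm_sub_sq ℂ, norm_smul, h, hx, hy, inner_smul_right, ← inner_conj_symm y x,
      RCLike.mul_conj, h]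
    norm_num
  have h2 := pow_eq_zero_iff (two_ne_zero) |>.1 h1
  exact sub_eq_zero.1 (norm_eq_zero.1 h2)

lemma ro_eq_of_smul {x y : H} {c : ℂ} (hc : ‖c‖ = 1) (h : y = c • x) : ro x x = ro y y := by
  rw [h, ro_smul_left, ro_smul_right, smul_smul, RCLike.mul_conj, hc]
  simp

lemma ro_eq_iff {x y : H} (hx : ‖x‖ = 1) (hy : ‖y‖ = 1) :
    ro x x = ro y y ↔ ‖inner ℂ x y‖ = 1 := by
  constructor
  · intro h
    have h1 := congrArg (fun T : H →L[ℂ] H => T x) h
    simp only [ro_apply, inner_self_one hx, one_smul] at h1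
    have h2 := congrArg norm h1
    rw [hx, norm_smul, hy, mul_one, norm_inner_symm] at h2
    exact h2.symm
  · intro h
    exact ro_eq_of_smul h (eq_smul_of_norm_inner hx hy h)

lemma ro_unit_ne_zero {x : H} (hx : ‖x‖ = 1) : ro x x ≠ 0 := by
  intro h
  rw [ro_eq_zero] at h
  exact ne_zero_of_unit hx (h.elim id id)

lemma smul_ro_inj {x : H} (hx : ‖x‖ = 1) {c d : ℂ} (h : c • ro x x = d • ro x x) : c = d := by
  have h1 := congrArg (fun T : H →L[ℂ] H => inner ℂ x (T x)) h
  have h2 : c = d ∨ x = 0 := by simpa [inner_self_one hx, inner_smul_right] using h1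
  exact h2.resolve_right (ne_zero_of_unit hx)

/-- nonzero multiples of rank one projections determine the projection and the factor -/
lemma smul_ro_eq {x y : H} (hx : ‖x‖ = 1) (hy : ‖y‖ = 1) {c d : ℂ} (hc : c ≠ 0)
    (h : c • ro x x = d • ro y y) : ro x x = ro y y ∧ c = d := by
  have hd : d ≠ 0 := by
    intro hd
    rw [hd, zero_smul, smul_eq_zero] at h
    exact h.elim hc (ro_unit_ne_zero hx)
  have h1 := congrArg (fun T : H →L[ℂ] H => T x) h
  simp only [_root_.smul_apply, ro_apply, inner_self_one hx, one_smul] at h1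
  have h2 : x = (c⁻¹ * (d * inner ℂ y x)) • y := by
    rw [← smul_smul, ← smul_smul, ← h1, smul_smul, inv_mul_cancel₀ hc, one_smul]
  have h3 : ‖c⁻¹ * (d * inner ℂ y x)‖ = 1 := by
    have := congrArg norm h2
    rw [norm_smul, hx, hy, mul_one] at this
    exact this.symm
  have h4 := ro_eq_of_smul h3 h2
  refine ⟨h4.symm, ?_⟩
  rw [h4] at h
  exact smul_ro_inj hx h

/-- unit vectors with prescribed transition probability -/
lemma exists_tp (h2 : Two H) (x : H) (hx : ‖x‖ = 1) (t : ℝ) (h0 : 0 ≤ t) (h1 : t ≤ 1) :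
    ∃ y : H, ‖y‖ = 1 ∧ ‖inner ℂ x y‖ ^ 2 = t := by
  obtain ⟨w, hw, hxw⟩ := exists_orth h2 x hx
  refine ⟨((Real.sqrt t : ℝ) : ℂ) • x + ((Real.sqrt (1 - t) : ℝ) : ℂ) • w, ?_, ?_⟩
  · have h3 : ‖((Real.sqrt t : ℝ) : ℂ) • x + ((Real.sqrt (1 - t) : ℝ) : ℂ) • w‖ ^ 2 = 1 := by
      rw [@norm_add_sq ℂ, norm_smul, norm_smul, inner_smul_left, inner_smul_right, hxw, hx, hw,
        Complex.norm_real, Complex.norm_real, Real.norm_eq_abs, Real.norm_eq_abs, mul_one, mul_one,
        sq_abs, sq_abs, Real.sq_sqrt h0, Real.sq_sqrt (by linarith)]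
      simp
    nlinarith [norm_nonneg (((Real.sqrt t : ℝ) : ℂ) • x + ((Real.sqrt (1 - t) : ℝ) : ℂ) • w)]
  · rw [inner_add_right, inner_smul_right, inner_smul_right, hxw, inner_self_one hx, mul_zero,
      add_zero, mul_one, Complex.norm_real, Real.norm_eq_abs, sq_abs, Real.sq_sqrt h0]

/-- a function on unit vectors which is constant along nonorthogonal pairs is constant -/
lemma const_of_nonorth {α : Type*} (f : H → α)
    (h : ∀ x y : H, ‖x‖ = 1 → ‖y‖ = 1 → inner ℂ x y ≠ 0 → f x = f y) :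
    ∀ x y : H, ‖x‖ = 1 → ‖y‖ = 1 → f x = f y := by
  intro x y hx hy
  by_cases hxy : inner ℂ x y = 0
  · have hyx : inner ℂ y x = 0 := by rw [← inner_conj_symm, hxy, map_zero]
    have hn : ‖x + y‖ ^ 2 = 2 := by
      rw [@norm_add_sq ℂ, hx, hy, hxy]
      norm_num
    have hn0 : ‖x + y‖ ≠ 0 := by
      intro h0
      rw [h0] at hn
      norm_num at hn
    have hz : ‖((‖x + y‖⁻¹ : ℝ) : ℂ) • (x + y)‖ = 1 := by
      rw [norm_smul, Complex.norm_real, norm_inv, norm_norm]
      exact inv_mul_cancel₀ hn0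
    have hc : ((‖x + y‖⁻¹ : ℝ) : ℂ) ≠ 0 := by
      rw [Ne, Complex.ofReal_eq_zero]
      exact inv_ne_zero hn0
    rw [h x _ hx hz, ← h y _ hy hz]
    · rw [inner_smul_right, inner_add_right, hyx, inner_self_one hy, zero_add, mul_one]
      exact hc
    · rw [inner_smul_right, inner_add_right, hxy, inner_self_one hx, add_zero, mul_one]
      exact hc
  · exact h x y hx hy hxy

lemma Lm.rk0u {L : (H →L[ℂ] H) → H →L[ℂ] H} (h : Lm L false) (x y : H) (hy : ‖y‖ = 1) :
    L (ro x y) = inner ℂ y x • ro y y := by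
  rw [h.rk0 rfl x y (ne_zero_of_unit hy), hy]
  simp

lemma Lm.rk1u {L : (H →L[ℂ] H) → H →L[ℂ] H} (h : Lm L true) (x y : H) (hy : ‖y‖ = 1) :
    L (ro x y) = (2 : ℂ)⁻¹ • (ro x y + inner ℂ y x • ro y y) := by
  rw [h.rk1 rfl x y (ne_zero_of_unit hy), hy]
  simp

lemma proj_mul (x y : H) : ro x x * ro y y = inner ℂ x y • ro x y := ro_mul_ro x x y y

lemma proj_mul_self {x : H} (hx : ‖x‖ = 1) : ro x x * ro x x = ro x x := by
  rw [proj_mul, inner_self_one hx, one_smul]

lemma proj_pow {x : H} (hx : ‖x‖ = 1) {n : ℕ} (hn : 1 ≤ n) : ro x x ^ n = ro x x := by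
  induction n, hn using Nat.le_induction with
  | base => simp
  | succ n _ ih => rw [pow_succ, ih, proj_mul_self hx]

lemma smul_proj_pow {x : H} (hx : ‖x‖ = 1) (c : ℂ) {n : ℕ} (hn : 1 ≤ n) :
    (c • ro x x) ^ n = c ^ n • ro x x := by rw [smul_pow, proj_pow hx hn]

/-- `p B p = ⟨B x, x⟩ p` -/
lemma proj_corner (x : H) (B : H →L[ℂ] H) :
    ro x x * B * ro x x = inner ℂ x (B x) • ro x x := by
  rw [mul_assoc, mul_ro, ro_mul_ro]

lemma mul_conj_norm (x y : H) : inner ℂ x y * inner ℂ y x = ((‖inner ℂ x y‖ ^ 2 : ℝ) : ℂ) := by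
  rw [← inner_conj_symm y x, RCLike.mul_conj]
  simp

lemma ro_self_apply {x : H} (hx : ‖x‖ = 1) : ro x x x = x := by
  rw [ro_apply, inner_self_one hx, one_smul]

/-- homogeneous normalization -/
lemma exists_unit {b : H} (hb : b ≠ 0) : ∃ y : H, ‖y‖ = 1 ∧ b = (‖b‖ : ℂ) • y := by
  have hn : ‖b‖ ≠ 0 := norm_ne_zero_iff.2 hb
  refine ⟨((‖b‖⁻¹ : ℝ) : ℂ) • b, ?_, ?_⟩
  · rw [norm_smul, Complex.norm_real, norm_inv, norm_norm]
    exact inv_mul_cancel₀ hn
  · rw [smul_smul, ← Complex.ofReal_mul, mul_inv_cancel₀ hn]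
    simp

/-- an operator mapping every vector to a multiple is a scalar -/
lemma scalar_of_eigen (S : H →L[ℂ] H) (h : ∀ x, ‖x‖ = 1 → ∃ c : ℂ, S x = c • x) (x y : H)
    (hx : ‖x‖ = 1) (hy : ‖y‖ = 1) (c d : ℂ) (hc : S x = c • x) (hd : S y = d • y) : c = d := by
  by_cases hp : ∃ a : ℂ, y = a • x
  · obtain ⟨a, ha⟩ := hp
    have ha0 : a ≠ 0 := by
      intro h0
      rw [h0, zero_smul] at ha
      exact ne_zero_of_unit hy ha
    rw [ha, map_smul, hc, smul_smul, smul_smul, mul_comm] at hd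
    have h3 : (c * a - d * a) • x = 0 := by rw [sub_smul, hd, sub_self]
    rcases smul_eq_zero.1 h3 with h4 | h4
    · have h5 : (c - d) * a = 0 := by rw [sub_mul, h4]
      exact sub_eq_zero.1 ((mul_eq_zero.1 h5).resolve_right ha0)
    · exact absurd h4 (ne_zero_of_unit hx)
  · -- x and y independent
    have hxy : x + y ≠ 0 := by
      intro h0
      apply hp
      exact ⟨-1, by rw [neg_one_smul]; exact (eq_neg_of_add_eq_zero_right h0)⟩
    obtain ⟨z, hz, hz2⟩ := exists_unit hxy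
    obtain ⟨e, he⟩ := h z hz
    have hS : S (x + y) = e • (x + y) := by
      rw [hz2, map_smul, he, smul_smul, smul_smul, mul_comm]
    rw [map_add, hc, hd, smul_add] at hS
    have h1 : (d - e) • y = (e - c) • x := by
      rw [sub_smul, sub_smul]
      have := hS
      calc d • y - e • y = (c • x + d • y) - c • x - e • y := by abel
        _ = _ := by rw [this]; abel
    have h2 : d - e = 0 := by
      by_contra h0
      apply hp
      refine ⟨(d - e)⁻¹ * (e - c), ?_⟩
      rw [← smul_smul, ← h1, smul_smul, inv_mul_cancel₀ h0, one_smul]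
    rw [h2, zero_smul] at h1
    have h3 := (smul_eq_zero.1 h1.symm).resolve_right (ne_zero_of_unit hx)
    rw [sub_eq_zero] at h2 h3
    rw [← h3, ← h2]

end Pool.Agent.H48.MT
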