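import Pool.Agent.H48.MT.Asm2
import Pool.Agent.H48.MT.M7
import Pool.Agent.H48.MT.M8
import Pool.Agent.H48.MT.M9
import Pool.Agent.H88.MT.J12
import Pool.Agent.H88.MT.P2M
import Pool.Agent.H88.MT.P2F
import Pool.Agent.H88.MT.FS1
import Pool.Agent.H99.MT.E3
import Pool.Agent.H99.MT.FS2
import Pool.Agent.H99.MT.NRK
import Pool.Agent.H97.MT.CO2
import Pool.Agent.H97.MT.SP2
import Pool.Agent.H92.MT.LLD
import Pool.Agent.H92.MT.ZL
import Pool.Agent.H38.MT.FLD
import Pool.Agent.H38.MT.GEN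
import Pool.Agent.H27.MT.UN

/-!
# MP_c80a4f_an: assembly, part 3: operations 2 and 3
-/

set_option linter.unusedSectionVars false

open InnerProductSpace Filter Topology
open scoped ComplexConjugate

namespace Pool.Agent.H48.MT

theorem T_LLD_holds : T_LLD := Pool.Agent.H92.MT.lld
theorem T_ZL_holds : T_ZL := Pool.Agent.H92.MT.zl T_LLD_holds
theorem T_P2M_holds : T_P2M := Pool.Agent.H88.MT.mt_P2M T_ZL_holds T_LLD_holds T_TR_holds
theorem T_FS2_holds : T_FS2 := Pool.Agent.H99.MT.FS2.fs2 T_TR_holds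
theorem T_P2F_holds : T_P2F := Pool.Agent.H88.MT.mt_P2F Pool.Agent.H88.MT.mt_FS1 T_FS2_holds
theorem T_J12_holds : T_J12 := Pool.Agent.H88.MT.mt_J12
theorem T_J13_holds : T_J13 := j13_proof Pool.Agent.H27.MT.un
theorem T_JS_holds : T_JS := js_proof jb_proof
theorem T_JQ_holds : T_JQ := jq_proof Pool.Agent.H38.MT.fld
theorem T_JW_holds : T_JW := jw_proof Pool.Agent.H97.MT.sp2 T_TR_holds
theorem T_E2_holds : T_E2 := e2_proof T_TR_holds
theorem T_E3_holds : T_E3 := Pool.Agent.H99.MT.E3.e3 T_TR_holds Pool.Agent.H38.MT.gen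
theorem T_E4_holds : T_E4 := e4_proof T_TR_holds
theorem T_KR0_holds : T_KR0 := kr0_proof T_TR_holds
theorem T_FI1_holds : T_FI1 := fi1_proof nst_proof

variable {H : Type} [NormedAddCommGroup H] [InnerProductSpace ℂ H] [CompleteSpace H]

/-- rank one operators are fixed implies the identity -/
lemma jf_id {L Φ : (H →L[ℂ] H) → H →L[ℂ] H} {m : Bool} (h : JF L Φ m) : ∀ B, Φ B = B := by
  have h2 := T_E2_holds H L Φ m h
  have h3 := T_E3_holds H L Φ m h h2
  exact T_E4_holds H L Φ m h h2 h3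

lemma jn_fixed_ray {L Φ : (H →L[ℂ] H) → H →L[ℂ] H} {m : Bool} {f : ℂ → ℂ} (h : JN L Φ m f)
    (hf : ∀ a, f a = a) (c : ℂ) (y : H) : Φ (c • ro y y) = c • ro y y := by
  by_cases hy : y = 0
  · rw [hy, ro_zero_left, smul_zero, h.zero]
  · obtain ⟨u, hu, hyu⟩ := exists_unit hy
    rw [hyu, ro_smul_left, ro_smul_right, smul_smul, smul_smul]
    obtain ⟨w, hw, huw⟩ := exists_orth h.two u hu
    have h1 := h.val u w hu hw huw (c * ((‖y‖ : ℂ) * conj (‖y‖ : ℂ))) 0
    rw [hf, hf, zero_smul, add_zero, ← mul_assoc] at h1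
    exact h1

lemma jn_jf {L Φ : (H →L[ℂ] H) → H →L[ℂ] H} {m : Bool} {f : ℂ → ℂ} (h : JN L Φ m f) :
    JF L Φ m := by
  cases m with
  | false =>
    have hk := T_KR0_holds H L Φ f h
    have hn := Pool.Agent.H99.MT.NRK.nrk H L Φ f h hk
    have hf := fi0_proof H L Φ f h hn
    refine ⟨h.lm, h.two, h.com, h.mul, fun x y hxy => ?_, fun x y => ?_⟩
    · obtain ⟨c, hc, hc2⟩ := hn x y hxy
      rw [hf] at hc2
      have : c = 1 := mul_right_cancel₀ hxy (by rw [hc2, one_mul])
      rw [hc, this, one_smul]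
    · by_cases hy : y = 0
      · rw [hy, ro_zero_right, h.lm.zero, h.zero]
      · rw [h.lm.rk0 rfl x y hy, jn_fixed_ray h hf]
  | true =>
    have hk := kr1_proof H L Φ f h
    have hn := Pool.Agent.H97.MT.co2 H L Φ f h hk
    have hf := T_FI1_holds H L Φ f h hn
    have key : ∀ x y : H, y ≠ 0 → ∀ a b : ℂ, Φ (a • ro x y + b • ro y y) = a • ro x y + b • ro y y := by
      intro x y hy a b
      obtain ⟨u, hu, hyu⟩ := exists_unit hy
      obtain ⟨z, hz, huz, hEu, hEx⟩ := exists_plane h.two hu x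
      refine (hn u z _ hu hz huz ?_).1 hf
      set E := ro u u + ro z z with hE
      have hEs : star E = E := by rw [hE, star_add, star_ro, star_ro]
      have hEy : E y = y := by rw [hyu, map_smul, hEu]
      have h1 : E * ro x y * E = ro x y := by rw [mul_ro, ro_mul, hEs, hEx, hEy]
      have h2 : E * ro y y * E = ro y y := by rw [mul_ro, ro_mul, hEs, hEy]
      show E * (a • ro x y + b • ro y y) * E = a • ro x y + b • ro y y
      clear_value E
      rw [mul_add, add_mul, mul_smul_comm, smul_mul_assoc, mul_smul_comm, smul_mul_assoc, h1, h2]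
    refine ⟨h.lm, h.two, h.com, h.mul, fun x y hxy => ?_, fun x y => ?_⟩
    · have hy : y ≠ 0 := by
        intro h0
        rw [h0, inner_zero_left] at hxy
        exact hxy rfl
      have := key x y hy 1 0
      rwa [one_smul, zero_smul, add_zero] at this
    · by_cases hy : y = 0
      · rw [hy, ro_zero_right, h.lm.zero, h.zero]
      · rw [h.lm.rk1 rfl x y hy, smul_add, smul_smul]
        exact key x y hy _ _

/-- from the rays to the conclusion -/
lemma j2_concl {L Φ : (H →L[ℂ] H) → H →L[ℂ] H} {m : Bool} {r : (H →L[ℂ] H) → H →L[ℂ] H}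
    {pr : H → H} {f : ℂ → ℂ} (h : J2 L Φ m r pr f) (hE : Eq2 L Φ ∨ Eq3 L Φ) :
    ∃ W : UA H, ∀ T, Φ T = cj W T := by
  obtain ⟨t1, t2⟩ := jt_proof H L Φ m r pr f h
  have ha := ja_proof H L Φ m r pr f h t1 t2
  have hq := T_JQ_holds H L Φ m r pr f h t1 t2 ha
  have hw := T_JW_holds H L Φ m r pr f h t1 t2 hq
  obtain ⟨W, hW⟩ := T_WIG_holds H pr h.ry.nrm hw h.ry.sur
  have hL := h.j1.lm
  have hJN : JN L (fun T => cj W.symm (Φ T)) m (fun c => W.s (f c)) := by
    refine
      { lm := hL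
        two := h.j1.two
        bij := (cj_bijective W.symm).comp h.j1.bij
        zero := ?_
        com := fun A => ?_
        fid := ?_
        val := fun x y hx hy hxy a b => ?_
        mul := fun A B hB hB' => ?_ }
    · show cj W.symm (Φ 0) = 0
      rw [h.j1.zero, cj_zero]
    · show cj W.symm (Φ (L A)) = L (cj W.symm (Φ A))
      rw [hL.cov, h.j1.com]
    · rcases W.hs with hs | hs <;> rcases hq with hq | hq
      · left
        intro a
        simp only [hs, hq]
      · right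
        intro a
        simp only [hs, hq]
      · right
        intro a
        simp only [hs, hq]
      · left
        intro a
        simp only [hs, hq, Complex.conj_conj]
    · show cj W.symm (Φ (a • ro x x + b • ro y y)) = W.s (f a) • ro x x + W.s (f b) • ro y y
      rw [t2 x y hx hy hxy, hW x hx, hW y hy, cj_add, cj_smul, cj_smul, ← cj_ro, ← cj_ro,
        cj_symm_cj, cj_symm_cj]
      rfl
    · have hB1 : cj W.symm (Φ B) = B := hB
      have hB2 : cj W.symm (Φ (star B)) = star B := hB'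
      show L (jp (cj W.symm (Φ A)) B) = cj W.symm (Φ (L (jp A B)))
      rcases hE with hE | hE
      · rw [← hE A B, ← hL.cov, cj_jp, hB1]
      · have h3 := hE A (star B)
        rw [star_star] at h3
        rw [← h3, ← hL.cov, cj_jp, cj_star, hB2, star_star]
  have h6 := jf_id (jn_jf hJN)
  refine ⟨W, fun T => ?_⟩
  have h7 : cj W.symm (Φ T) = T := h6 T
  have h8 := congrArg (cj W) h7
  rwa [cj_cj_symm] at h8

/-- from the first stage to the conclusion -/
lemma j1_concl {L Φ : (H →L[ℂ] H) → H →L[ℂ] H} {m : Bool} (h : J1 L Φ m)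
    (hE : Eq2 L Φ ∨ Eq3 L Φ)
    (hM : ∀ (pr : H → H) (f : H → ℂ → ℂ), Ry Φ pr f → ∀ x, ‖x‖ = 1 → f x 1 = 1 ∧
      (∀ a b, f x (a * b) = f x a * f x b) ∧ ∀ (A : H →L[ℂ] H) (s : ℂ),
        Φ (s • L (jp A (ro x x))) = f x s • L (jp (Φ A) (ro (pr x) (pr x)))) :
    ∃ W : UA H, ∀ T, Φ T = cj W T := by
  obtain ⟨r, hr⟩ := T_JS_holds H L Φ m h
  obtain ⟨pr, f, hry, hrp⟩ := jry_proof H L Φ m r h hr
  have hm := hM pr f hry
  have hc := jc_proof H L Φ m pr f h hry hm
  obtain ⟨x0, y0, hx0, hy0, hxy0⟩ := h.two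
  have h2 : J2 L Φ m r pr (f x0) := by
    refine
      { j1 := h
        jr := hr
        ry := ⟨hry.nrm, fun x hx c => ?_, hry.sur, hry.inj, fun x hx => hry.bjf x0 hx0,
          fun x hx => hry.zer x0 hx0⟩
        rp := hrp
        pm := fun A x s hx => ?_
        f1 := (hm x0 hx0).1
        fm := (hm x0 hx0).2.1 }
    · rw [hry.val x hx, hc x x0 hx hx0]
    · rw [(hm x hx).2.2 A s, hc x x0 hx hx0]
  exact j2_concl h2 hE

theorem op2_proof : T_OP2 := by
  intro H _ _ _ L Φ m h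
  have h1 : Φ 1 = 1 := by
    cases m with
    | false => exact T_P2F_holds H L Φ h
    | true => exact T_P2M_holds H L Φ h
  exact j1_concl (T_J12_holds H L Φ m h h1) (Or.inl h.eq2)
    fun pr f hr => jm2_proof H L Φ m pr f h h1 hr

theorem op3_proof : T_OP3 := by
  intro H _ _ _ L Φ m h
  have h1 : Φ 1 = 1 := p3o_proof H L Φ m h
  exact j1_concl (T_J13_holds H L Φ m h h1) (Or.inr h.eq3)
    fun pr f hr => jm3_proof H L Φ m pr f h h1 hr

end Pool.Agent.H48.MT
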