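import Pool.Agent.H48.MT.Asm3

/-!
# MP_c80a4f_an: assembly, part 4: the characterizations for operations 1 to 4
-/

set_option linter.unusedSectionVars false

open InnerProductSpace Filter Topology
open scoped ComplexConjugate

namespace Pool.Agent.H48.MT

variable {H : Type} [NormedAddCommGroup H] [InnerProductSpace ℂ H] [CompleteSpace H]

lemma uconj_of {α : ℂ} {Φ : (H →L[ℂ] H) → H →L[ℂ] H} (h : UConj α Φ) :
    ∃ W : UA H, (∀ c, W.s c = c) ∧ ∀ T, Φ T = α • cj W T := by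
  obtain ⟨U, hU⟩ := h
  refine ⟨UA.ofU U, fun c => rfl, fun T => ?_⟩
  ext y
  obtain ⟨x, rfl⟩ := U.surjective y
  rw [hU, _root_.smul_apply]
  congr 1
  exact (cj_U (UA.ofU U) T x).symm

lemma aconj_of {α : ℂ} {Φ : (H →L[ℂ] H) → H →L[ℂ] H} (h : AConj α Φ) :
    ∃ W : UA H, (∀ c, W.s c = conj c) ∧ ∀ T, Φ T = α • cj W T := by
  obtain ⟨U, hU⟩ := h
  refine ⟨UA.ofA U, fun c => rfl, fun T => ?_⟩
  ext y
  obtain ⟨x, rfl⟩ := U.surjective y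
  rw [hU, _root_.smul_apply]
  congr 1
  exact (cj_U (UA.ofA U) T x).symm

lemma to_uconj {α : ℂ} {Φ : (H →L[ℂ] H) → H →L[ℂ] H} (W : UA H) (hs : ∀ c, W.s c = c)
    (h : ∀ T, Φ T = α • cj W T) : UConj α Φ := by
  refine ⟨⟨⟨⟨⟨W.U, W.add⟩, fun c x => ?_⟩, W.U.symm, W.U.left_inv, W.U.right_inv⟩,
    W.nrm⟩, fun T x => ?_⟩
  · show W.U (c • x) = c • W.U x
    rw [W.smul, hs]
  · show Φ T (W.U x) = α • W.U (T x)
    rw [h, _root_.smul_apply, cj_U]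

lemma to_aconj {α : ℂ} {Φ : (H →L[ℂ] H) → H →L[ℂ] H} (W : UA H) (hs : ∀ c, W.s c = conj c)
    (h : ∀ T, Φ T = α • cj W T) : AConj α Φ := by
  refine ⟨⟨⟨⟨⟨W.U, W.add⟩, fun c x => ?_⟩, W.U.symm, W.U.left_inv, W.U.right_inv⟩,
    W.nrm⟩, fun T x => ?_⟩
  · show W.U (c • x) = conj c • W.U x
    rw [W.smul, hs]
  · show Φ T (W.U x) = α • W.U (T x)
    rw [h, _root_.smul_apply, cj_U]

theorem conj_iff {α : ℂ} {Φ : (H →L[ℂ] H) → H →L[ℂ] H} :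
    (UConj α Φ ∨ AConj α Φ) ↔ ∃ W : UA H, ∀ T, Φ T = α • cj W T := by
  constructor
  · rintro (h | h)
    · obtain ⟨W, -, h⟩ := uconj_of h
      exact ⟨W, h⟩
    · obtain ⟨W, -, h⟩ := aconj_of h
      exact ⟨W, h⟩
  · rintro ⟨W, h⟩
    rcases W.hs with hs | hs
    · exact Or.inl (to_uconj W hs h)
    · exact Or.inr (to_aconj W hs h)

lemma conj_bij {α : ℂ} (hα : α ≠ 0) {Φ : (H →L[ℂ] H) → H →L[ℂ] H} (W : UA H)
    (h : ∀ T, Φ T = α • cj W T) : Function.Bijective Φ := by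
  have h1 : Φ = fun T => α • cj W T := funext h
  rw [h1]
  exact bij_smul hα (cj_bijective W)

lemma eq4_of {n k : ℕ} {L Φ : (H →L[ℂ] H) → H →L[ℂ] H} {m : Bool} (hL : Lm L m) {α : ℂ}
    (hα : α ^ (n + k) = 1) (W : UA H) (h : ∀ T, Φ T = α • cj W T) : Eq4 n k L Φ := by
  intro A B
  rw [h A, h B, h, smul_op4, hL.hom, ← cj_pow, ← cj_pow, ← cj_mul, ← cj_mul, hL.cov, pow_succ, hα,
    one_mul]

lemma eq1_iff {L Φ : (H →L[ℂ] H) → H →L[ℂ] H} : Eq1 L Φ ↔ Eq4 1 0 L Φ := by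
  unfold Eq1 Eq4
  simp only [pow_one, pow_zero, mul_one]

/-- operation 4 -/
theorem iff4 {L : (H →L[ℂ] H) → H →L[ℂ] H} (hL : IsLam L) (h2 : Two H)
    (Φ : (H →L[ℂ] H) → H →L[ℂ] H) (n k : ℕ) (hnk : 1 ≤ n + k) :
    (Function.Bijective Φ ∧ Eq4 n k L Φ) ↔ ∃ α : ℂ, α ^ (n + k) = 1 ∧ (UConj α Φ ∨ AConj α Φ) := by
  obtain ⟨m, hm⟩ := lm_proof H L hL
  constructor
  · rintro ⟨hb, he⟩
    obtain ⟨α, W, hα, hW⟩ := op4_proof H n k L Φ m ⟨hm, h2, hnk, hb, he⟩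
    exact ⟨α, hα, conj_iff.2 ⟨W, hW⟩⟩
  · rintro ⟨α, hα, h⟩
    obtain ⟨W, hW⟩ := conj_iff.1 h
    have h0 : α ≠ 0 := by
      intro h0
      rw [h0, zero_pow (by omega)] at hα
      exact zero_ne_one hα
    exact ⟨conj_bij h0 W hW, eq4_of hm hα W hW⟩

/-- operation 1 -/
theorem iff1 {L : (H →L[ℂ] H) → H →L[ℂ] H} (hL : IsLam L) (h2 : Two H)
    (Φ : (H →L[ℂ] H) → H →L[ℂ] H) :
    (Function.Bijective Φ ∧ Eq1 L Φ) ↔ (UConj 1 Φ ∨ AConj 1 Φ) := by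
  rw [eq1_iff, iff4 hL h2 Φ 1 0 le_rfl]
  constructor
  · rintro ⟨α, hα, h⟩
    have h1 : α = 1 := by simpa using hα
    rwa [h1] at h
  · intro h
    exact ⟨1, one_pow _, h⟩

/-- operation 2 -/
theorem iff2 {L : (H →L[ℂ] H) → H →L[ℂ] H} (hL : IsLam L) (h2 : Two H)
    (Φ : (H →L[ℂ] H) → H →L[ℂ] H) :
    (Function.Bijective Φ ∧ Eq2 L Φ) ↔ (UConj 1 Φ ∨ AConj 1 Φ) := by
  obtain ⟨m, hm⟩ := lm_proof H L hL
  rw [conj_iff]
  constructor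
  · rintro ⟨hb, he⟩
    obtain ⟨W, hW⟩ := op2_proof H L Φ m ⟨hm, h2, hb, he⟩
    exact ⟨W, fun T => by rw [hW, one_smul]⟩
  · rintro ⟨W, hW⟩
    refine ⟨conj_bij one_ne_zero W hW, fun A B => ?_⟩
    simp only [hW, one_smul]
    rw [← cj_jp, hm.cov]

/-- operation 3 -/
theorem iff3 {L : (H →L[ℂ] H) → H →L[ℂ] H} (hL : IsLam L) (h2 : Two H)
    (Φ : (H →L[ℂ] H) → H →L[ℂ] H) :
    (Function.Bijective Φ ∧ Eq3 L Φ) ↔ (UConj 1 Φ ∨ AConj 1 Φ) := by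
  obtain ⟨m, hm⟩ := lm_proof H L hL
  rw [conj_iff]
  constructor
  · rintro ⟨hb, he⟩
    obtain ⟨W, hW⟩ := op3_proof H L Φ m ⟨hm, h2, hb, he⟩
    exact ⟨W, fun T => by rw [hW, one_smul]⟩
  · rintro ⟨W, hW⟩
    refine ⟨conj_bij one_ne_zero W hW, fun A B => ?_⟩
    simp only [hW, one_smul]
    rw [← cj_star, ← cj_jp, hm.cov]

/-- dimension at least two -/
theorem two_of_rank (h : 2 ≤ Module.rank ℂ H) : Two H := by
  have h1 : (1 : Cardinal) < Module.rank ℂ H := lt_of_lt_of_le (by norm_num) h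
  have h3 : ∃ u : H, u ≠ 0 := by
    by_contra hcon
    push Not at hcon
    have : Subsingleton H := ⟨fun a b => by rw [hcon a, hcon b]⟩
    rw [rank_subsingleton'] at h1
    exact absurd h1 (by norm_num)
  obtain ⟨u, hu⟩ := h3
  obtain ⟨x, hx, hux⟩ := exists_unit hu
  have h4 : ∃ v : H, v - inner ℂ x v • x ≠ 0 := by
    by_contra hcon
    push Not at hcon
    have h5 : Module.rank ℂ H ≤ 1 := by
      rw [rank_le_one_iff]
      exact ⟨x, fun v => ⟨inner ℂ x v, (sub_eq_zero.1 (hcon v)).symm⟩⟩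
    exact absurd h1 (not_lt.2 h5)
  obtain ⟨v, hv⟩ := h4
  obtain ⟨y, hy, hvy⟩ := exists_unit hv
  refine ⟨x, y, hx, hy, ?_⟩
  have h6 : inner ℂ x (v - inner ℂ x v • x) = 0 := by
    rw [inner_sub_right, inner_smul_right, inner_self_one hx]
    ring
  rw [hvy, inner_smul_right] at h6
  refine (mul_eq_zero.1 h6).resolve_left ?_
  rw [Complex.ofReal_eq_zero, norm_eq_zero]
  exact hv

end Pool.Agent.H48.MT
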