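import Pool.Agent.H48.MT.Defs

/-!
# MP_c80a4f_an: basic lemmas and the axiomatic description of the transforms

In the proof texts `⟨a, b⟩` is linear in `a`; it is `inner ℂ b a` of Lean. `x ⊗ y` is `ro x y`, the
operator `z ↦ ⟨z, y⟩ x`.
-/

set_option linter.unusedSectionVars false

open InnerProductSpace
open scoped ComplexConjugate

namespace Pool.Agent.H48.MT

variable {H : Type} [NormedAddCommGroup H] [InnerProductSpace ℂ H] [CompleteSpace H]

/-! ## Rank one operators -/

/-- `x ⊗ y : z ↦ ⟨z, y⟩ x` -/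
noncomputable def ro (x y : H) : H →L[ℂ] H := rankOne ℂ x y

@[simp] lemma ro_apply (x y z : H) : ro x y z = inner ℂ y z • x := rfl

lemma mul_ro (T : H →L[ℂ] H) (x y : H) : T * ro x y = ro (T x) y := by
  ext z
  simp [ro_apply]

lemma ro_mul (T : H →L[ℂ] H) (x y : H) : ro x y * T = ro x (star T y) := by
  ext z
  simp [ro_apply, ContinuousLinearMap.star_eq_adjoint, ContinuousLinearMap.adjoint_inner_left]

@[simp] lemma ro_mul_ro (x y z w : H) : ro x y * ro z w = inner ℂ y z • ro x w := by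
  rw [mul_ro]
  ext t
  simp [ro_apply, smul_smul, mul_comm]

@[simp] lemma star_ro (x y : H) : star (ro x y) = ro y x := by
  rw [ContinuousLinearMap.star_eq_adjoint]
  exact adjoint_rankOne x y

@[simp] lemma ro_smul_left (c : ℂ) (x y : H) : ro (c • x) y = c • ro x y := by
  ext t
  simp [ro_apply, smul_smul, mul_comm]

@[simp] lemma ro_smul_right (c : ℂ) (x y : H) : ro x (c • y) = conj c • ro x y := by
  ext t
  simp [ro_apply, smul_smul, mul_comm]

lemma ro_add_left (x x' y : H) : ro (x + x') y = ro x y + ro x' y := by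
  ext t
  simp [ro_apply]

lemma ro_add_right (x y y' : H) : ro x (y + y') = ro x y + ro x y' := by
  ext t
  simp [ro_apply, add_smul]

lemma ro_sub_left (x x' y : H) : ro (x - x') y = ro x y - ro x' y := by
  ext t
  simp [ro_apply, smul_sub]

lemma ro_sub_right (x y y' : H) : ro x (y - y') = ro x y - ro x y' := by
  ext t
  simp [ro_apply, sub_smul]

@[simp] lemma ro_zero_left (y : H) : ro (0 : H) y = 0 := by
  ext t
  simp [ro_apply]

@[simp] lemma ro_zero_right (x : H) : ro x (0 : H) = 0 := by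
  ext t
  simp [ro_apply]

@[simp] lemma ro_neg_left (x y : H) : ro (-x) y = -ro x y := by
  ext t
  simp [ro_apply]

@[simp] lemma ro_neg_right (x y : H) : ro x (-y) = -ro x y := by
  ext t
  simp [ro_apply]

@[simp] lemma norm_ro (x y : H) : ‖ro x y‖ = ‖x‖ * ‖y‖ := norm_rankOne x y

@[simp] lemma ro_eq_zero {x y : H} : ro x y = 0 ↔ x = 0 ∨ y = 0 := rankOne_eq_zero

/-! ## The Jordan product -/

lemma jp_comm (A B : H →L[ℂ] H) : jp A B = jp B A := by
  unfold jp
  rw [add_comm]

@[simp] lemma jp_self (A : H →L[ℂ] H) : jp A A = A * A := by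
  unfold jp
  rw [← two_smul ℂ (A * A), smul_smul]
  norm_num

@[simp] lemma jp_one (A : H →L[ℂ] H) : jp A 1 = A := by
  unfold jp
  rw [mul_one, one_mul, ← two_smul ℂ A, smul_smul]
  norm_num

@[simp] lemma one_jp (A : H →L[ℂ] H) : jp 1 A = A := by rw [jp_comm, jp_one]

@[simp] lemma jp_zero (A : H →L[ℂ] H) : jp A 0 = 0 := by simp [jp]

@[simp] lemma zero_jp (A : H →L[ℂ] H) : jp 0 A = 0 := by simp [jp]

lemma jp_smul (c : ℂ) (A B : H →L[ℂ] H) : jp A (c • B) = c • jp A B := by
  unfold jp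
  simp only [mul_smul_comm, smul_mul_assoc, smul_add, smul_smul, mul_comm]

lemma smul_jp (c : ℂ) (A B : H →L[ℂ] H) : jp (c • A) B = c • jp A B := by
  rw [jp_comm, jp_smul, jp_comm]

lemma jp_add (A B C : H →L[ℂ] H) : jp A (B + C) = jp A B + jp A C := by
  unfold jp
  rw [← smul_add, mul_add, add_mul]
  congr 1
  abel

lemma add_jp (A B C : H →L[ℂ] H) : jp (A + B) C = jp A C + jp B C := by
  rw [jp_comm, jp_add, jp_comm C A, jp_comm C B]

lemma star_jp (A B : H →L[ℂ] H) : star (jp A B) = jp (star A) (star B) := by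
  unfold jp
  simp [add_comm]

lemma jp_ro (B : H →L[ℂ] H) (x y : H) :
    jp B (ro x y) = (2 : ℂ)⁻¹ • (ro (B x) y + ro x (star B y)) := by
  unfold jp
  rw [mul_ro, ro_mul]

/-! ## Unitary and antiunitary maps -/

/-- a unitary (`s = id`) or antiunitary (`s = conj`) map of `H` -/
structure UA (H : Type) [NormedAddCommGroup H] [InnerProductSpace ℂ H] where
  U : H ≃ H
  add : ∀ x y, U (x + y) = U x + U y
  nrm : ∀ x, ‖U x‖ = ‖x‖
  s : ℂ → ℂ
  hs : (∀ c, s c = c) ∨ (∀ c, s c = conj c)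
  smul : ∀ (c : ℂ) x, U (c • x) = s c • U x

namespace UA

variable (W : UA H)

lemma s_add (a b : ℂ) : W.s (a + b) = W.s a + W.s b := by
  rcases W.hs with h | h <;> simp [h]

lemma s_mul (a b : ℂ) : W.s (a * b) = W.s a * W.s b := by
  rcases W.hs with h | h <;> simp [h]

@[simp] lemma s_s (a : ℂ) : W.s (W.s a) = a := by
  rcases W.hs with h | h <;> simp [h]

lemma s_conj (a : ℂ) : W.s (conj a) = conj (W.s a) := by
  rcases W.hs with h | h <;> simp [h]

@[simp] lemma norm_s (a : ℂ) : ‖W.s a‖ = ‖a‖ := by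
  rcases W.hs with h | h <;> simp [h]

@[simp] lemma s_real (a : ℝ) : W.s (a : ℂ) = a := by
  rcases W.hs with h | h <;> simp [h]

@[simp] lemma s_zero : W.s 0 = 0 := by
  rcases W.hs with h | h <;> simp [h]

@[simp] lemma s_one : W.s 1 = 1 := by
  rcases W.hs with h | h <;> simp [h]

lemma s_eq_zero {a : ℂ} : W.s a = 0 ↔ a = 0 := by
  rw [← norm_eq_zero, norm_s, norm_eq_zero]

@[simp] lemma U_zero : W.U 0 = 0 := by
  have := W.nrm 0
  rwa [norm_zero, norm_eq_zero] at this

lemma U_neg (x : H) : W.U (-x) = -W.U x := by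
  have h := W.add x (-x)
  rw [add_neg_cancel, U_zero] at h
  exact (neg_eq_of_add_eq_zero_right h.symm).symm

lemma U_sub (x y : H) : W.U (x - y) = W.U x - W.U y := by
  rw [sub_eq_add_neg, W.add, U_neg, ← sub_eq_add_neg]

/-- the inverse map -/
def symm : UA H where
  U := W.U.symm
  add x y := by
    apply W.U.injective
    rw [W.add]
    simp
  nrm x := by
    have := W.nrm (W.U.symm x)
    simpa using this.symm
  s := W.s
  hs := W.hs
  smul c x := by
    apply W.U.injective
    rw [W.smul]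
    simp

@[simp] lemma symm_s : W.symm.s = W.s := rfl

@[simp] lemma symm_U : W.symm.U = W.U.symm := rfl

@[simp] lemma symm_symm : W.symm.symm = W := rfl

lemma re_inner (x y : H) : (inner ℂ (W.U x) (W.U y)).re = (inner ℂ x y).re := by
  have h1 := norm_add_sq (𝕜 := ℂ) (W.U x) (W.U y)
  have h2 := norm_add_sq (𝕜 := ℂ) x y
  rw [← W.add, W.nrm, W.nrm, W.nrm] at h1
  rw [h1] at h2
  simp only [RCLike.re_eq_complex_re] at h2
  linarith

lemma inner_U (x y : H) : inner ℂ (W.U x) (W.U y) = W.s (inner ℂ x y) := by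
  have h1 := W.re_inner x y
  have h2 := W.re_inner x (Complex.I • y)
  rw [W.smul, inner_smul_right, inner_smul_right] at h2
  rcases W.hs with h | h
  · rw [h] at h2 ⊢
    apply Complex.ext
    · exact h1
    · simp only [Complex.mul_re, Complex.I_re, Complex.I_im, zero_mul, one_mul, zero_sub] at h2
      linarith
  · rw [h] at h2 ⊢
    apply Complex.ext
    · rw [Complex.conj_re]
      exact h1
    · simp only [Complex.conj_I, neg_mul, Complex.neg_re, Complex.mul_re, Complex.I_re,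
        Complex.I_im, zero_mul, one_mul, zero_sub, neg_neg] at h2
      simp only [Complex.conj_im]
      linarith

/-- composition -/
def comp (W' : UA H) : UA H where
  U := W'.U.trans W.U
  add x y := by simp [W'.add, W.add]
  nrm x := by simp [W'.nrm, W.nrm]
  s c := W.s (W'.s c)
  hs := by
    rcases W.hs with h | h <;> rcases W'.hs with h' | h' <;> simp [h, h']
  smul c x := by simp [W'.smul, W.smul]

/-- the identity -/
def one : UA H where
  U := Equiv.refl H
  add _ _ := rfl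
  nrm _ := rfl
  s := id
  hs := Or.inl fun _ => rfl
  smul _ _ := rfl

/-- from a unitary -/
def ofU (U : H ≃ₗᵢ[ℂ] H) : UA H where
  U := U.toEquiv
  add x y := U.map_add x y
  nrm x := U.norm_map x
  s := id
  hs := Or.inl fun _ => rfl
  smul c x := U.map_smul c x

/-- from an antiunitary -/
def ofA (U : H ≃ₛₗᵢ[starRingEnd ℂ] H) : UA H where
  U := U.toEquiv
  add x y := U.map_add x y
  nrm x := U.norm_map x
  s := starRingEnd ℂ
  hs := Or.inr fun _ => rfl
  smul c x := U.map_smulₛₗ c x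

end UA

/-- `U T U⁻¹` -/
noncomputable def cj (W : UA H) (T : H →L[ℂ] H) : H →L[ℂ] H :=
  LinearMap.mkContinuous
    { toFun := fun x => W.U (T (W.U.symm x))
      map_add' := fun x y => by
        have h := W.symm.add x y
        simp only [UA.symm_U] at h
        rw [h, map_add, W.add]
      map_smul' := fun c x => by
        have h := W.symm.smul c x
        simp only [UA.symm_U, UA.symm_s] at h
        rw [h, map_smul, W.smul, W.s_s]
        rfl } ‖T‖ (fun x => by
      simp only [LinearMap.coe_mk, AddHom.coe_mk]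
      rw [W.nrm]
      have h := W.symm.nrm x
      simp only [UA.symm_U] at h
      have h2 := T.le_opNorm (W.U.symm x)
      rwa [h] at h2)

@[simp] lemma cj_apply (W : UA H) (T : H →L[ℂ] H) (x : H) : cj W T x = W.U (T (W.U.symm x)) := rfl

lemma cj_U (W : UA H) (T : H →L[ℂ] H) (x : H) : cj W T (W.U x) = W.U (T x) := by simp

lemma cj_mul (W : UA H) (A B : H →L[ℂ] H) : cj W (A * B) = cj W A * cj W B := by
  ext x
  simp

lemma cj_add (W : UA H) (A B : H →L[ℂ] H) : cj W (A + B) = cj W A + cj W B := by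
  ext x
  simp [W.add]

lemma cj_smul (W : UA H) (c : ℂ) (A : H →L[ℂ] H) : cj W (c • A) = W.s c • cj W A := by
  ext x
  simp [W.smul]

@[simp] lemma cj_one (W : UA H) : cj W (1 : H →L[ℂ] H) = 1 := by
  ext x
  simp

@[simp] lemma cj_zero (W : UA H) : cj W (0 : H →L[ℂ] H) = 0 := by
  ext x
  simp

lemma cj_neg (W : UA H) (A : H →L[ℂ] H) : cj W (-A) = -cj W A := by
  ext x
  simp [W.U_neg]

lemma cj_sub (W : UA H) (A B : H →L[ℂ] H) : cj W (A - B) = cj W A - cj W B := by
  rw [sub_eq_add_neg, cj_add, cj_neg, ← sub_eq_add_neg]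

@[simp] lemma cj_symm_cj (W : UA H) (A : H →L[ℂ] H) : cj W.symm (cj W A) = A := by
  ext x
  simp

@[simp] lemma cj_cj_symm (W : UA H) (A : H →L[ℂ] H) : cj W (cj W.symm A) = A := by
  ext x
  simp

lemma cj_bijective (W : UA H) : Function.Bijective (cj W (H := H)) :=
  Function.bijective_iff_has_inverse.2 ⟨cj W.symm, cj_symm_cj W, cj_cj_symm W⟩

lemma cj_star (W : UA H) (A : H →L[ℂ] H) : cj W (star A) = star (cj W A) := by
  rw [ContinuousLinearMap.star_eq_adjoint, ContinuousLinearMap.star_eq_adjoint,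
    ContinuousLinearMap.eq_adjoint_iff]
  intro x y
  obtain ⟨x, rfl⟩ := W.U.surjective x
  obtain ⟨y, rfl⟩ := W.U.surjective y
  rw [cj_U, cj_U, W.inner_U, W.inner_U, ContinuousLinearMap.adjoint_inner_left]

@[simp] lemma cj_ro (W : UA H) (x y : H) : cj W (ro x y) = ro (W.U x) (W.U y) := by
  ext z
  obtain ⟨z, rfl⟩ := W.U.surjective z
  rw [cj_U, ro_apply, ro_apply, W.smul, W.inner_U]

lemma cj_norm (W : UA H) (A : H →L[ℂ] H) : ‖cj W A‖ = ‖A‖ := by
  have key : ∀ (W : UA H) (A : H →L[ℂ] H), ‖cj W A‖ ≤ ‖A‖ := by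
    intro W A
    exact LinearMap.mkContinuous_norm_le _ (norm_nonneg _) _
  apply le_antisymm (key W A)
  have := key W.symm (cj W A)
  rwa [cj_symm_cj] at this

lemma cj_jp (W : UA H) (A B : H →L[ℂ] H) : cj W (jp A B) = jp (cj W A) (cj W B) := by
  unfold jp
  rw [cj_smul, cj_add, cj_mul, cj_mul]
  congr 1
  have := W.s_real (2⁻¹ : ℝ)
  simpa using this

/-! ## Dimension, finite rank, trace -/

/-- the dimension is at least two: an orthonormal pair -/
def Two (H : Type) [NormedAddCommGroup H] [InnerProductSpace ℂ H] : Prop :=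
  ∃ x y : H, ‖x‖ = 1 ∧ ‖y‖ = 1 ∧ inner ℂ x y = 0

/-- the dimension is at least three: two vectors have a common orthogonal vector -/
def Thr (H : Type) [NormedAddCommGroup H] [InnerProductSpace ℂ H] : Prop :=
  ∀ x y : H, ∃ z : H, z ≠ 0 ∧ inner ℂ x z = 0 ∧ inner ℂ y z = 0

/-- finite rank -/
def FR (T : H →L[ℂ] H) : Prop := FiniteDimensional ℂ (LinearMap.range (T : H →ₗ[ℂ] H))

/-- the trace of finite rank operators (any function with these properties) -/
structure IsTr (tr : (H →L[ℂ] H) → ℂ) : Prop where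
  add : ∀ X Y, FR X → FR Y → tr (X + Y) = tr X + tr Y
  smul : ∀ (c : ℂ) X, FR X → tr (c • X) = c * tr X
  cyc : ∀ X Y, FR X → tr (X * Y) = tr (Y * X)
  rk : ∀ x y, tr (ro x y) = inner ℂ y x
  nil : ∀ (X : H →L[ℂ] H) (k : ℕ), FR X → X ^ k = 0 → tr X = 0

/-- the operator maps are bijective additive etc. -/
def Addm (F : (H →L[ℂ] H) → H →L[ℂ] H) : Prop := ∀ A B, F (A + B) = F A + F B

/-- symmetries (selfadjoint unitaries) -/
def IsSy (S : H →L[ℂ] H) : Prop := IsSelfAdjoint S ∧ S * S = 1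

/-- What is used about the transform `L`; `m` says whether `L` is the mean transform. -/
structure Lm (L : (H →L[ℂ] H) → H →L[ℂ] H) (m : Bool) : Prop where
  /-- homogeneity -/
  hom : ∀ (c : ℂ) T, L (c • T) = c • L T
  /-- covariance -/
  cov : ∀ (W : UA H) T, L (cj W T) = cj W (L T)
  /-- normal operators are fixed -/
  nor : ∀ T, IsStarNormal T → L T = T
  /-- reducing subspaces -/
  red : ∀ E T : H →L[ℂ] H, IsStarProjection E → E * T = T * E →
    L (T * E) = L T * E ∧ E * L T = L T * E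
  /-- contraction -/
  nrm : ∀ T, ‖L T‖ ≤ ‖T‖
  /-- rank one operators, not the mean transform -/
  rk0 : m = false → ∀ x y : H, y ≠ 0 → L (ro x y) = (inner ℂ y x / (‖y‖ : ℂ) ^ 2) • ro y y
  /-- rank one operators, mean transform -/
  rk1 : m = true → ∀ x y : H, y ≠ 0 →
    L (ro x y) = (2 : ℂ)⁻¹ • (ro x y + (inner ℂ y x / (‖y‖ : ℂ) ^ 2) • ro y y)
  /-- zeros, not the mean transform -/
  ze0 : m = false → ∀ T, L T = 0 ↔ T * T = 0
  /-- zeros, mean transform -/
  ze1 : m = true → ∀ T, L T = 0 ↔ T = 0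
  /-- square zero operators, mean transform -/
  sq1 : m = true → ∀ T, (2 : ℂ) • L T = T ↔ T * T = 0
  /-- scalars have one preimage -/
  sca : ∀ (c : ℂ) T, c ≠ 0 → L T = c • 1 → T = c • 1
  /-- first order asymptotics at large scalars -/
  as1 : ∀ T, Filter.Tendsto (fun n : ℕ => L ((n : ℂ) • 1 + T) - (n : ℂ) • 1 - T)
    Filter.atTop (nhds 0)
  /-- second order asymptotics at large scalars -/
  as2 : ∃ k : ℂ, k ≠ 0 ∧ ∀ (e : ℂ) (T : H →L[ℂ] H), e ≠ 0 →
    Filter.Tendsto (fun n : ℕ => (n : ℂ) • (L ((n : ℂ) • e • 1 + T) - (n : ℂ) • e • 1 - T))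
      Filter.atTop (nhds ((k / conj e) • (star T * T - T * star T)))
  /-- trace -/
  trc : ∀ tr, IsTr tr → ∀ T, FR T → FR (L T) ∧ tr (L T) = tr T
  /-- a fixed operator maps nearly norming vectors to nearly norming vectors -/
  top : ∀ T, L T = T → ∀ e : ℕ → H, (∀ i, ‖e i‖ = 1) →
    Filter.Tendsto (fun i => ‖T (e i)‖) Filter.atTop (nhds ‖T‖) →
    Filter.Tendsto (fun i => ‖T (T (e i))‖) Filter.atTop (nhds (‖T‖ ^ 2))
  /-- the chain of length three: `y ⊗ z` survives; for the mean transform `2 L - id` is used -/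
  ch0 : m = false → ∀ x y z : H, ‖x‖ = 1 → ‖y‖ = 1 → ‖z‖ = 1 → inner ℂ x y = 0 → inner ℂ y z = 0 →
    inner ℂ x z = 0 → ∀ a b : ℂ, a ≠ 0 → b ≠ 0 →
    ∃ c : ℂ, c ≠ 0 ∧ L (a • ro x y + b • ro y z) = c • ro y z
  ch1 : m = true → ∀ x y z : H, ‖x‖ = 1 → ‖y‖ = 1 → ‖z‖ = 1 → inner ℂ x y = 0 → inner ℂ y z = 0 →
    inner ℂ x z = 0 → ∀ a b : ℂ, a ≠ 0 → b ≠ 0 →
    ∃ c : ℂ, c ≠ 0 ∧ (2 : ℂ) • L (a • ro x y + b • ro y z) - (a • ro x y + b • ro y z) = c • ro y z
  /-- a fixed involution is selfadjoint -/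
  inv : ∀ T, L T = T → T * T = 1 → IsSelfAdjoint T
  /-- fixed operators of a finite dimensional space are normal -/
  fin : FiniteDimensional ℂ H → ∀ T, L T = T → IsStarNormal T

end Pool.Agent.H48.MT
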