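import Mathlib

/-!
# Bijections of `B(H)` intertwining mean-type transforms and products (MP_c80a4f_an): definitions
-/

namespace Pool.Agent.H48.MT

variable {H : Type} [NormedAddCommGroup H] [InnerProductSpace ℂ H] [CompleteSpace H]

/-- `V` is the partial isometry of the polar decomposition `T = V |T|`, with `ker V = ker T` -/
def IsPol (T V : H →L[ℂ] H) : Prop :=
  V * star V * V = V ∧ (∀ x, V x = 0 ↔ T x = 0) ∧ T = V * CFC.abs T

/-- the partial isometry of the polar decomposition (it exists and is unique, see `T_POL`) -/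
noncomputable def pol (T : H →L[ℂ] H) : H →L[ℂ] H := Classical.epsilon (IsPol T)

/-- the `l`-Aluthge transform `|T|^l V |T|^(1-l)`; here `|T|^0 = 1` -/
noncomputable def al (l : ℝ) (T : H →L[ℂ] H) : H →L[ℂ] H :=
  CFC.abs T ^ l * pol T * CFC.abs T ^ (1 - l)

/-- the mean transform `(T + |T| V) / 2` -/
noncomputable def mean (T : H →L[ℂ] H) : H →L[ℂ] H := (2 : ℂ)⁻¹ • (T + CFC.abs T * pol T)

/-- the transform `M_l`, the mean of the `l`- and the `(1-l)`-Aluthge transform -/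
noncomputable def mm (l : ℝ) (T : H →L[ℂ] H) : H →L[ℂ] H := (2 : ℂ)⁻¹ • (al l T + al (1 - l) T)

/-- the mean-Aluthge transform: the mean transform of the Aluthge transform -/
noncomputable def dh (T : H →L[ℂ] H) : H →L[ℂ] H := mean (al (1 / 2) T)

/-- the transforms of the question -/
def IsLam (L : (H →L[ℂ] H) → H →L[ℂ] H) : Prop :=
  L = dh ∨ ∃ l : ℝ, 0 ≤ l ∧ l ≤ 1 / 2 ∧ L = mm l

/-- the Jordan product -/
noncomputable def jp (A B : H →L[ℂ] H) : H →L[ℂ] H := (2 : ℂ)⁻¹ • (A * B + B * A)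

/-- `Φ T = α U T U*` with `U` unitary -/
def UConj (α : ℂ) (Φ : (H →L[ℂ] H) → H →L[ℂ] H) : Prop :=
  ∃ U : H ≃ₗᵢ[ℂ] H, ∀ T x, Φ T (U x) = α • U (T x)

/-- `Φ T = α U T U*` with `U` antiunitary -/
def AConj (α : ℂ) (Φ : (H →L[ℂ] H) → H →L[ℂ] H) : Prop :=
  ∃ U : H ≃ₛₗᵢ[starRingEnd ℂ] H, ∀ T x, Φ T (U x) = α • U (T x)

/-- the identity for `A ⋆ B = A B` -/
def Eq1 (L Φ : (H →L[ℂ] H) → H →L[ℂ] H) : Prop := ∀ A B, L (Φ A * Φ B) = Φ (L (A * B))

/-- the identity for `A ⋆ B = (A B + B A) / 2` -/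
def Eq2 (L Φ : (H →L[ℂ] H) → H →L[ℂ] H) : Prop := ∀ A B, L (jp (Φ A) (Φ B)) = Φ (L (jp A B))

/-- the identity for `A ⋆ B = (A B* + B* A) / 2` -/
def Eq3 (L Φ : (H →L[ℂ] H) → H →L[ℂ] H) : Prop :=
  ∀ A B, L (jp (Φ A) (star (Φ B))) = Φ (L (jp A (star B)))

/-- the identity for `A ⋆ B = A^n B A^k` -/
def Eq4 (n k : ℕ) (L Φ : (H →L[ℂ] H) → H →L[ℂ] H) : Prop :=
  ∀ A B, L (Φ A ^ n * Φ B * Φ A ^ k) = Φ (L (A ^ n * B * A ^ k))

/-- the identity for `A ⋆ B = A + ω B` -/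
def Eq5 (w : ℂ) (L Φ : (H →L[ℂ] H) → H →L[ℂ] H) : Prop :=
  ∀ A B, L (Φ A + w • Φ B) = Φ (L (A + w • B))

end Pool.Agent.H48.MT
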