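import Pool.Agent.H48.MT.Basic

/-!
# MP_c80a4f_an: module targets, part 2 (operation 4 and general lemmas on rays)
-/

set_option linter.unusedSectionVars false

open InnerProductSpace Filter Topology
open scoped ComplexConjugate

namespace Pool.Agent.H48.MT

variable {H : Type} [NormedAddCommGroup H] [InnerProductSpace ℂ H] [CompleteSpace H]

/-! ## Structures -/

/-- the multiples of `x ⊗ x` are mapped to multiples of one `y ⊗ y` -/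
def RayTo (Φ : (H →L[ℂ] H) → H →L[ℂ] H) : Prop :=
  ∀ x, ‖x‖ = 1 → ∃ y, ‖y‖ = 1 ∧ ∀ c : ℂ, ∃ c' : ℂ, Φ (c • ro x x) = c' • ro y y

/-- `Φ` maps the multiples of `x ⊗ x` bijectively to the multiples of `pr x ⊗ pr x` -/
structure Ry (Φ : (H →L[ℂ] H) → H →L[ℂ] H) (pr : H → H) (f : H → ℂ → ℂ) : Prop where
  nrm : ∀ x, ‖x‖ = 1 → ‖pr x‖ = 1
  val : ∀ x, ‖x‖ = 1 → ∀ c : ℂ, Φ (c • ro x x) = f x c • ro (pr x) (pr x)
  sur : ∀ y, ‖y‖ = 1 → ∃ x, ‖x‖ = 1 ∧ ro (pr x) (pr x) = ro y y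
  inj : ∀ x y, ‖x‖ = 1 → ‖y‖ = 1 → ro (pr x) (pr x) = ro (pr y) (pr y) → ro x x = ro y y
  bjf : ∀ x, ‖x‖ = 1 → Function.Bijective (f x)
  zer : ∀ x, ‖x‖ = 1 → f x 0 = 0

/-- standing assumptions for operation 4 -/
structure O4 (n k : ℕ) (L Φ : (H →L[ℂ] H) → H →L[ℂ] H) (m : Bool) : Prop where
  lm : Lm L m
  two : Two H
  pos : 1 ≤ n + k
  bij : Function.Bijective Φ
  eq4 : Eq4 n k L Φ

/-- operation 4, rays, normalized: the value at `x ⊗ x` is `pr x ⊗ pr x` -/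
structure N4 (n k : ℕ) (L Φ : (H →L[ℂ] H) → H →L[ℂ] H) (m : Bool) (pr : H → H)
    (f : H → ℂ → ℂ) : Prop extends O4 n k L Φ m, Ry Φ pr f where
  one : ∀ x, ‖x‖ = 1 → f x 1 = 1
  mul : ∀ x, ‖x‖ = 1 → ∀ a b, f x (a * b) = f x a * f x b

/-- operation 4 after composition with the Wigner map -/
structure N5 (n k : ℕ) (L Φ : (H →L[ℂ] H) → H →L[ℂ] H) (m : Bool)
    (f : H → ℂ → ℂ) : Prop extends O4 n k L Φ m where
  val : ∀ x, ‖x‖ = 1 → ∀ c : ℂ, Φ (c • ro x x) = f x c • ro x x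
  bjf : ∀ x, ‖x‖ = 1 → Function.Bijective (f x)
  mul : ∀ x, ‖x‖ = 1 → ∀ a b, f x (a * b) = f x a * f x b
  pst : ∀ x, ‖x‖ = 1 → ∀ t : ℝ, 0 ≤ t → f x t = t

/-! ## Simple lemmas on `O4` -/

lemma Lm.zero {L : (H →L[ℂ] H) → H →L[ℂ] H} {m : Bool} (h : Lm L m) : L 0 = 0 := by
  have := h.hom 0 0
  simpa using this

lemma Lm.one {L : (H →L[ℂ] H) → H →L[ℂ] H} {m : Bool} (h : Lm L m) : L 1 = 1 :=
  h.nor 1 ⟨by simp⟩

lemma Lm.sel {L : (H →L[ℂ] H) → H →L[ℂ] H} {m : Bool} (h : Lm L m) {A : H →L[ℂ] H}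
    (hA : IsSelfAdjoint A) : L A = A := h.nor A ⟨by rw [hA.star_eq]⟩

lemma ro_self_sa (x : H) : IsSelfAdjoint (ro x x) := star_ro x x

lemma Lm.smul_ro {L : (H →L[ℂ] H) → H →L[ℂ] H} {m : Bool} (h : Lm L m) (c : ℂ) (x : H) :
    L (c • ro x x) = c • ro x x := by rw [h.hom, h.sel (ro_self_sa x)]

lemma O4.zero {n k : ℕ} {L Φ : (H →L[ℂ] H) → H →L[ℂ] H} {m : Bool} (h : O4 n k L Φ m) :
    Φ 0 = 0 := by
  obtain ⟨B, hB⟩ := h.bij.2 0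
  have h1 := h.eq4 0 B
  rw [hB] at h1
  have h2 : (0 : H →L[ℂ] H) ^ n * B * 0 ^ k = 0 := by
    have := h.pos
    rcases Nat.eq_zero_or_pos n with h0 | h0
    · rw [zero_pow (by omega : k ≠ 0), mul_zero]
    · rw [zero_pow (by omega : n ≠ 0), zero_mul, zero_mul]
  rw [h2, mul_zero, zero_mul, h.lm.zero] at h1
  exact h1.symm

/-- the inverse satisfies the same identity -/
lemma O4.inv {n k : ℕ} {L Φ : (H →L[ℂ] H) → H →L[ℂ] H} {m : Bool} (h : O4 n k L Φ m) :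
    ∃ Ψ : (H →L[ℂ] H) → H →L[ℂ] H, O4 n k L Ψ m ∧ (∀ T, Ψ (Φ T) = T) ∧ ∀ T, Φ (Ψ T) = T := by
  obtain ⟨Ψ, h1, h2⟩ := Function.bijective_iff_has_inverse.1 h.bij
  refine ⟨Ψ, ⟨h.lm, h.two, h.pos, Function.bijective_iff_has_inverse.2 ⟨Φ, h2, h1⟩, ?_⟩, h1, h2⟩
  intro A B
  apply h.bij.1
  rw [← h.eq4, h2, h2, h2]

/-! ## Operation 4: targets -/

/-- rays, product on both sides, or `n = 0` and not the mean transform -/
def T_OA1 : Prop := ∀ (H : Type) [NormedAddCommGroup H] [InnerProductSpace ℂ H] [CompleteSpace H]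
  (n k : ℕ) (L Φ : (H →L[ℂ] H) → H →L[ℂ] H) (m : Bool), O4 n k L Φ m →
    (1 ≤ n ∧ 1 ≤ k) ∨ (n = 0 ∧ m = false) → RayTo Φ

/-- rays, `k = 0`, not the mean transform -/
def T_OA2 : Prop := ∀ (H : Type) [NormedAddCommGroup H] [InnerProductSpace ℂ H] [CompleteSpace H]
  (n : ℕ) (L Φ : (H →L[ℂ] H) → H →L[ℂ] H), O4 n 0 L Φ false → RayTo Φ

/-- rays, `k = 0`, mean transform -/
def T_OA3 : Prop := ∀ (H : Type) [NormedAddCommGroup H] [InnerProductSpace ℂ H] [CompleteSpace H]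
  (n : ℕ) (L Φ : (H →L[ℂ] H) → H →L[ℂ] H), O4 n 0 L Φ true → RayTo Φ

/-- rays, `n = 0`, mean transform -/
def T_OA4 : Prop := ∀ (H : Type) [NormedAddCommGroup H] [InnerProductSpace ℂ H] [CompleteSpace H]
  (k : ℕ) (L Φ : (H →L[ℂ] H) → H →L[ℂ] H), O4 0 k L Φ true → RayTo Φ

/-- ray structure -/
def T_RAY : Prop := ∀ (H : Type) [NormedAddCommGroup H] [InnerProductSpace ℂ H] [CompleteSpace H]
  (Φ Ψ : (H →L[ℂ] H) → H →L[ℂ] H), (∀ T, Ψ (Φ T) = T) → (∀ T, Φ (Ψ T) = T) → Φ 0 = 0 →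
    RayTo Φ → RayTo Ψ → ∃ (pr : H → H) (f : H → ℂ → ℂ), Ry Φ pr f

/-- the functions `f x` are multiples of multiplicative functions -/
def T_OB : Prop := ∀ (H : Type) [NormedAddCommGroup H] [InnerProductSpace ℂ H] [CompleteSpace H]
  (n k : ℕ) (L Φ : (H →L[ℂ] H) → H →L[ℂ] H) (m : Bool) (pr : H → H) (f : H → ℂ → ℂ),
  O4 n k L Φ m → Ry Φ pr f → ∀ x, ‖x‖ = 1 → f x 1 ^ (n + k) = 1 ∧
    ∀ a b, f x 1 * f x (a * b) = f x a * f x b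

/-- the factor is constant, first case -/
def T_OC1 : Prop := ∀ (H : Type) [NormedAddCommGroup H] [InnerProductSpace ℂ H] [CompleteSpace H]
  (n k : ℕ) (L Φ : (H →L[ℂ] H) → H →L[ℂ] H) (m : Bool) (pr : H → H) (f : H → ℂ → ℂ),
  O4 n k L Φ m → Ry Φ pr f → (∀ x, ‖x‖ = 1 → f x 1 ^ (n + k) = 1 ∧
    ∀ a b, f x 1 * f x (a * b) = f x a * f x b) → (1 ≤ n ∧ 1 ≤ k) ∨ (n = 0 ∧ m = false) →
    ∀ x y, ‖x‖ = 1 → ‖y‖ = 1 → f x 1 = f y 1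

/-- the factor is constant, second case -/
def T_OC2 : Prop := ∀ (H : Type) [NormedAddCommGroup H] [InnerProductSpace ℂ H] [CompleteSpace H]
  (n k : ℕ) (L Φ : (H →L[ℂ] H) → H →L[ℂ] H) (m : Bool) (pr : H → H) (f : H → ℂ → ℂ),
  O4 n k L Φ m → Ry Φ pr f → (∀ x, ‖x‖ = 1 → f x 1 ^ (n + k) = 1 ∧
    ∀ a b, f x 1 * f x (a * b) = f x a * f x b) → k = 0 ∨ (n = 0 ∧ m = true) →
    ∀ x y, ‖x‖ = 1 → ‖y‖ = 1 → f x 1 = f y 1

/-- the value at a transition probability, everything but the one sided mean transform -/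
def T_OD1 : Prop := ∀ (H : Type) [NormedAddCommGroup H] [InnerProductSpace ℂ H] [CompleteSpace H]
  (n k : ℕ) (L Φ : (H →L[ℂ] H) → H →L[ℂ] H) (m : Bool) (pr : H → H) (f : H → ℂ → ℂ),
  N4 n k L Φ m pr f → (1 ≤ n ∧ 1 ≤ k) ∨ m = false → ∀ x y, ‖x‖ = 1 → ‖y‖ = 1 →
    f x (‖inner ℂ x y‖ ^ 2 : ℝ) = (‖inner ℂ (pr x) (pr y)‖ ^ 2 : ℝ)

/-- the value at a transition probability, one sided mean transform -/
def T_OD2 : Prop := ∀ (H : Type) [NormedAddCommGroup H] [InnerProductSpace ℂ H] [CompleteSpace H]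
  (n k : ℕ) (L Φ : (H →L[ℂ] H) → H →L[ℂ] H) (pr : H → H) (f : H → ℂ → ℂ),
  N4 n k L Φ true pr f → k = 0 ∨ n = 0 → ∀ x y, ‖x‖ = 1 → ‖y‖ = 1 →
    f x (‖inner ℂ x y‖ ^ 2 : ℝ) = (‖inner ℂ (pr x) (pr y)‖ ^ 2 : ℝ)

/-- maps of rays preserving orthogonality map planes to planes -/
def T_SPN : Prop := ∀ (H : Type) [NormedAddCommGroup H] [InnerProductSpace ℂ H] [CompleteSpace H]
  (pr : H → H), (∀ x, ‖x‖ = 1 → ‖pr x‖ = 1) →
  (∀ y, ‖y‖ = 1 → ∃ x, ‖x‖ = 1 ∧ ro (pr x) (pr x) = ro y y) →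
  (∀ x y, ‖x‖ = 1 → ‖y‖ = 1 → (inner ℂ (pr x) (pr y) = 0 ↔ inner ℂ x y = 0)) →
  ∀ x y, ‖x‖ = 1 → ‖y‖ = 1 → inner ℂ x y = 0 → ∀ a b : ℂ, ‖a • x + b • y‖ = 1 →
    ‖inner ℂ (pr x) (pr (a • x + b • y))‖ ^ 2 + ‖inner ℂ (pr y) (pr (a • x + b • y))‖ ^ 2 = 1

/-- `f x t = t` for `t ≥ 0` -/
def T_OE : Prop := ∀ (H : Type) [NormedAddCommGroup H] [InnerProductSpace ℂ H] [CompleteSpace H]
  (Φ : (H →L[ℂ] H) → H →L[ℂ] H) (pr : H → H) (f : H → ℂ → ℂ), Two H → Ry Φ pr f →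
  (∀ x, ‖x‖ = 1 → f x 1 = 1) → (∀ x, ‖x‖ = 1 → ∀ a b, f x (a * b) = f x a * f x b) →
  (∀ x y, ‖x‖ = 1 → ‖y‖ = 1 →
    f x (‖inner ℂ x y‖ ^ 2 : ℝ) = (‖inner ℂ (pr x) (pr y)‖ ^ 2 : ℝ)) →
    ∀ x, ‖x‖ = 1 → ∀ t : ℝ, 0 ≤ t → f x t = t

/-- numerical values, everything but the one sided mean transform -/
def T_OG : Prop := ∀ (H : Type) [NormedAddCommGroup H] [InnerProductSpace ℂ H] [CompleteSpace H]
  (n k : ℕ) (L Φ : (H →L[ℂ] H) → H →L[ℂ] H) (m : Bool) (f : H → ℂ → ℂ),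
  N5 n k L Φ m f → (1 ≤ n ∧ 1 ≤ k) ∨ m = false → ∃ g : ℂ → ℂ, (∀ a b, g (a * b) = g a * g b) ∧
    (∀ t : ℝ, 0 ≤ t → g t = t) ∧ Function.Bijective g ∧
    ∀ (B : H →L[ℂ] H) (x : H), ‖x‖ = 1 → inner ℂ x (Φ B x) = g (inner ℂ x (B x))

/-- a multiplicative function acting on numerical ranges is the identity or the conjugation -/
def T_AFF : Prop := ∀ (H : Type) [NormedAddCommGroup H] [InnerProductSpace ℂ H] [CompleteSpace H],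
  Two H → ∀ g : ℂ → ℂ, (∀ a b, g (a * b) = g a * g b) → (∀ t : ℝ, 0 ≤ t → g t = t) →
  Function.Bijective g →
  (∀ B : H →L[ℂ] H, ∃ B' : H →L[ℂ] H, ∀ x : H, ‖x‖ = 1 → inner ℂ x (B' x) = g (inner ℂ x (B x))) →
    (∀ a, g a = a) ∨ ∀ a, g a = conj a

/-- the transforms do not commute with the adjoint -/
def T_NST : Prop := ∀ (H : Type) [NormedAddCommGroup H] [InnerProductSpace ℂ H] [CompleteSpace H]
  (L : (H →L[ℂ] H) → H →L[ℂ] H) (m : Bool), Lm L m → Two H →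
    ∃ x y : H, ‖x‖ = 1 ∧ ‖y‖ = 1 ∧ L (star (ro x y)) ≠ star (L (ro x y))

/-- density -/
def T_DEN : Prop := ∀ (H : Type) [NormedAddCommGroup H] [InnerProductSpace ℂ H] [CompleteSpace H]
  (S T : H →L[ℂ] H), T ≠ 0 → (∀ x, ‖x‖ = 1 → inner ℂ x (T x) ≠ 0 → S x = T x) → S = T

/-- the one sided mean transform, `k = 0` -/
def T_OI : Prop := ∀ (H : Type) [NormedAddCommGroup H] [InnerProductSpace ℂ H] [CompleteSpace H]
  (n : ℕ) (L Φ : (H →L[ℂ] H) → H →L[ℂ] H) (f : H → ℂ → ℂ),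
  N5 n 0 L Φ true f → ∀ B, Φ B = B

/-- the one sided mean transform, `n = 0` -/
def T_OJ : Prop := ∀ (H : Type) [NormedAddCommGroup H] [InnerProductSpace ℂ H] [CompleteSpace H]
  (k : ℕ) (L Φ : (H →L[ℂ] H) → H →L[ℂ] H) (f : H → ℂ → ℂ),
  N5 0 k L Φ true f → ∀ B, Φ B = B

/-- operation 4, conclusion -/
def T_OP4 : Prop := ∀ (H : Type) [NormedAddCommGroup H] [InnerProductSpace ℂ H] [CompleteSpace H]
  (n k : ℕ) (L Φ : (H →L[ℂ] H) → H →L[ℂ] H) (m : Bool), O4 n k L Φ m →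
    ∃ (α : ℂ) (W : UA H), α ^ (n + k) = 1 ∧ ∀ T, Φ T = α • cj W T

end Pool.Agent.H48.MT
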